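import Mathlib

/-!
The kernel `(1 + |t|)^(-γ)` with `0 < γ < 1` and its averages over segments.
-/

namespace Pool.Agent.H86.QC

open MeasureTheory Set

noncomputable section

/-- the kernel -/
def ker (γ t : ℝ) : ℝ := (1 + |t|) ^ (-γ)

theorem ker_pos (γ t : ℝ) : 0 < ker γ t := by
  unfold ker
  have : 0 < 1 + |t| := by positivity
  positivity

theorem ker_le_one {γ : ℝ} (hγ : 0 ≤ γ) (t : ℝ) : ker γ t ≤ 1 := by
  unfold ker
  apply Real.rpow_le_one_of_one_le_of_nonpos
  · have := abs_nonneg t; linarith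
  · linarith

theorem ker_continuous (γ : ℝ) : Continuous (ker γ) := by
  unfold ker
  apply Continuous.rpow_const
  · fun_prop
  · intro x; left
    have := abs_nonneg x; positivity

theorem ker_anti {γ : ℝ} (hγ : 0 ≤ γ) {s t : ℝ} (h : |s| ≤ |t|) : ker γ t ≤ ker γ s := by
  unfold ker
  apply Real.rpow_le_rpow_of_nonpos
  · have := abs_nonneg s; positivity
  · linarith
  · linarith

/-- comparison at comparable arguments -/
theorem ker_le_mul {γ : ℝ} (hγ : 0 ≤ γ) (hγ1 : γ ≤ 1) {s t C : ℝ} (hC : 1 ≤ C)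
    (h : |t| ≤ C * |s|) : ker γ s ≤ C * ker γ t := by
  unfold ker
  have hs : 0 < 1 + |s| := by have := abs_nonneg s; positivity
  have ht : 0 < 1 + |t| := by have := abs_nonneg t; positivity
  have h1 : 1 + |t| ≤ C * (1 + |s|) := by linarith
  have h2 : (C * (1 + |s|)) ^ (-γ) ≤ (1 + |t|) ^ (-γ) :=
    Real.rpow_le_rpow_of_nonpos ht h1 (by linarith)
  rw [Real.mul_rpow (by linarith) hs.le] at h2
  have h3 : C⁻¹ ≤ C ^ (-γ) := by
    rw [← Real.rpow_neg_one]
    exact Real.rpow_le_rpow_of_exponent_le hC (by linarith)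
  have h4 : (1 + |s|) ^ (-γ) > 0 := by positivity
  have h5 : C⁻¹ * (1 + |s|) ^ (-γ) ≤ (1 + |t|) ^ (-γ) := by
    refine le_trans ?_ h2
    exact mul_le_mul_of_nonneg_right h3 h4.le
  have hC0 : 0 < C := by linarith
  calc (1 + |s|) ^ (-γ) = C * (C⁻¹ * (1 + |s|) ^ (-γ)) := by field_simp
    _ ≤ C * (1 + |t|) ^ (-γ) := mul_le_mul_of_nonneg_left h5 hC0.le

/-- the basic one-sided integral -/
theorem int_half {γ : ℝ} (hγ : 0 < γ) (hγ1 : γ < 1) {B X : ℝ} (hB : 0 ≤ B) (hX : 0 ≤ X) :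
    (1 - γ) * ∫ s in (0:ℝ)..X, ker γ (B * s) ≤ X * ker γ (B * X) := by
  have hderiv : ∀ s ∈ uIcc 0 X, HasDerivAt (fun s => s * (1 + B * s) ^ (-γ))
      ((1 + B * s) ^ (-γ) + s * (B * (-γ) * (1 + B * s) ^ (-γ - 1))) s := by
    intro s hs
    rw [uIcc_of_le hX] at hs
    have h1 : 0 < 1 + B * s := by have := mul_nonneg hB hs.1; linarith
    have h2 : HasDerivAt (fun s => 1 + B * s) B s := by
      simpa using ((hasDerivAt_id s).const_mul B).const_add 1
    have h3 := h2.rpow_const (p := -γ) (Or.inl h1.ne')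
    have h4 := HasDerivAt.fun_mul (hasDerivAt_id' s) h3
    simpa using h4
  have hcont : ContinuousOn (fun s => (1 + B * s) ^ (-γ) + s * (B * (-γ) * (1 + B * s) ^ (-γ - 1)))
      (uIcc 0 X) := by
    rw [uIcc_of_le hX]
    have hne : ∀ s ∈ Icc (0:ℝ) X, (1 + B * s) ≠ 0 := by
      intro s hs
      have := mul_nonneg hB hs.1
      positivity
    apply ContinuousOn.add
    · apply ContinuousOn.rpow_const
      · fun_prop
      · intro s hs; left; exact hne s hs
    · apply ContinuousOn.mul continuousOn_id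
      apply ContinuousOn.mul continuousOn_const
      apply ContinuousOn.rpow_const
      · fun_prop
      · intro s hs; left; exact hne s hs
  have hftc := intervalIntegral.integral_eq_sub_of_hasDerivAt hderiv hcont.intervalIntegrable
  have hX' : X * ker γ (B * X) = X * (1 + B * X) ^ (-γ) - 0 * (1 + B * 0) ^ (-γ) := by
    unfold ker
    rw [abs_of_nonneg (mul_nonneg hB hX)]; ring
  rw [hX', ← hftc, ← intervalIntegral.integral_const_mul]
  apply intervalIntegral.integral_mono_on hX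
  · apply Continuous.intervalIntegrable
    exact continuous_const.mul ((ker_continuous γ).comp (by fun_prop))
  · exact hcont.intervalIntegrable
  · intro s hs
    have hBs : 0 ≤ B * s := mul_nonneg hB hs.1
    have h1 : 0 < 1 + B * s := by linarith
    unfold ker
    rw [abs_of_nonneg hBs]
    have h2 : (1 + B * s) ^ (-γ - 1) = (1 + B * s) ^ (-γ) / (1 + B * s) := by
      rw [Real.rpow_sub h1, Real.rpow_one]
    rw [h2]
    have h3 : 0 < (1 + B * s) ^ (-γ) := by positivity
    have h4 : s * (B * (-γ) * ((1 + B * s) ^ (-γ) / (1 + B * s))) =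
        -γ * (B * s / (1 + B * s)) * (1 + B * s) ^ (-γ) := by
      field_simp
    rw [h4]
    have h5 : B * s / (1 + B * s) ≤ 1 := by
      rw [div_le_one h1]; linarith
    nlinarith [mul_le_mul_of_nonneg_left h5 hγ.le]

/-- averages over `[-1,1]` of the kernel composed with an affine map -/
theorem int_affine {γ : ℝ} (hγ : 0 < γ) (hγ1 : γ < 1) {B : ℝ} (hB : 0 ≤ B) (c : ℝ) :
    ∫ t in (-1:ℝ)..1, ker γ (B * t + c) ≤ 4 / (1 - γ) * ker γ B := by
  obtain ⟨t1, ht1, hle⟩ : ∃ t1 ∈ Icc (-1:ℝ) 1, ∀ t ∈ Icc (-1:ℝ) 1, |B * (t - t1)| ≤ |B * t + c| := by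
    by_cases h1 : B ≤ c
    · refine ⟨-1, by simp, ?_⟩
      intro t ht
      have : 0 ≤ B * (t + 1) := mul_nonneg hB (by linarith [ht.1])
      rw [sub_neg_eq_add, abs_of_nonneg this, abs_of_nonneg (by nlinarith [ht.1])]
      nlinarith
    by_cases h2 : c ≤ -B
    · refine ⟨1, by simp, ?_⟩
      intro t ht
      have : B * (t - 1) ≤ 0 := mul_nonpos_of_nonneg_of_nonpos hB (by linarith [ht.2])
      rw [abs_of_nonpos this, abs_of_nonpos (by nlinarith [ht.2])]
      nlinarith
    push Not at h1 h2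
    have hB0 : 0 < B := by
      by_contra h
      have : B = 0 := le_antisymm (not_lt.mp h) hB
      subst this
      simp at h1 h2
      linarith
    refine ⟨-c / B, ⟨?_, ?_⟩, ?_⟩
    · rw [le_div_iff₀ hB0]; linarith
    · rw [div_le_iff₀ hB0]; linarith
    · intro t _
      apply le_of_eq
      congr 1
      field_simp
      ring
  have hker : ∀ t ∈ Icc (-1:ℝ) 1, ker γ (B * t + c) ≤ ker γ (B * (t - t1)) :=
    fun t ht => ker_anti hγ.le (hle t ht)
  have hc1 : Continuous (fun t => ker γ (B * t + c)) := (ker_continuous γ).comp (by fun_prop)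
  have hc2 : Continuous (fun t => ker γ (B * (t - t1))) := (ker_continuous γ).comp (by fun_prop)
  have hc3 : Continuous (fun t => ker γ (B * t)) := (ker_continuous γ).comp (by fun_prop)
  have step1 : ∫ t in (-1:ℝ)..1, ker γ (B * t + c) ≤ ∫ t in (-1:ℝ)..1, ker γ (B * (t - t1)) :=
    intervalIntegral.integral_mono_on (by norm_num) (hc1.intervalIntegrable _ _)
      (hc2.intervalIntegrable _ _) hker
  have step2 : ∫ t in (-1:ℝ)..1, ker γ (B * (t - t1)) =
      (∫ t in (-1:ℝ)..t1, ker γ (B * (t - t1))) + ∫ t in t1..1, ker γ (B * (t - t1)) :=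
    (intervalIntegral.integral_add_adjacent_intervals (hc2.intervalIntegrable _ _)
      (hc2.intervalIntegrable _ _)).symm
  have step3 : ∫ t in t1..1, ker γ (B * (t - t1)) = ∫ s in (0:ℝ)..(1 - t1), ker γ (B * s) := by
    rw [intervalIntegral.integral_comp_sub_right (fun t => ker γ (B * t)) t1, sub_self]
  have step4 : ∫ t in (-1:ℝ)..t1, ker γ (B * (t - t1)) = ∫ s in (0:ℝ)..(1 + t1), ker γ (B * s) := by
    rw [intervalIntegral.integral_comp_sub_right (fun t => ker γ (B * t)) t1, sub_self]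
    have h1 : (∫ t in (-1 - t1)..(0:ℝ), ker γ (B * t)) = ∫ t in (-1 - t1)..(0:ℝ), ker γ (B * (-t)) := by
      congr 1; ext t; unfold ker; rw [mul_neg, abs_neg]
    rw [h1, intervalIntegral.integral_comp_neg (fun t => ker γ (B * t))]
    congr 1 <;> ring
  have hmono : ∀ X, 0 ≤ X → X ≤ 2 → ∫ s in (0:ℝ)..X, ker γ (B * s) ≤ ∫ s in (0:ℝ)..2, ker γ (B * s) := by
    intro X h0 h2
    apply intervalIntegral.integral_mono_interval le_rfl h0 h2
    · exact Filter.Eventually.of_forall fun s => (ker_pos γ _).le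
    · exact hc3.intervalIntegrable _ _
  have hhalf := int_half hγ hγ1 hB (X := 2) (by norm_num)
  have hk : ker γ (B * 2) ≤ ker γ B := by
    apply ker_anti hγ.le
    rw [abs_mul, abs_two]
    nlinarith [abs_nonneg B]
  have h1g : 0 < 1 - γ := by linarith
  have hfin : ∫ s in (0:ℝ)..2, ker γ (B * s) ≤ 2 / (1 - γ) * ker γ B := by
    rw [div_mul_eq_mul_div, le_div_iff₀ h1g]
    nlinarith
  have ha := hmono (1 - t1) (by linarith [ht1.2]) (by linarith [ht1.1])
  have hb := hmono (1 + t1) (by linarith [ht1.1]) (by linarith [ht1.2])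
  calc ∫ t in (-1:ℝ)..1, ker γ (B * t + c) ≤ 2 * (2 / (1 - γ) * ker γ B) := by
        rw [step2, step3, step4] at step1
        linarith
    _ = 4 / (1 - γ) * ker γ B := by ring

variable {E : Type*} [NormedAddCommGroup E] [InnerProductSpace ℝ E]

/-- averages of the kernel along segments of a Euclidean space -/
theorem int_segment {γ : ℝ} (hγ : 0 < γ) (hγ1 : γ < 1) (a b a' : E) {Λ : ℝ} (hΛ : 0 ≤ Λ)
    (h : ‖a' - a‖ ≤ Λ * ‖b‖) :
    ∫ τ in (0:ℝ)..1, ker γ ‖a + τ • b‖ ≤ 8 * (Λ + 1) / (1 - γ) * ker γ ‖a'‖ := by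
  have h1g : 0 < 1 - γ := by linarith
  have hcont : Continuous (fun τ : ℝ => ker γ ‖a + τ • b‖) := (ker_continuous γ).comp (by fun_prop)
  have hL : 1 ≤ 2 * (Λ + 1) := by linarith
  by_cases hcase : ‖a'‖ ≤ 2 * (Λ + 1) * ‖b‖
  · -- long segment
    by_cases hb : b = 0
    · subst hb
      simp only [norm_zero, mul_zero] at hcase h
      have ha' : ‖a'‖ = 0 := le_antisymm hcase (norm_nonneg _)
      have h0 : ker γ ‖a'‖ = 1 := by rw [ha']; simp [ker]
      rw [h0, mul_one]
      have h2 : ∫ τ in (0:ℝ)..1, ker γ ‖a + τ • (0:E)‖ ≤ ∫ τ in (0:ℝ)..1, (1:ℝ) :=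
        intervalIntegral.integral_mono_on (by norm_num) (hcont.intervalIntegrable _ _)
          (continuous_const.intervalIntegrable _ _) (fun τ _ => ker_le_one hγ.le _)
      refine h2.trans ?_
      simp only [intervalIntegral.integral_const, sub_zero, smul_eq_mul, mul_one]
      rw [le_div_iff₀ h1g]; nlinarith
    have hb0 : 0 < ‖b‖ := norm_pos_iff.mpr hb
    set c : ℝ := inner ℝ a b / ‖b‖ with hc
    have hlow : ∀ τ : ℝ, |‖b‖ * τ + c| ≤ ‖a + τ • b‖ := by
      intro τ
      have h3 : inner ℝ (a + τ • b) b = ‖b‖ * (‖b‖ * τ + c) := by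
        rw [inner_add_left, inner_smul_left, real_inner_self_eq_norm_sq, hc]
        simp only [conj_trivial]
        field_simp
        ring
      have h4 := abs_real_inner_le_norm (a + τ • b) b
      rw [h3, abs_mul, abs_of_pos hb0, mul_comm] at h4
      exact le_of_mul_le_mul_right h4 hb0
    have hc1 : Continuous (fun t => ker γ (‖b‖ * t + c)) := (ker_continuous γ).comp (by fun_prop)
    have h5 : ∫ τ in (0:ℝ)..1, ker γ ‖a + τ • b‖ ≤ ∫ τ in (0:ℝ)..1, ker γ (‖b‖ * τ + c) :=
      intervalIntegral.integral_mono_on (by norm_num) (hcont.intervalIntegrable _ _)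
        (hc1.intervalIntegrable _ _) (fun τ _ => ker_anti hγ.le (by
          rw [abs_of_nonneg (norm_nonneg _)]; exact hlow τ))
    have h6 : ∫ τ in (0:ℝ)..1, ker γ (‖b‖ * τ + c) ≤ ∫ τ in (-1:ℝ)..1, ker γ (‖b‖ * τ + c) := by
      apply intervalIntegral.integral_mono_interval (by norm_num) (by norm_num) le_rfl
      · exact Filter.Eventually.of_forall fun s => (ker_pos γ _).le
      · exact hc1.intervalIntegrable _ _
    have h7 := int_affine hγ hγ1 hb0.le c
    have h8 : ker γ ‖b‖ ≤ 2 * (Λ + 1) * ker γ ‖a'‖ := by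
      apply ker_le_mul hγ.le hγ1.le hL
      rw [abs_of_nonneg (norm_nonneg _), abs_of_nonneg (norm_nonneg _)]
      exact hcase
    calc ∫ τ in (0:ℝ)..1, ker γ ‖a + τ • b‖ ≤ 4 / (1 - γ) * ker γ ‖b‖ := h5.trans (h6.trans h7)
      _ ≤ 4 / (1 - γ) * (2 * (Λ + 1) * ker γ ‖a'‖) := by
          apply mul_le_mul_of_nonneg_left h8; positivity
      _ = 8 * (Λ + 1) / (1 - γ) * ker γ ‖a'‖ := by ring
  · push Not at hcase
    have hpt : ∀ τ ∈ Icc (0:ℝ) 1, ker γ ‖a + τ • b‖ ≤ 2 * ker γ ‖a'‖ := by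
      intro τ hτ
      apply ker_le_mul hγ.le hγ1.le (by norm_num)
      rw [abs_of_nonneg (norm_nonneg _), abs_of_nonneg (norm_nonneg _)]
      have h3 : ‖a'‖ ≤ ‖a + τ • b‖ + (‖a' - a‖ + ‖b‖) := by
        have h4 : a' = (a + τ • b) + ((a' - a) - τ • b) := by abel
        calc ‖a'‖ = ‖(a + τ • b) + ((a' - a) - τ • b)‖ := by rw [← h4]
          _ ≤ ‖a + τ • b‖ + (‖a' - a‖ + ‖τ • b‖) :=
            (norm_add_le _ _).trans (by gcongr; exact norm_sub_le _ _)
          _ ≤ ‖a + τ • b‖ + (‖a' - a‖ + ‖b‖) := by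
            gcongr
            rw [norm_smul, Real.norm_eq_abs, abs_of_nonneg hτ.1]
            exact mul_le_of_le_one_left (norm_nonneg _) hτ.2
      nlinarith
    have h2 : ∫ τ in (0:ℝ)..1, ker γ ‖a + τ • b‖ ≤ ∫ τ in (0:ℝ)..1, (2 * ker γ ‖a'‖) :=
      intervalIntegral.integral_mono_on (by norm_num) (hcont.intervalIntegrable _ _)
        (continuous_const.intervalIntegrable _ _) hpt
    simp only [intervalIntegral.integral_const, sub_zero, smul_eq_mul, one_mul] at h2
    refine h2.trans ?_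
    have hk := ker_pos γ ‖a'‖
    apply mul_le_mul_of_nonneg_right _ hk.le
    rw [le_div_iff₀ h1g]; nlinarith

end

end Pool.Agent.H86.QC
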