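import Mathlib
import Pool.Agent.H86.QC.Kernel

/-!
Integrals over the cube `[-1,1]^(n+1)` of functions of a linear form.
-/

namespace Pool.Agent.H86.QC

open MeasureTheory Set

noncomputable section

/-- the cube -/
def Cube (n : ℕ) : Set (Fin n → ℝ) := Icc (fun _ => -1) (fun _ => 1)

theorem Cube_compact (n : ℕ) : IsCompact (Cube n) := isCompact_Icc

theorem Cube_meas (n : ℕ) : MeasurableSet (Cube n) := measurableSet_Icc

theorem Cube_abs {n : ℕ} {v : Fin n → ℝ} (hv : v ∈ Cube n) (i : Fin n) : |v i| ≤ 1 :=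
  abs_le.mpr ⟨hv.1 i, hv.2 i⟩

theorem Cube_vol (n : ℕ) : volume.real (Cube n) = 2 ^ n := by
  unfold Cube Measure.real
  rw [Real.volume_Icc_pi]
  simp
  norm_num

/-- slicing the cube in the direction of one coordinate -/
theorem cube_slice {n : ℕ} (h : ℝ → ℝ) (hh : Continuous h) (a : Fin (n + 1) → ℝ) (i : Fin (n + 1)) :
    ∫ v in Cube (n + 1), h (∑ j, a j * v j) =
      ∫ w in Cube n, ∫ t in Icc (-1:ℝ) 1, h (a i * t + ∑ j, a (i.succAbove j) * w j) := by
  set e : ℝ × (Fin n → ℝ) ≃ᵐ (Fin (n + 1) → ℝ) := (MeasurableEquiv.piFinSuccAbove (fun _ => ℝ) i).symm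
    with he
  have hem : MeasurePreserving e :=
    (volume_preserving_piFinSuccAbove (fun _ : Fin (n + 1) => ℝ) i).symm _
  have heπ : (e ⁻¹' Cube (n + 1)) = Icc (-1:ℝ) 1 ×ˢ Cube n :=
    ((Fin.insertNthOrderIso (fun _ => ℝ) i).preimage_Icc _ _).trans (Icc_prod_eq _ _)
  have hcont : Continuous fun z : ℝ × (Fin n → ℝ) =>
      h (a i * z.1 + ∑ j, a (i.succAbove j) * z.2 j) := by
    apply hh.comp; fun_prop
  rw [← hem.map_eq, setIntegral_map_equiv, heπ, Measure.volume_eq_prod]
  have h1 : ∀ z : ℝ × (Fin n → ℝ), h (∑ j, a j * e z j) =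
      h (a i * z.1 + ∑ j, a (i.succAbove j) * z.2 j) := by
    intro z
    rw [Fin.sum_univ_succAbove _ i]
    simp [he, MeasurableEquiv.piFinSuccAbove_symm_apply, Fin.insertNthEquiv]
  simp only [h1]
  rw [← Measure.prod_restrict]
  have hint : Integrable (fun z : ℝ × (Fin n → ℝ) => h (a i * z.1 + ∑ j, a (i.succAbove j) * z.2 j))
      ((volume.restrict (Icc (-1:ℝ) 1)).prod (volume.restrict (Cube n))) := by
    rw [Measure.prod_restrict]
    exact hcont.continuousOn.integrableOn_compact (isCompact_Icc.prod (Cube_compact n))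
  rw [integral_prod_symm _ hint]

/-- an upper bound for the slices gives an upper bound for the integral -/
theorem cube_le {n : ℕ} (h : ℝ → ℝ) (hh : Continuous h) (a : Fin (n + 1) → ℝ) (i : Fin (n + 1))
    (M : ℝ) (hM : ∀ c : ℝ, ∫ t in (-1:ℝ)..1, h (a i * t + c) ≤ M) :
    ∫ v in Cube (n + 1), h (∑ j, a j * v j) ≤ 2 ^ n * M := by
  rw [cube_slice h hh a i]
  have hc : Continuous fun w : Fin n → ℝ => ∫ t in (-1:ℝ)..1, h (a i * t + ∑ j, a (i.succAbove j) * w j) := by
    apply intervalIntegral.continuous_parametric_intervalIntegral_of_continuous' (by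
      apply hh.comp; fun_prop)
  have hswap : ∀ w : Fin n → ℝ, ∫ t in Icc (-1:ℝ) 1, h (a i * t + ∑ j, a (i.succAbove j) * w j) =
      ∫ t in (-1:ℝ)..1, h (a i * t + ∑ j, a (i.succAbove j) * w j) := by
    intro w
    rw [intervalIntegral.integral_of_le (by norm_num), integral_Icc_eq_integral_Ioc]
  simp only [hswap]
  calc ∫ w in Cube n, ∫ t in (-1:ℝ)..1, h (a i * t + ∑ j, a (i.succAbove j) * w j)
      ≤ ∫ w in Cube n, M := by
        apply setIntegral_mono_on (hc.continuousOn.integrableOn_compact (Cube_compact n))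
          (continuous_const.continuousOn.integrableOn_compact (Cube_compact n)) (Cube_meas n)
        intro w _; exact hM _
    _ = 2 ^ n * M := by
        rw [setIntegral_const, Cube_vol, smul_eq_mul]

/-- a lower bound for the slices gives a lower bound for the integral -/
theorem cube_ge {n : ℕ} (h : ℝ → ℝ) (hh : Continuous h) (a : Fin (n + 1) → ℝ) (i : Fin (n + 1))
    (M : ℝ) (hM : ∀ c : ℝ, M ≤ ∫ t in (-1:ℝ)..1, h (a i * t + c)) :
    2 ^ n * M ≤ ∫ v in Cube (n + 1), h (∑ j, a j * v j) := by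
  have := cube_le (fun t => - h t) hh.neg a i (-M) (by
    intro c
    rw [intervalIntegral.integral_neg]
    linarith [hM c])
  rw [integral_neg] at this
  linarith

end

end Pool.Agent.H86.QC
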