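import Mathlib
import Pool.Agent.H86.QC.Cube

/-!
Weights on hyperplanes built from the kernel, and the vector field they generate.
-/

namespace Pool.Agent.H86.QC

open MeasureTheory Set

noncomputable section

/-- Euclidean space of dimension `n+1` -/
abbrev V (n : ℕ) := EuclideanSpace ℝ (Fin (n + 1))

variable {n : ℕ}

/-- the direction attached to a point of the cube -/
def dir (v : Fin (n + 1) → ℝ) : V n := WithLp.toLp 2 v

/-- the pairing -/
def lin (p : V n) (v : Fin (n + 1) → ℝ) : ℝ := ∑ j, p j * v j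

theorem inner_dir (p : V n) (v : Fin (n + 1) → ℝ) : inner ℝ p (dir v) = lin p v := by
  rw [PiLp.inner_apply]
  unfold lin dir
  apply Finset.sum_congr rfl
  intro j _
  simp [mul_comm]

theorem dir_continuous : Continuous (dir : (Fin (n + 1) → ℝ) → V n) :=
  PiLp.continuous_toLp 2 _

theorem lin_continuous : Continuous fun q : V n × (Fin (n + 1) → ℝ) => lin q.1 q.2 := by
  unfold lin
  fun_prop

theorem lin_sub (p q : V n) (v : Fin (n + 1) → ℝ) : lin (p - q) v = lin p v - lin q v := by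
  rw [← inner_dir, ← inner_dir, ← inner_dir, inner_sub_left]

theorem lin_add (p q : V n) (v : Fin (n + 1) → ℝ) : lin (p + q) v = lin p v + lin q v := by
  rw [← inner_dir, ← inner_dir, ← inner_dir, inner_add_left]

theorem lin_smul (c : ℝ) (p : V n) (v : Fin (n + 1) → ℝ) : lin (c • p) v = c * lin p v := by
  rw [← inner_dir, ← inner_dir, inner_smul_left]; simp

theorem lin_zero (v : Fin (n + 1) → ℝ) : lin (0 : V n) v = 0 := by
  rw [← inner_dir, inner_zero_left]

/-- the dimension as a real number -/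
def NN (n : ℕ) : ℝ := n + 1

theorem NN_ge_one (n : ℕ) : 1 ≤ NN n := by unfold NN; have : (0:ℝ) ≤ n := n.cast_nonneg; linarith

theorem norm_dir_le {v : Fin (n + 1) → ℝ} (hv : v ∈ Cube (n + 1)) : ‖(dir v : V n)‖ ≤ NN n := by
  have h1 : ‖(dir v : V n)‖ ^ 2 ≤ NN n ^ 2 := by
    rw [EuclideanSpace.norm_sq_eq]
    calc ∑ i, ‖(dir v : V n) i‖ ^ 2 ≤ ∑ i : Fin (n + 1), (1:ℝ) := by
          apply Finset.sum_le_sum
          intro i _
          have : ‖(dir v : V n) i‖ ≤ 1 := by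
            rw [Real.norm_eq_abs]; exact Cube_abs hv i
          exact pow_le_one₀ (norm_nonneg _) this
      _ = NN n := by simp [NN]
      _ ≤ NN n ^ 2 := by nlinarith [NN_ge_one n]
  exact le_of_sq_le_sq h1 (by linarith [NN_ge_one n])

theorem abs_lin_le (p : V n) {v : Fin (n + 1) → ℝ} (hv : v ∈ Cube (n + 1)) :
    |lin p v| ≤ NN n * ‖p‖ := by
  rw [← inner_dir, mul_comm]
  exact (abs_real_inner_le_norm _ _).trans (mul_le_mul_of_nonneg_left (norm_dir_le hv) (norm_nonneg _))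

theorem exists_coord (a : V n) : ∃ i, ‖a‖ ≤ NN n * |a i| := by
  obtain ⟨i, hi⟩ := Finite.exists_max (fun i => |a i|)
  refine ⟨i, ?_⟩
  have hN := NN_ge_one n
  have h1 : ‖a‖ ^ 2 ≤ (NN n * |a i|) ^ 2 := by
    rw [EuclideanSpace.norm_sq_eq]
    calc ∑ j, ‖a j‖ ^ 2 ≤ ∑ j : Fin (n + 1), |a i| ^ 2 := by
          apply Finset.sum_le_sum
          intro j _
          rw [Real.norm_eq_abs]
          exact pow_le_pow_left₀ (abs_nonneg _) (hi j) 2
      _ = NN n * |a i| ^ 2 := by simp [NN]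
      _ ≤ (NN n * |a i|) ^ 2 := by
        rw [mul_pow]
        apply mul_le_mul_of_nonneg_right _ (by positivity)
        nlinarith
  exact le_of_sq_le_sq h1 (by positivity)

/-- average of the kernel over directions -/
theorem int_dir {γ : ℝ} (hγ : 0 < γ) (hγ1 : γ < 1) (a : V n) :
    ∫ v in Cube (n + 1), ker γ (lin a v) ≤ 2 ^ n * (4 / (1 - γ)) * NN n * ker γ ‖a‖ := by
  obtain ⟨i, hi⟩ := exists_coord a
  have h1g : 0 < 1 - γ := by linarith
  have h1 : ∀ c : ℝ, ∫ t in (-1:ℝ)..1, ker γ (a i * t + c) ≤ 4 / (1 - γ) * ker γ |a i| := by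
    intro c
    rcases le_total 0 (a i) with h | h
    · rw [abs_of_nonneg h]; exact int_affine hγ hγ1 h c
    · rw [abs_of_nonpos h]
      have h2 : ∀ t, ker γ (a i * t + c) = ker γ (-a i * t + -c) := by
        intro t
        unfold ker
        rw [show -a i * t + -c = -(a i * t + c) by ring, abs_neg]
      simp only [h2]
      exact int_affine hγ hγ1 (by linarith) (-c)
  have h2 := cube_le (ker γ) (ker_continuous γ) (fun j => a j) i _ h1
  have h3 : ker γ |a i| ≤ NN n * ker γ ‖a‖ := by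
    apply ker_le_mul hγ.le hγ1.le (NN_ge_one n)
    rw [abs_of_nonneg (norm_nonneg _), abs_abs]
    exact hi
  calc ∫ v in Cube (n + 1), ker γ (lin a v) ≤ 2 ^ n * (4 / (1 - γ) * ker γ |a i|) := h2
    _ ≤ 2 ^ n * (4 / (1 - γ) * (NN n * ker γ ‖a‖)) := by gcongr
    _ = _ := by ring

/-- the second moment of directions -/
theorem int_sq (ξ : V n) : 2 ^ n * (2 / 3) / NN n ^ 2 * ‖ξ‖ ^ 2 ≤ ∫ v in Cube (n + 1), (lin ξ v) ^ 2 := by
  obtain ⟨i, hi⟩ := exists_coord ξ
  have hN := NN_ge_one n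
  have h1 : ∀ c : ℝ, 2 / 3 * (ξ i) ^ 2 ≤ ∫ t in (-1:ℝ)..1, (ξ i * t + c) ^ 2 := by
    intro c
    have h2 : ∫ t in (-1:ℝ)..1, (ξ i * t + c) ^ 2 = 2 / 3 * (ξ i) ^ 2 + 2 * c ^ 2 := by
      have h3 : ∀ t : ℝ, (ξ i * t + c) ^ 2 = (ξ i) ^ 2 * t ^ 2 + 2 * ξ i * c * t + c ^ 2 := by
        intro t; ring
      simp only [h3]
      rw [intervalIntegral.integral_add, intervalIntegral.integral_add,
        intervalIntegral.integral_const_mul, intervalIntegral.integral_const_mul]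
      · simp only [integral_pow, integral_id, intervalIntegral.integral_const, smul_eq_mul]
        norm_num
        ring
      · exact (by fun_prop : Continuous _).intervalIntegrable _ _
      · exact (by fun_prop : Continuous _).intervalIntegrable _ _
      · exact (by fun_prop : Continuous _).intervalIntegrable _ _
      · exact (by fun_prop : Continuous _).intervalIntegrable _ _
    rw [h2]; nlinarith [sq_nonneg c]
  have h2 := cube_ge (fun t => t ^ 2) (by fun_prop) (fun j => ξ j) i _ h1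
  refine le_trans ?_ h2
  have h3 : ‖ξ‖ ^ 2 ≤ NN n ^ 2 * (ξ i) ^ 2 := by
    have := pow_le_pow_left₀ (norm_nonneg ξ) hi 2
    rwa [mul_pow, sq_abs] at this
  have h4 : 2 ^ n * (2 / 3) / NN n ^ 2 * ‖ξ‖ ^ 2 ≤ 2 ^ n * (2 / 3) / NN n ^ 2 * (NN n ^ 2 * (ξ i) ^ 2) := by
    gcongr
  refine h4.trans (le_of_eq ?_)
  field_simp

/-- the weight on hyperplanes; an index `(k, z)` stands for the centre `z` at scale `2^(-k)` -/
def uu (γ τ : ℝ) (I : Finset (ℕ × V n)) (v : Fin (n + 1) → ℝ) (s : ℝ) : ℝ :=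
  1 + ∑ i ∈ I, (2:ℝ) ^ (τ * i.1) * ker γ (2 ^ i.1 * (lin i.2 v - s))

/-- the corresponding weight on points -/
def UU (γ τ : ℝ) (I : Finset (ℕ × V n)) (p : V n) : ℝ :=
  1 + ∑ i ∈ I, (2:ℝ) ^ (τ * i.1) * ker γ (2 ^ i.1 * ‖p - i.2‖)

variable {γ τ : ℝ} {I : Finset (ℕ × V n)}

theorem uu_ge_one (γ τ : ℝ) (I : Finset (ℕ × V n)) (v : Fin (n + 1) → ℝ) (s : ℝ) :
    1 ≤ uu γ τ I v s := by
  unfold uu
  have : 0 ≤ ∑ i ∈ I, (2:ℝ) ^ (τ * i.1) * ker γ (2 ^ i.1 * (lin i.2 v - s)) := by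
    apply Finset.sum_nonneg
    intro i _
    have := ker_pos γ (2 ^ i.1 * (lin i.2 v - s))
    positivity
  linarith

theorem UU_ge_one (γ τ : ℝ) (I : Finset (ℕ × V n)) (p : V n) : 1 ≤ UU γ τ I p := by
  unfold UU
  have : 0 ≤ ∑ i ∈ I, (2:ℝ) ^ (τ * i.1) * ker γ (2 ^ i.1 * ‖p - i.2‖) := by
    apply Finset.sum_nonneg
    intro i _
    have := ker_pos γ (2 ^ i.1 * ‖p - i.2‖)
    positivity
  linarith

theorem uu_continuous (γ τ : ℝ) (I : Finset (ℕ × V n)) :
    Continuous fun q : (Fin (n + 1) → ℝ) × ℝ => uu γ τ I q.1 q.2 := by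
  unfold uu
  apply continuous_const.add
  apply continuous_finsetSum
  intro i _
  apply continuous_const.mul
  apply (ker_continuous γ).comp
  apply continuous_const.mul
  apply Continuous.sub _ continuous_snd
  exact lin_continuous.comp (continuous_const.prodMk continuous_fst)

theorem UU_continuous (γ τ : ℝ) (I : Finset (ℕ × V n)) : Continuous (UU γ τ I) := by
  unfold UU
  apply continuous_const.add
  apply continuous_finsetSum
  intro i _
  apply continuous_const.mul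
  apply (ker_continuous γ).comp
  fun_prop

/-- the weight of every hyperplane through `p` is at least the weight of `p` -/
theorem UU_le_uu (hγ : 0 < γ) (hγ1 : γ < 1) (p : V n) {v : Fin (n + 1) → ℝ}
    (hv : v ∈ Cube (n + 1)) : UU γ τ I p ≤ NN n * uu γ τ I v (lin p v) := by
  have hN := NN_ge_one n
  unfold UU uu
  rw [mul_add, mul_one, Finset.mul_sum]
  apply add_le_add hN
  apply Finset.sum_le_sum
  intro i _
  have h1 : ker γ (2 ^ i.1 * ‖p - i.2‖) ≤ NN n * ker γ (2 ^ i.1 * (lin i.2 v - lin p v)) := by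
    apply ker_le_mul hγ.le hγ1.le hN
    rw [abs_mul, abs_mul, abs_of_nonneg (norm_nonneg _), ← lin_sub]
    have h2 := abs_lin_le (i.2 - p) hv
    rw [norm_sub_rev] at h2
    have h3 : (0:ℝ) ≤ |2 ^ i.1| := abs_nonneg _
    nlinarith
  calc (2:ℝ) ^ (τ * i.1) * ker γ (2 ^ i.1 * ‖p - i.2‖)
      ≤ (2:ℝ) ^ (τ * i.1) * (NN n * ker γ (2 ^ i.1 * (lin i.2 v - lin p v))) := by gcongr
    _ = _ := by ring

/-- average over directions of the hyperplane weight -/
theorem int_uu (hγ : 0 < γ) (hγ1 : γ < 1) (p : V n) :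
    ∫ v in Cube (n + 1), uu γ τ I v (lin p v) ≤ 2 ^ n * (4 / (1 - γ)) * NN n * UU γ τ I p := by
  have hN := NN_ge_one n
  have h1g : 0 < 1 - γ := by linarith
  unfold uu UU
  have hcomp := Cube_compact (n + 1)
  have hint : ∀ i ∈ I, Integrable (fun v => (2:ℝ) ^ (τ * i.1) * ker γ (2 ^ i.1 * (lin i.2 v - lin p v)))
      (volume.restrict (Cube (n + 1))) := by
    intro i _
    apply ContinuousOn.integrableOn_compact hcomp
    apply Continuous.continuousOn
    apply continuous_const.mul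
    apply (ker_continuous γ).comp
    apply continuous_const.mul
    exact (lin_continuous.comp (continuous_const.prodMk continuous_id)).sub
      (lin_continuous.comp (continuous_const.prodMk continuous_id))
  rw [integral_add (by
    apply ContinuousOn.integrableOn_compact hcomp
    exact continuousOn_const) (integrable_finsetSum _ hint), integral_finsetSum _ hint, mul_add,
    mul_one, Finset.mul_sum]
  apply add_le_add
  · rw [setIntegral_const, Cube_vol, smul_eq_mul, mul_one]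
    have h2 : 2 ≤ 4 / (1 - γ) := by
      rw [le_div_iff₀ h1g]; linarith
    calc (2:ℝ) ^ (n + 1) = 2 ^ n * 2 * 1 := by ring
      _ ≤ 2 ^ n * (4 / (1 - γ)) * NN n := by gcongr
  · apply Finset.sum_le_sum
    intro i _
    rw [integral_const_mul]
    have h3 : ∀ v : Fin (n + 1) → ℝ, (2:ℝ) ^ i.1 * (lin i.2 v - lin p v) = lin ((2:ℝ) ^ i.1 • (i.2 - p)) v := by
      intro v; rw [lin_smul, lin_sub]
    simp only [h3]
    have h4 := int_dir hγ hγ1 ((2:ℝ) ^ i.1 • (i.2 - p))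
    have h5 : ‖(2:ℝ) ^ i.1 • (i.2 - p)‖ = 2 ^ i.1 * ‖p - i.2‖ := by
      rw [norm_smul, Real.norm_eq_abs, abs_of_pos (by positivity), norm_sub_rev]
    rw [h5] at h4
    calc (2:ℝ) ^ (τ * i.1) * ∫ v in Cube (n + 1), ker γ (lin ((2:ℝ) ^ i.1 • (i.2 - p)) v)
        ≤ (2:ℝ) ^ (τ * i.1) * (2 ^ n * (4 / (1 - γ)) * NN n * ker γ (2 ^ i.1 * ‖p - i.2‖)) := by gcongr
      _ = _ := by ring

/-- average of the point weight along a segment -/
theorem int_UU (hγ : 0 < γ) (hγ1 : γ < 1) (x ξ p : V n) {Λ : ℝ} (hΛ : 0 ≤ Λ)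
    (h : ‖p - x‖ ≤ Λ * ‖ξ‖) :
    ∫ t in (0:ℝ)..1, UU γ τ I (x + t • ξ) ≤ 8 * (Λ + 1) / (1 - γ) * UU γ τ I p := by
  have h1g : 0 < 1 - γ := by linarith
  unfold UU
  have hcont : ∀ i : ℕ × V n, Continuous (fun t : ℝ => (2:ℝ) ^ (τ * i.1) * ker γ (2 ^ i.1 * ‖x + t • ξ - i.2‖)) := by
    intro i
    apply continuous_const.mul
    apply (ker_continuous γ).comp
    fun_prop
  rw [intervalIntegral.integral_add (continuous_const.intervalIntegrable _ _)
    ((continuous_finsetSum _ (fun i _ => hcont i)).intervalIntegrable _ _),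
    intervalIntegral.integral_finsetSum (fun i _ => (hcont i).intervalIntegrable _ _), mul_add,
    mul_one, Finset.mul_sum]
  apply add_le_add
  · simp only [intervalIntegral.integral_const, sub_zero, smul_eq_mul, mul_one]
    rw [le_div_iff₀ h1g]; nlinarith
  · apply Finset.sum_le_sum
    intro i _
    rw [intervalIntegral.integral_const_mul]
    have h3 : ∀ t : ℝ, (2:ℝ) ^ i.1 * ‖x + t • ξ - i.2‖ = ‖(2:ℝ) ^ i.1 • (x - i.2) + t • ((2:ℝ) ^ i.1 • ξ)‖ := by
      intro t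
      rw [smul_comm t, ← smul_add, norm_smul, Real.norm_eq_abs, abs_of_pos (by positivity)]
      congr 2
      abel
    simp only [h3]
    have h4 := int_segment hγ hγ1 ((2:ℝ) ^ i.1 • (x - i.2)) ((2:ℝ) ^ i.1 • ξ) ((2:ℝ) ^ i.1 • (p - i.2)) hΛ (by
      rw [← smul_sub, norm_smul, norm_smul, Real.norm_eq_abs, abs_of_pos (by positivity)]
      rw [show p - i.2 - (x - i.2) = p - x by abel]
      have : (0:ℝ) < 2 ^ i.1 := by positivity
      nlinarith)
    rw [norm_smul ((2:ℝ) ^ i.1) (p - i.2), Real.norm_eq_abs, abs_of_pos (by positivity)] at h4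
    calc (2:ℝ) ^ (τ * i.1) * ∫ t in (0:ℝ)..1, ker γ ‖(2:ℝ) ^ i.1 • (x - i.2) + t • ((2:ℝ) ^ i.1 • ξ)‖
        ≤ (2:ℝ) ^ (τ * i.1) * (8 * (Λ + 1) / (1 - γ) * ker γ (2 ^ i.1 * ‖p - i.2‖)) := by gcongr
      _ = _ := by ring

/-- tangent line inequality -/
theorem inv_pow_ge {m : ℕ} {a u : ℝ} (ha : 0 < a) (hu : 0 < u) :
    a⁻¹ ^ m * (1 + m - m * (u / a)) ≤ u⁻¹ ^ m := by
  have h1 : 1 + (m:ℝ) * (a / u)⁻¹ ≤ 1 + m * (u / a) := by rw [inv_div]
  set r := u / a with hr
  have hr0 : 0 < r := div_pos hu ha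
  have h2 : u⁻¹ = a⁻¹ * r⁻¹ := by rw [hr]; field_simp
  rw [h2, mul_pow]
  apply mul_le_mul_of_nonneg_left _ (by positivity)
  -- need `1 + m - m r ≤ r⁻¹ ^ m`
  have h3 := one_add_mul_le_pow (a := r⁻¹ - 1) (by
    have : 0 < r⁻¹ := inv_pos.mpr hr0
    linarith) m
  have h4 : r⁻¹ + r ≥ 2 := by
    have : r⁻¹ * r = 1 := inv_mul_cancel₀ hr0.ne'
    nlinarith [sq_nonneg (r - 1), sq_nonneg (r⁻¹ - 1), inv_pos.mpr hr0]
  have h5 : (1:ℝ) + (r⁻¹ - 1) = r⁻¹ := by ring
  rw [h5] at h3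
  have hm : (0:ℝ) ≤ m := m.cast_nonneg
  nlinarith

end

end Pool.Agent.H86.QC
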