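import Mathlib
import Pool.Agent.H86.QC.Weight

/-!
The monotone vector field generated by a weight on hyperplanes.
-/

namespace Pool.Agent.H86.QC

open MeasureTheory Set

noncomputable section

variable {n : ℕ}

/-- density on hyperplanes -/
def WW (γ τ : ℝ) (m : ℕ) (I : Finset (ℕ × V n)) (v : Fin (n + 1) → ℝ) (s : ℝ) : ℝ :=
  (uu γ τ I v s)⁻¹ ^ m

/-- its primitive -/
def gg (γ τ : ℝ) (m : ℕ) (I : Finset (ℕ × V n)) (v : Fin (n + 1) → ℝ) (a : ℝ) : ℝ :=
  ∫ s in (0:ℝ)..a, WW γ τ m I v s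

/-- the vector field -/
def ff (γ τ : ℝ) (m : ℕ) (I : Finset (ℕ × V n)) (x : V n) : V n :=
  ∫ v in Cube (n + 1), gg γ τ m I v (lin x v) • dir v

/-- its derivative -/
def MM (γ τ : ℝ) (m : ℕ) (I : Finset (ℕ × V n)) (p ξ : V n) : V n :=
  ∫ v in Cube (n + 1), (WW γ τ m I v (lin p v) * lin ξ v) • dir v

variable (γ τ : ℝ) (m : ℕ) (I : Finset (ℕ × V n))

theorem WW_continuous : Continuous fun q : (Fin (n + 1) → ℝ) × ℝ => WW γ τ m I q.1 q.2 := by
  unfold WW
  apply Continuous.pow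
  apply (uu_continuous γ τ I).inv₀
  intro q
  have := uu_ge_one γ τ I q.1 q.2
  linarith

theorem WW_cont {X : Type*} [TopologicalSpace X] {f : X → (Fin (n + 1) → ℝ)} {g : X → ℝ}
    (hf : Continuous f) (hg : Continuous g) : Continuous fun x => WW γ τ m I (f x) (g x) := by
  have h1 : Continuous fun x => (f x, g x) := hf.prodMk hg
  have h2 := Continuous.comp (WW_continuous γ τ m I) h1
  exact h2

theorem uu_cont {X : Type*} [TopologicalSpace X] {f : X → (Fin (n + 1) → ℝ)} {g : X → ℝ}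
    (hf : Continuous f) (hg : Continuous g) : Continuous fun x => uu γ τ I (f x) (g x) := by
  have h1 : Continuous fun x => (f x, g x) := hf.prodMk hg
  have h2 := Continuous.comp (uu_continuous γ τ I) h1
  exact h2

theorem lin_cont {X : Type*} [TopologicalSpace X] {f : X → V n} {g : X → (Fin (n + 1) → ℝ)}
    (hf : Continuous f) (hg : Continuous g) : Continuous fun x => lin (f x) (g x) := by
  have h1 : Continuous fun x => (f x, g x) := hf.prodMk hg
  have h2 := Continuous.comp lin_continuous h1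
  exact h2

theorem WW_pos (v : Fin (n + 1) → ℝ) (s : ℝ) : 0 < WW γ τ m I v s := by
  unfold WW
  have := uu_ge_one γ τ I v s
  have : 0 < uu γ τ I v s := by linarith
  positivity

theorem WW_le_one (v : Fin (n + 1) → ℝ) (s : ℝ) : WW γ τ m I v s ≤ 1 := by
  unfold WW
  have h := uu_ge_one γ τ I v s
  exact pow_le_one₀ (inv_nonneg.mpr (by linarith)) (inv_le_one_of_one_le₀ h)

theorem gg_continuous : Continuous fun q : (Fin (n + 1) → ℝ) × ℝ => gg γ τ m I q.1 q.2 := by
  unfold gg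
  have h1 : Continuous (Function.uncurry fun (q : (Fin (n + 1) → ℝ) × ℝ) (t : ℝ) => WW γ τ m I q.1 t) :=
    WW_cont γ τ m I (continuous_fst.comp continuous_fst) continuous_snd
  exact intervalIntegral.continuous_parametric_intervalIntegral_of_continuous h1 continuous_snd

theorem gg_cont {X : Type*} [TopologicalSpace X] {f : X → (Fin (n + 1) → ℝ)} {g : X → ℝ}
    (hf : Continuous f) (hg : Continuous g) : Continuous fun x => gg γ τ m I (f x) (g x) := by
  have h1 : Continuous fun x => (f x, g x) := hf.prodMk hg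
  have h2 := Continuous.comp (gg_continuous γ τ m I) h1
  exact h2

theorem gg_deriv (v : Fin (n + 1) → ℝ) (a : ℝ) :
    HasDerivAt (fun a => gg γ τ m I v a) (WW γ τ m I v a) a := by
  unfold gg
  have hc : Continuous (WW γ τ m I v) := WW_cont γ τ m I continuous_const continuous_id
  exact intervalIntegral.integral_hasDerivAt_right (hc.intervalIntegrable _ _)
    (hc.stronglyMeasurableAtFilter _ _) hc.continuousAt

theorem gg_sub_le (v : Fin (n + 1) → ℝ) (a b C : ℝ)
    (h : ∀ s ∈ Set.uIoc b a, WW γ τ m I v s ≤ C) :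
    |gg γ τ m I v a - gg γ τ m I v b| ≤ C * |a - b| := by
  unfold gg
  have hc : Continuous (WW γ τ m I v) := WW_cont γ τ m I continuous_const continuous_id
  rw [intervalIntegral.integral_interval_sub_left (hc.intervalIntegrable _ _)
    (hc.intervalIntegrable _ _)]
  rw [← Real.norm_eq_abs, ← Real.norm_eq_abs, Real.norm_eq_abs (a - b)]
  apply intervalIntegral.norm_integral_le_of_norm_le_const
  intro s hs
  rw [Real.norm_eq_abs, abs_of_pos (WW_pos γ τ m I v s)]
  exact h s hs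

theorem integrand_continuous (x : V n) :
    Continuous fun v : Fin (n + 1) → ℝ => gg γ τ m I v (lin x v) • (dir v : V n) :=
  (gg_cont γ τ m I continuous_id (lin_cont continuous_const continuous_id)).smul dir_continuous

theorem integrand'_continuous (p ξ : V n) :
    Continuous fun v : Fin (n + 1) → ℝ => (WW γ τ m I v (lin p v) * lin ξ v) • (dir v : V n) :=
  ((WW_cont γ τ m I continuous_id (lin_cont continuous_const continuous_id)).mul
    (lin_cont continuous_const continuous_id)).smul dir_continuous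

theorem ff_deriv (x ξ : V n) (t₀ : ℝ) :
    HasDerivAt (fun t : ℝ => ff γ τ m I (x + t • ξ)) (MM γ τ m I (x + t₀ • ξ) ξ) t₀ := by
  have hcomp := Cube_compact (n + 1)
  have hN := NN_ge_one n
  have key := hasDerivAt_integral_of_dominated_loc_of_deriv_le (𝕜 := ℝ)
    (μ := volume.restrict (Cube (n + 1)))
    (F := fun (t : ℝ) v => gg γ τ m I v (lin (x + t • ξ) v) • (dir v : V n))
    (F' := fun (t : ℝ) v => (WW γ τ m I v (lin (x + t • ξ) v) * lin ξ v) • (dir v : V n))
    (bound := fun _ => NN n * ‖ξ‖ * NN n) (x₀ := t₀) (s := Set.univ) Filter.univ_mem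
    (Filter.Eventually.of_forall fun t => (integrand_continuous γ τ m I _).aestronglyMeasurable)
    ((integrand_continuous γ τ m I _).continuousOn.integrableOn_compact hcomp)
    ((integrand'_continuous γ τ m I _ _).aestronglyMeasurable)
    (by
      refine (ae_restrict_iff' (Cube_meas _)).mpr (Filter.Eventually.of_forall ?_)
      intro v hv t _
      rw [norm_smul, norm_mul, Real.norm_eq_abs, Real.norm_eq_abs, abs_of_pos (WW_pos γ τ m I _ _)]
      have h1 := WW_le_one γ τ m I v (lin (x + t • ξ) v)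
      have h2 := abs_lin_le ξ hv
      have h3 := norm_dir_le (n := n) hv
      have h4 := WW_pos γ τ m I v (lin (x + t • ξ) v)
      calc WW γ τ m I v (lin (x + t • ξ) v) * |lin ξ v| * ‖(dir v : V n)‖
          ≤ 1 * (NN n * ‖ξ‖) * NN n := by gcongr
        _ = _ := by ring)
    (continuousOn_const.integrableOn_compact hcomp)
    (by
      refine Filter.Eventually.of_forall ?_
      intro v t _
      have h1 : HasDerivAt (fun t : ℝ => lin (x + t • ξ) v) (lin ξ v) t := by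
        have h2 : (fun t : ℝ => lin (x + t • ξ) v) = fun t => lin x v + t * lin ξ v := by
          ext t; rw [lin_add, lin_smul]
        rw [h2]
        simpa using ((hasDerivAt_id t).mul_const (lin ξ v)).const_add (lin x v)
      exact ((gg_deriv γ τ m I v _).comp t h1).smul_const _)
  exact key.2

theorem MM_continuous (x ξ : V n) : Continuous fun t : ℝ => MM γ τ m I (x + t • ξ) ξ := by
  unfold MM
  have hcomp := Cube_compact (n + 1)
  apply continuous_parametric_integral_of_continuous (μ := volume) _ hcomp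
  have h1 : Continuous fun q : ℝ × (Fin (n + 1) → ℝ) => lin (x + q.1 • ξ) q.2 :=
    lin_cont (by fun_prop) continuous_snd
  exact ((WW_cont γ τ m I continuous_snd h1).mul (lin_cont continuous_const continuous_snd)).smul
    (dir_continuous.comp continuous_snd)

variable {γ τ m I}

/-- upper bound for the derivative -/
theorem MM_le (hγ : 0 < γ) (hγ1 : γ < 1) (p ξ : V n) :
    ‖MM γ τ m I p ξ‖ ≤ 2 ^ (n + 1) * NN n ^ 2 * NN n ^ m * ((UU γ τ I p)⁻¹ ^ m * ‖ξ‖) := by
  have hN := NN_ge_one n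
  have hU := UU_ge_one γ τ I p
  have hU0 : 0 < UU γ τ I p := by linarith
  have h1 : ∀ v ∈ Cube (n + 1), ‖(WW γ τ m I v (lin p v) * lin ξ v) • (dir v : V n)‖ ≤
      (NN n * (UU γ τ I p)⁻¹) ^ m * (NN n * ‖ξ‖) * NN n := by
    intro v hv
    rw [norm_smul, norm_mul, Real.norm_eq_abs, Real.norm_eq_abs, abs_of_pos (WW_pos γ τ m I _ _)]
    have h2 := abs_lin_le ξ hv
    have h3 := norm_dir_le (n := n) hv
    have h4 : WW γ τ m I v (lin p v) ≤ (NN n * (UU γ τ I p)⁻¹) ^ m := by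
      unfold WW
      have hu := uu_ge_one γ τ I v (lin p v)
      have hu0 : 0 < uu γ τ I v (lin p v) := by linarith
      apply pow_le_pow_left₀ (inv_nonneg.mpr hu0.le)
      have h5 := UU_le_uu (τ := τ) (I := I) hγ hγ1 p hv
      rw [inv_le_iff_one_le_mul₀ hu0, mul_assoc]
      rw [← div_eq_inv_mul, ← mul_div_assoc, le_div_iff₀ hU0, one_mul]
      exact h5
    gcongr
  have h2 := norm_setIntegral_le_of_norm_le_const (μ := volume) (s := Cube (n + 1))
    (Cube_compact _).measure_lt_top h1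
  rw [Cube_vol] at h2
  unfold MM
  refine h2.trans (le_of_eq ?_)
  rw [mul_pow]
  ring

/-- lower bound for the derivative -/
theorem MM_ge (hγ : 0 < γ) (hγ1 : γ < 1) : ∃ c > 0, ∀ (I : Finset (ℕ × V n)) (p ξ : V n),
    c * ((UU γ τ I p)⁻¹ ^ m * ‖ξ‖ ^ 2) ≤ inner ℝ (MM γ τ m I p ξ) ξ := by
  have hN := NN_ge_one n
  have h1g : 0 < 1 - γ := by linarith
  set cβ : ℝ := 2 ^ n * (2 / 3) / NN n ^ 2 with hcβ
  have hcβ0 : 0 < cβ := by positivity
  set C2 : ℝ := 2 ^ n * (4 / (1 - γ)) * NN n with hC2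
  have hC20 : 0 < C2 := by positivity
  set κ : ℝ := NN n ^ 2 * C2 / cβ with hκ
  have hκ0 : 0 < κ := by positivity
  refine ⟨κ⁻¹ ^ m * cβ, by positivity, ?_⟩
  intro I p ξ
  have hU := UU_ge_one γ τ I p
  have hU0 : 0 < UU γ τ I p := by linarith
  have hcomp := Cube_compact (n + 1)
  have hclin : Continuous fun v : Fin (n + 1) → ℝ => lin ξ v := lin_cont continuous_const continuous_id
  have hcu : Continuous fun v : Fin (n + 1) → ℝ => uu γ τ I v (lin p v) :=
    uu_cont γ τ I continuous_id (lin_cont continuous_const continuous_id)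
  have hcW : Continuous fun v : Fin (n + 1) → ℝ => WW γ τ m I v (lin p v) :=
    WW_cont γ τ m I continuous_id (lin_cont continuous_const continuous_id)
  have hinner : inner ℝ (MM γ τ m I p ξ) ξ = ∫ v in Cube (n + 1), WW γ τ m I v (lin p v) * (lin ξ v) ^ 2 := by
    unfold MM
    rw [real_inner_comm, ← integral_inner]
    · congr 1
      ext v
      rw [inner_smul_right, inner_dir]; ring
    · exact (integrand'_continuous γ τ m I p ξ).continuousOn.integrableOn_compact hcomp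
  rw [hinner]
  set a : ℝ := κ * UU γ τ I p with ha
  have ha0 : 0 < a := by positivity
  -- pointwise tangent line bound
  have hpt : ∀ v ∈ Cube (n + 1), a⁻¹ ^ m * (1 + m) * (lin ξ v) ^ 2 - a⁻¹ ^ m * (m / a) * (NN n ^ 2 * ‖ξ‖ ^ 2) * uu γ τ I v (lin p v) ≤
      WW γ τ m I v (lin p v) * (lin ξ v) ^ 2 := by
    intro v hv
    have hu := uu_ge_one γ τ I v (lin p v)
    have hu0 : 0 < uu γ τ I v (lin p v) := by linarith
    have h1 := inv_pow_ge (m := m) ha0 hu0
    have h2 : (lin ξ v) ^ 2 ≤ NN n ^ 2 * ‖ξ‖ ^ 2 := by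
      rw [← mul_pow, ← sq_abs (lin ξ v)]
      exact pow_le_pow_left₀ (abs_nonneg _) (abs_lin_le ξ hv) 2
    have h3 : 0 ≤ (lin ξ v) ^ 2 := sq_nonneg _
    have h4 := mul_le_mul_of_nonneg_right h1 h3
    unfold WW
    refine le_trans ?_ h4
    have h5 : a⁻¹ ^ m * (m / a) * uu γ τ I v (lin p v) * (lin ξ v) ^ 2 ≤
        a⁻¹ ^ m * (m / a) * uu γ τ I v (lin p v) * (NN n ^ 2 * ‖ξ‖ ^ 2) := by
      gcongr
    have h6 : a⁻¹ ^ m * (1 + m - m * (uu γ τ I v (lin p v) / a)) * (lin ξ v) ^ 2 =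
        a⁻¹ ^ m * (1 + m) * (lin ξ v) ^ 2 - a⁻¹ ^ m * (m / a) * uu γ τ I v (lin p v) * (lin ξ v) ^ 2 := by
      ring
    rw [h6]
    linarith
  have hint1 : IntegrableOn (fun v => a⁻¹ ^ m * (1 + m) * (lin ξ v) ^ 2) (Cube (n + 1)) volume :=
    (continuous_const.mul (hclin.pow 2)).continuousOn.integrableOn_compact hcomp
  have hint2 : IntegrableOn (fun v => a⁻¹ ^ m * (m / a) * (NN n ^ 2 * ‖ξ‖ ^ 2) * uu γ τ I v (lin p v))
      (Cube (n + 1)) volume :=
    (continuous_const.mul hcu).continuousOn.integrableOn_compact hcomp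
  have hint3 : IntegrableOn (fun v => WW γ τ m I v (lin p v) * (lin ξ v) ^ 2) (Cube (n + 1)) volume :=
    (hcW.mul (hclin.pow 2)).continuousOn.integrableOn_compact hcomp
  have hmono := setIntegral_mono_on (hint1.sub hint2) hint3 (Cube_meas _) hpt
  refine le_trans ?_ hmono
  have hsub : ∫ v in Cube (n + 1), (a⁻¹ ^ m * (1 + m) * (lin ξ v) ^ 2 - a⁻¹ ^ m * (m / a) * (NN n ^ 2 * ‖ξ‖ ^ 2) * uu γ τ I v (lin p v)) =
      a⁻¹ ^ m * (1 + m) * (∫ v in Cube (n + 1), (lin ξ v) ^ 2) -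
      a⁻¹ ^ m * (m / a) * (NN n ^ 2 * ‖ξ‖ ^ 2) * ∫ v in Cube (n + 1), uu γ τ I v (lin p v) := by
    rw [integral_sub hint1 hint2, integral_const_mul, integral_const_mul]
  have hgoal : κ⁻¹ ^ m * cβ * ((UU γ τ I p)⁻¹ ^ m * ‖ξ‖ ^ 2) = a⁻¹ ^ m * (cβ * ‖ξ‖ ^ 2) := by
    rw [ha, mul_inv, mul_pow]; ring
  rw [hgoal]
  have hI1 := int_sq ξ
  have hI2 := int_uu (τ := τ) (I := I) hγ hγ1 p
  rw [← hcβ] at hI1
  rw [← hC2] at hI2
  have hm : (0:ℝ) ≤ m := m.cast_nonneg
  have h7 : a⁻¹ ^ m * (m / a) * (NN n ^ 2 * ‖ξ‖ ^ 2) * ∫ v in Cube (n + 1), uu γ τ I v (lin p v) ≤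
      a⁻¹ ^ m * (m * (cβ * ‖ξ‖ ^ 2)) := by
    calc a⁻¹ ^ m * (m / a) * (NN n ^ 2 * ‖ξ‖ ^ 2) * ∫ v in Cube (n + 1), uu γ τ I v (lin p v)
        ≤ a⁻¹ ^ m * (m / a) * (NN n ^ 2 * ‖ξ‖ ^ 2) * (C2 * UU γ τ I p) := by gcongr
      _ = a⁻¹ ^ m * (m * (cβ * ‖ξ‖ ^ 2)) := by
          rw [ha, hκ]
          field_simp
  have h8 : a⁻¹ ^ m * ((1 + m) * (cβ * ‖ξ‖ ^ 2)) ≤ a⁻¹ ^ m * (1 + m) * (∫ v in Cube (n + 1), (lin ξ v) ^ 2) := by
    rw [mul_assoc]
    gcongr
  have h9 : a⁻¹ ^ m * ((1 + m) * (cβ * ‖ξ‖ ^ 2)) - a⁻¹ ^ m * (m * (cβ * ‖ξ‖ ^ 2)) = a⁻¹ ^ m * (cβ * ‖ξ‖ ^ 2) := by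
    ring
  have hfin : a⁻¹ ^ m * (cβ * ‖ξ‖ ^ 2) ≤ a⁻¹ ^ m * (1 + m) * (∫ v in Cube (n + 1), (lin ξ v) ^ 2) -
      a⁻¹ ^ m * (m / a) * (NN n ^ 2 * ‖ξ‖ ^ 2) * ∫ v in Cube (n + 1), uu γ τ I v (lin p v) := by
    linarith
  exact hfin.trans (le_of_eq hsub.symm)

variable (γ τ m I)

/-- increments of the field -/
theorem ff_sub_le (x y : V n) (C : ℝ) (hC : 0 ≤ C)
    (h : ∀ v ∈ Cube (n + 1), ∀ s ∈ Set.uIoc (lin y v) (lin x v), WW γ τ m I v s ≤ C) :
    ‖ff γ τ m I x - ff γ τ m I y‖ ≤ 2 ^ (n + 1) * NN n ^ 2 * C * ‖x - y‖ := by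
  have hN := NN_ge_one n
  have hcomp := Cube_compact (n + 1)
  unfold ff
  rw [← integral_sub ((integrand_continuous γ τ m I x).continuousOn.integrableOn_compact hcomp)
    ((integrand_continuous γ τ m I y).continuousOn.integrableOn_compact hcomp)]
  have h1 : ∀ v ∈ Cube (n + 1), ‖gg γ τ m I v (lin x v) • (dir v : V n) - gg γ τ m I v (lin y v) • dir v‖ ≤
      C * (NN n * ‖x - y‖) * NN n := by
    intro v hv
    rw [← sub_smul, norm_smul, Real.norm_eq_abs]
    have h2 := gg_sub_le γ τ m I v (lin x v) (lin y v) C (h v hv)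
    have h3 := norm_dir_le (n := n) hv
    have h4 := abs_lin_le (x - y) hv
    rw [lin_sub] at h4
    calc |gg γ τ m I v (lin x v) - gg γ τ m I v (lin y v)| * ‖(dir v : V n)‖
        ≤ (C * (NN n * ‖x - y‖)) * NN n := by
          apply mul_le_mul _ h3 (norm_nonneg _) (by positivity)
          exact h2.trans (mul_le_mul_of_nonneg_left h4 hC)
      _ = _ := by ring
  have h2 := norm_setIntegral_le_of_norm_le_const (μ := volume) (s := Cube (n + 1))
    hcomp.measure_lt_top h1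
  rw [Cube_vol] at h2
  refine h2.trans (le_of_eq ?_)
  ring

theorem ff_zero : ff γ τ m I 0 = 0 := by
  unfold ff
  simp [lin_zero, gg]

theorem ff_norm_le (x : V n) : ‖ff γ τ m I x‖ ≤ 2 ^ (n + 1) * NN n ^ 2 * ‖x‖ := by
  have h := ff_sub_le γ τ m I x 0 1 zero_le_one (fun v _ s _ => WW_le_one γ τ m I v s)
  rw [ff_zero, sub_zero, sub_zero, mul_one] at h
  exact h

end

end Pool.Agent.H86.QC
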