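import Mathlib
import Pool.Agent.H86.QC.Field

/-!
Cutting off the vector field: a map equal to a multiple of the field near the unit ball and to the
identity far away.
-/

namespace Pool.Agent.H86.QC

open MeasureTheory Set

noncomputable section

/-- smooth step -/
abbrev σ : ℝ → ℝ := Real.smoothTransition

theorem σ_hasDeriv (t : ℝ) : HasDerivAt σ (deriv σ t) t := by
  have h : Differentiable ℝ σ := (Real.smoothTransition.contDiff (n := 1)).differentiable (by norm_num)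
  exact (h t).hasDerivAt

theorem σ_deriv_continuous : Continuous (deriv σ) :=
  (Real.smoothTransition.contDiff (n := 1)).continuous_deriv (by norm_num)

theorem σ_deriv_nonneg (t : ℝ) : 0 ≤ deriv σ t := by
  have := (Real.smoothTransition.monotone.monotoneOn Set.univ).derivWithin_nonneg (x := t)
  rwa [derivWithin_univ] at this

theorem σ_deriv_zero_left {t : ℝ} (h : t ≤ 0) : deriv σ t = 0 := by
  apply IsLocalMin.deriv_eq_zero
  refine Filter.Eventually.of_forall fun s => ?_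
  simp only [σ]
  rw [Real.smoothTransition.zero_of_nonpos h]
  exact Real.smoothTransition.nonneg s

theorem σ_deriv_zero_right {t : ℝ} (h : 1 ≤ t) : deriv σ t = 0 := by
  apply IsLocalMax.deriv_eq_zero
  refine Filter.Eventually.of_forall fun s => ?_
  simp only [σ]
  rw [Real.smoothTransition.one_of_one_le h]
  exact Real.smoothTransition.le_one s

theorem σ_deriv_bound : ∃ D > 0, ∀ t, deriv σ t ≤ D := by
  obtain ⟨D, hD⟩ := (isCompact_Icc (a := (0:ℝ)) (b := 1)).exists_bound_of_continuousOn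
    σ_deriv_continuous.continuousOn
  refine ⟨|D| + 1, by positivity, fun t => ?_⟩
  by_cases h0 : t ≤ 0
  · rw [σ_deriv_zero_left h0]; positivity
  by_cases h1 : 1 ≤ t
  · rw [σ_deriv_zero_right h1]; positivity
  · have := hD t ⟨by linarith, by linarith⟩
    have h2 := le_abs_self (deriv σ t)
    have h3 := le_abs_self D
    rw [Real.norm_eq_abs] at this
    linarith

theorem σ_half : (1:ℝ) / 2 ≤ σ (1 / 2) := by
  have h1 : expNegInvGlue (1 / 2 : ℝ) > 0 := expNegInvGlue.pos_of_pos (by norm_num)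
  unfold σ Real.smoothTransition
  rw [show (1:ℝ) - 1 / 2 = 1 / 2 by norm_num, div_le_div_iff₀ (by norm_num) (by positivity)]
  linarith

/-- radial factor of the identity -/
def rr (h t : ℝ) : ℝ := σ ((t - 1 - h) / (2 * h))
/-- radial cut-off of the field -/
def cc (h t : ℝ) : ℝ := 1 - σ ((t - 1 - 2 * h) / h)
/-- derivative of `rr` -/
def rr' (h t : ℝ) : ℝ := deriv σ ((t - 1 - h) / (2 * h)) / (2 * h)
/-- derivative of `cc` -/
def cc' (h t : ℝ) : ℝ := - (deriv σ ((t - 1 - 2 * h) / h) / h)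

theorem rr_deriv (h t : ℝ) : HasDerivAt (rr h) (rr' h t) t := by
  unfold rr rr'
  have h1 : HasDerivAt (fun t : ℝ => (t - 1 - h) / (2 * h)) (1 / (2 * h)) t :=
    (((hasDerivAt_id t).sub_const 1).sub_const h).div_const _
  have h2 := (σ_hasDeriv ((t - 1 - h) / (2 * h))).comp t h1
  rw [mul_one_div] at h2
  exact h2

theorem cc_deriv (h t : ℝ) : HasDerivAt (cc h) (cc' h t) t := by
  unfold cc cc'
  have h1 : HasDerivAt (fun t : ℝ => (t - 1 - 2 * h) / h) (1 / h) t :=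
    (((hasDerivAt_id t).sub_const 1).sub_const (2 * h)).div_const _
  have h2 := (σ_hasDeriv ((t - 1 - 2 * h) / h)).comp t h1
  rw [mul_one_div] at h2
  exact h2.const_sub 1

theorem rr_continuous (h : ℝ) : Continuous (rr h) :=
  Real.smoothTransition.continuous.comp (by fun_prop)

theorem cc_continuous (h : ℝ) : Continuous (cc h) :=
  continuous_const.sub (Real.smoothTransition.continuous.comp (by fun_prop))

theorem rr'_continuous (h : ℝ) : Continuous (rr' h) :=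
  (σ_deriv_continuous.comp (by fun_prop)).div_const _

theorem cc'_continuous (h : ℝ) : Continuous (cc' h) :=
  ((σ_deriv_continuous.comp (by fun_prop)).div_const _).neg

theorem rr_zero {h t : ℝ} (hh : 0 < h) (ht : t ≤ 1 + h) : rr h t = 0 :=
  Real.smoothTransition.zero_of_nonpos (div_nonpos_of_nonpos_of_nonneg (by linarith) (by linarith))

theorem rr'_zero {h t : ℝ} (hh : 0 < h) (ht : t ≤ 1 + h) : rr' h t = 0 := by
  unfold rr'
  rw [σ_deriv_zero_left (div_nonpos_of_nonpos_of_nonneg (by linarith) (by linarith)), zero_div]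

theorem rr'_zero' {h t : ℝ} (hh : 0 < h) (ht : 1 + 3 * h ≤ t) : rr' h t = 0 := by
  unfold rr'
  rw [σ_deriv_zero_right (by rw [le_div_iff₀ (by linarith)]; linarith), zero_div]

theorem rr_one {h t : ℝ} (hh : 0 < h) (ht : 1 + 3 * h ≤ t) : rr h t = 1 :=
  Real.smoothTransition.one_of_one_le (by rw [le_div_iff₀ (by linarith)]; linarith)

theorem rr_half {h t : ℝ} (hh : 0 < h) (ht : 1 + 2 * h ≤ t) : 1 / 2 ≤ rr h t := by
  refine σ_half.trans (Real.smoothTransition.monotone ?_)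
  rw [le_div_iff₀ (by linarith)]; linarith

theorem cc_one {h t : ℝ} (hh : 0 < h) (ht : t ≤ 1 + 2 * h) : cc h t = 1 := by
  unfold cc
  simp only [σ]
  rw [Real.smoothTransition.zero_of_nonpos (div_nonpos_of_nonpos_of_nonneg (by linarith) (by linarith)),
    sub_zero]

theorem cc'_zero {h t : ℝ} (hh : 0 < h) (ht : t ≤ 1 + 2 * h) : cc' h t = 0 := by
  unfold cc'
  rw [σ_deriv_zero_left (div_nonpos_of_nonpos_of_nonneg (by linarith) (by linarith)), zero_div, neg_zero]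

theorem cc_zero {h t : ℝ} (hh : 0 < h) (ht : 1 + 3 * h ≤ t) : cc h t = 0 := by
  unfold cc
  simp only [σ]
  rw [Real.smoothTransition.one_of_one_le (by rw [le_div_iff₀ hh]; linarith), sub_self]

theorem cc'_zero' {h t : ℝ} (hh : 0 < h) (ht : 1 + 3 * h ≤ t) : cc' h t = 0 := by
  unfold cc'
  rw [σ_deriv_zero_right (by rw [le_div_iff₀ hh]; linarith), zero_div, neg_zero]

theorem cc_nonneg (h t : ℝ) : 0 ≤ cc h t := sub_nonneg.mpr (Real.smoothTransition.le_one _)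
theorem cc_le_one (h t : ℝ) : cc h t ≤ 1 := by
  have := Real.smoothTransition.nonneg ((t - 1 - 2 * h) / h)
  unfold cc; simp only [σ]; linarith
theorem rr_nonneg (h t : ℝ) : 0 ≤ rr h t := Real.smoothTransition.nonneg _
theorem rr_le_one (h t : ℝ) : rr h t ≤ 1 := Real.smoothTransition.le_one _
theorem rr'_nonneg {h : ℝ} (hh : 0 < h) (t : ℝ) : 0 ≤ rr' h t :=
  div_nonneg (σ_deriv_nonneg _) (by linarith)

theorem rr'_le {h D : ℝ} (hh : 0 < h) (hD : ∀ t, deriv σ t ≤ D) (t : ℝ) : rr' h t ≤ D / (2 * h) := by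
  unfold rr'
  exact div_le_div_of_nonneg_right (hD _) (by linarith)

theorem cc'_le {h D : ℝ} (hh : 0 < h) (hD : ∀ t, deriv σ t ≤ D) (t : ℝ) : |cc' h t| ≤ D / h := by
  unfold cc'
  rw [abs_neg, abs_of_nonneg (div_nonneg (σ_deriv_nonneg _) hh.le)]
  exact div_le_div_of_nonneg_right (hD _) hh.le

variable {n : ℕ}

/-- the cut-off map -/
def Phi (γ τ : ℝ) (m : ℕ) (ε h : ℝ) (I : Finset (ℕ × V n)) (x : V n) : V n :=
  (ε * cc h (‖x‖ ^ 2)) • ff γ τ m I x + rr h (‖x‖ ^ 2) • x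

/-- its derivative -/
def DPhi (γ τ : ℝ) (m : ℕ) (ε h : ℝ) (I : Finset (ℕ × V n)) (p ξ : V n) : V n :=
  (ε * cc h (‖p‖ ^ 2)) • MM γ τ m I p ξ + (ε * (cc' h (‖p‖ ^ 2) * (2 * inner ℝ p ξ))) • ff γ τ m I p +
    (rr h (‖p‖ ^ 2) • ξ + (rr' h (‖p‖ ^ 2) * (2 * inner ℝ p ξ)) • p)

theorem Phi_deriv (γ τ : ℝ) (m : ℕ) (ε h : ℝ) (I : Finset (ℕ × V n)) (x ξ : V n) (t : ℝ) :
    HasDerivAt (fun t : ℝ => Phi γ τ m ε h I (x + t • ξ)) (DPhi γ τ m ε h I (x + t • ξ) ξ) t := by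
  unfold Phi DPhi
  have hp : HasDerivAt (fun t : ℝ => x + t • ξ) ξ t := by
    simpa using ((hasDerivAt_id t).smul_const ξ).const_add x
  have hq : HasDerivAt (fun t : ℝ => ‖x + t • ξ‖ ^ 2) (2 * inner ℝ (x + t • ξ) ξ) t := hp.norm_sq
  have hf := ff_deriv γ τ m I x ξ t
  have hc : HasDerivAt (fun t : ℝ => ε * cc h (‖x + t • ξ‖ ^ 2))
      (ε * (cc' h (‖x + t • ξ‖ ^ 2) * (2 * inner ℝ (x + t • ξ) ξ))) t :=
    ((cc_deriv h _).comp t hq).const_mul ε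
  have hr : HasDerivAt (fun t : ℝ => rr h (‖x + t • ξ‖ ^ 2))
      (rr' h (‖x + t • ξ‖ ^ 2) * (2 * inner ℝ (x + t • ξ) ξ)) t :=
    (rr_deriv h _).comp t hq
  exact (hc.smul hf).add (hr.smul hp)

theorem DPhi_continuous (γ τ : ℝ) (m : ℕ) (ε h : ℝ) (I : Finset (ℕ × V n)) (x ξ : V n) :
    Continuous fun t : ℝ => DPhi γ τ m ε h I (x + t • ξ) ξ := by
  unfold DPhi
  have hq : Continuous fun t : ℝ => ‖x + t • ξ‖ ^ 2 := by fun_prop
  have hM := MM_continuous γ τ m I x ξ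
  have hf : Continuous fun t : ℝ => ff γ τ m I (x + t • ξ) :=
    continuous_iff_continuousAt.mpr fun t => (ff_deriv γ τ m I x ξ t).continuousAt
  have hi : Continuous fun t : ℝ => 2 * inner ℝ (x + t • ξ) ξ := by fun_prop
  have h1 := (continuous_const (y := ε)).mul ((cc_continuous h).comp hq)
  have h2 := (continuous_const (y := ε)).mul (((cc'_continuous h).comp hq).mul hi)
  have h3 := (rr_continuous h).comp hq
  have h4 := ((rr'_continuous h).comp hq).mul hi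
  exact ((h1.smul hM).add (h2.smul hf)).add ((h3.smul continuous_const).add (h4.smul (by fun_prop)))

theorem Phi_sub (γ τ : ℝ) (m : ℕ) (ε h : ℝ) (I : Finset (ℕ × V n)) (x y : V n) :
    Phi γ τ m ε h I y - Phi γ τ m ε h I x =
      ∫ t in (0:ℝ)..1, DPhi γ τ m ε h I (x + t • (y - x)) (y - x) := by
  rw [intervalIntegral.integral_eq_sub_of_hasDerivAt (f := fun t : ℝ => Phi γ τ m ε h I (x + t • (y - x)))
    (fun t _ => Phi_deriv γ τ m ε h I x (y - x) t)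
    ((DPhi_continuous γ τ m ε h I x (y - x)).intervalIntegrable _ _)]
  simp

/-- bounds for the derivative of the cut-off map, in terms of the point weight -/
theorem DPhi_bounds {γ τ : ℝ} (hγ : 0 < γ) (hγ1 : γ < 1) (m : ℕ) {h Cs : ℝ} (hh : 0 < h)
    (hCs : 1 ≤ Cs) : ∃ ε > 0, ∃ c > 0, ∃ C > 0, ∀ I : Finset (ℕ × V n),
      (∀ p : V n, 1 + h ≤ ‖p‖ ^ 2 → UU γ τ I p ≤ Cs) →
      ∀ p ξ : V n, ‖DPhi γ τ m ε h I p ξ‖ ≤ C * ((UU γ τ I p)⁻¹ ^ m * ‖ξ‖) ∧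
        c * ((UU γ τ I p)⁻¹ ^ m * ‖ξ‖ ^ 2) ≤ inner ℝ (DPhi γ τ m ε h I p ξ) ξ := by
  obtain ⟨D, hD0, hD⟩ := σ_deriv_bound
  obtain ⟨c6, hc6, hM⟩ := MM_ge (n := n) (τ := τ) (m := m) hγ hγ1
  have hN := NN_ge_one n
  set C7 : ℝ := 2 ^ (n + 1) * NN n ^ 2 with hC7
  have hC70 : 0 < C7 := by positivity
  set C5 : ℝ := 2 ^ (n + 1) * NN n ^ 2 * NN n ^ m with hC5
  have hC50 : 0 < C5 := by positivity
  set ε : ℝ := min 1 (h / (8 * D * C7 * (1 + 3 * h))) with hε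
  have hden : 0 < 8 * D * C7 * (1 + 3 * h) := by positivity
  have hε0 : 0 < ε := lt_min one_pos (div_pos hh hden)
  have hε1 : ε ≤ 1 := min_le_left _ _
  have hε2 : ε * (D / h) * C7 * (1 + 3 * h) ≤ 1 / 8 := by
    have h1 : ε ≤ h / (8 * D * C7 * (1 + 3 * h)) := min_le_right _ _
    rw [le_div_iff₀ hden] at h1
    have h2 : ε * (D / h) * C7 * (1 + 3 * h) = (ε * (8 * D * C7 * (1 + 3 * h))) / (8 * h) := by
      field_simp
    rw [h2, div_le_div_iff₀ (by positivity) (by norm_num)]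
    linarith
  set K : ℝ := 1 + (D / h) * (1 + 3 * h) + 1 with hK
  have hK0 : 0 < K := by positivity
  refine ⟨ε, hε0, min (ε * c6) (1 / 4), lt_min (by positivity) (by norm_num), C5 + K * Cs ^ m,
    by positivity, ?_⟩
  intro I hI p ξ
  have hU := UU_ge_one γ τ I p
  have hU0 : 0 < UU γ τ I p := by linarith
  have hUi : (UU γ τ I p)⁻¹ ^ m ≤ 1 := pow_le_one₀ (inv_nonneg.mpr hU0.le) (inv_le_one_of_one_le₀ hU)
  have hUi0 : 0 < (UU γ τ I p)⁻¹ ^ m := by positivity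
  have hMle := MM_le (m := m) (τ := τ) (I := I) hγ hγ1 p ξ
  rw [← hC5] at hMle
  have hMge := hM I p ξ
  have hff := ff_norm_le γ τ m I p
  rw [← hC7] at hff
  have hin : |inner ℝ p ξ| ≤ ‖p‖ * ‖ξ‖ := abs_real_inner_le_norm _ _
  -- the cut-off term
  have hcut : |cc' h (‖p‖ ^ 2)| * ‖p‖ ^ 2 ≤ D / h * (1 + 3 * h) := by
    by_cases hp : 1 + 3 * h ≤ ‖p‖ ^ 2
    · rw [cc'_zero' hh hp]; simp; positivity
    · push Not at hp
      exact mul_le_mul (cc'_le hh hD _) hp.le (by positivity) (by positivity)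
  have hcutr : rr' h (‖p‖ ^ 2) * ‖p‖ ^ 2 ≤ D / (2 * h) * (1 + 3 * h) := by
    by_cases hp : 1 + 3 * h ≤ ‖p‖ ^ 2
    · rw [rr'_zero' hh hp]; simp; positivity
    · push Not at hp
      exact mul_le_mul (rr'_le hh hD _) hp.le (by positivity) (by positivity)
  have t1 : ‖(ε * cc h (‖p‖ ^ 2)) • MM γ τ m I p ξ‖ ≤ C5 * ((UU γ τ I p)⁻¹ ^ m * ‖ξ‖) := by
    rw [norm_smul, Real.norm_eq_abs, abs_of_nonneg (mul_nonneg hε0.le (cc_nonneg _ _))]
    calc ε * cc h (‖p‖ ^ 2) * ‖MM γ τ m I p ξ‖ ≤ 1 * 1 * ‖MM γ τ m I p ξ‖ := by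
          gcongr
          · exact cc_nonneg _ _
          · exact cc_le_one _ _
      _ ≤ _ := by rw [one_mul, one_mul]; exact hMle
  have t2 : ‖(ε * (cc' h (‖p‖ ^ 2) * (2 * inner ℝ p ξ))) • ff γ τ m I p‖ ≤
      2 * (ε * (D / h) * C7 * (1 + 3 * h)) * ‖ξ‖ := by
    rw [norm_smul, Real.norm_eq_abs, abs_mul, abs_mul, abs_mul, abs_of_pos hε0, abs_two]
    calc ε * (|cc' h (‖p‖ ^ 2)| * (2 * |inner ℝ p ξ|)) * ‖ff γ τ m I p‖
        ≤ ε * (|cc' h (‖p‖ ^ 2)| * (2 * (‖p‖ * ‖ξ‖))) * (C7 * ‖p‖) := by gcongr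
      _ = 2 * (ε * C7) * (|cc' h (‖p‖ ^ 2)| * ‖p‖ ^ 2) * ‖ξ‖ := by ring
      _ ≤ 2 * (ε * C7) * (D / h * (1 + 3 * h)) * ‖ξ‖ := by gcongr
      _ = _ := by ring
  have hexp : inner ℝ (DPhi γ τ m ε h I p ξ) ξ =
      ε * cc h (‖p‖ ^ 2) * inner ℝ (MM γ τ m I p ξ) ξ +
      inner ℝ ((ε * (cc' h (‖p‖ ^ 2) * (2 * inner ℝ p ξ))) • ff γ τ m I p) ξ +
      (rr h (‖p‖ ^ 2) * ‖ξ‖ ^ 2 + 2 * rr' h (‖p‖ ^ 2) * (inner ℝ p ξ) ^ 2) := by
    unfold DPhi
    rw [inner_add_left, inner_add_left, inner_add_left, inner_smul_left, inner_smul_left ξ,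
      inner_smul_left p, real_inner_self_eq_norm_sq]
    simp only [conj_trivial]
    ring
  have hrr2 : 0 ≤ 2 * rr' h (‖p‖ ^ 2) * (inner ℝ p ξ) ^ 2 := by
    have := rr'_nonneg hh (‖p‖ ^ 2)
    positivity
  have hrr1 : 0 ≤ rr h (‖p‖ ^ 2) * ‖ξ‖ ^ 2 := mul_nonneg (rr_nonneg _ _) (by positivity)
  constructor
  · -- upper bound
    unfold DPhi
    by_cases hp : ‖p‖ ^ 2 ≤ 1 + h
    · rw [rr_zero hh hp, rr'_zero hh hp, cc'_zero hh (by linarith)]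
      simp only [zero_mul, mul_zero, zero_smul, add_zero]
      calc ‖(ε * cc h (‖p‖ ^ 2)) • MM γ τ m I p ξ‖ ≤ C5 * ((UU γ τ I p)⁻¹ ^ m * ‖ξ‖) := t1
        _ ≤ (C5 + K * Cs ^ m) * ((UU γ τ I p)⁻¹ ^ m * ‖ξ‖) := by
          apply mul_le_mul_of_nonneg_right _ (by positivity)
          have : 0 ≤ K * Cs ^ m := by positivity
          linarith
    · push Not at hp
      have hUC := hI p hp.le
      have hone : 1 ≤ Cs ^ m * (UU γ τ I p)⁻¹ ^ m := by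
        rw [← mul_pow]
        apply one_le_pow₀
        rw [← div_eq_mul_inv, le_div_iff₀ hU0, one_mul]
        exact hUC
      have t3 : ‖rr h (‖p‖ ^ 2) • ξ‖ ≤ ‖ξ‖ := by
        rw [norm_smul, Real.norm_eq_abs, abs_of_nonneg (rr_nonneg _ _)]
        exact mul_le_of_le_one_left (norm_nonneg _) (rr_le_one _ _)
      have t4 : ‖(rr' h (‖p‖ ^ 2) * (2 * inner ℝ p ξ)) • p‖ ≤ D / h * (1 + 3 * h) * ‖ξ‖ := by
        rw [norm_smul, Real.norm_eq_abs, abs_mul, abs_mul, abs_two, abs_of_nonneg (rr'_nonneg hh _)]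
        calc rr' h (‖p‖ ^ 2) * (2 * |inner ℝ p ξ|) * ‖p‖ ≤ rr' h (‖p‖ ^ 2) * (2 * (‖p‖ * ‖ξ‖)) * ‖p‖ := by
              have := rr'_nonneg hh (‖p‖ ^ 2)
              gcongr
          _ = 2 * (rr' h (‖p‖ ^ 2) * ‖p‖ ^ 2) * ‖ξ‖ := by ring
          _ ≤ 2 * (D / (2 * h) * (1 + 3 * h)) * ‖ξ‖ := by gcongr
          _ = D / h * (1 + 3 * h) * ‖ξ‖ := by field_simp
      have hsum := norm_add_le ((ε * cc h (‖p‖ ^ 2)) • MM γ τ m I p ξ + (ε * (cc' h (‖p‖ ^ 2) * (2 * inner ℝ p ξ))) • ff γ τ m I p)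
        (rr h (‖p‖ ^ 2) • ξ + (rr' h (‖p‖ ^ 2) * (2 * inner ℝ p ξ)) • p)
      have hsum1 := norm_add_le ((ε * cc h (‖p‖ ^ 2)) • MM γ τ m I p ξ) ((ε * (cc' h (‖p‖ ^ 2) * (2 * inner ℝ p ξ))) • ff γ τ m I p)
      have hsum2 := norm_add_le (rr h (‖p‖ ^ 2) • ξ) ((rr' h (‖p‖ ^ 2) * (2 * inner ℝ p ξ)) • p)
      have h5 : 2 * (ε * (D / h) * C7 * (1 + 3 * h)) * ‖ξ‖ ≤ 1 * ‖ξ‖ := by
        apply mul_le_mul_of_nonneg_right _ (norm_nonneg _)
        linarith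
      have h6 : ‖ξ‖ ≤ Cs ^ m * (UU γ τ I p)⁻¹ ^ m * ‖ξ‖ := le_mul_of_one_le_left (norm_nonneg _) hone
      have h7 : K * ‖ξ‖ ≤ K * (Cs ^ m * (UU γ τ I p)⁻¹ ^ m * ‖ξ‖) := by gcongr
      have h8 : 1 * ‖ξ‖ + (‖ξ‖ + D / h * (1 + 3 * h) * ‖ξ‖) = K * ‖ξ‖ := by rw [hK]; ring
      have h9 : (C5 + K * Cs ^ m) * ((UU γ τ I p)⁻¹ ^ m * ‖ξ‖) =
        C5 * ((UU γ τ I p)⁻¹ ^ m * ‖ξ‖) + K * (Cs ^ m * (UU γ τ I p)⁻¹ ^ m * ‖ξ‖) := by ring
      rw [h9]
      linarith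
  · -- lower bound
    rw [hexp]
    have hxi : 0 ≤ (UU γ τ I p)⁻¹ ^ m * ‖ξ‖ ^ 2 := by positivity
    have hMnn : 0 ≤ inner ℝ (MM γ τ m I p ξ) ξ := le_trans (by positivity) hMge
    by_cases hp : ‖p‖ ^ 2 ≤ 1 + 2 * h
    · rw [cc'_zero hh hp, cc_one hh hp]
      simp only [zero_mul, mul_zero, zero_smul, inner_zero_left, add_zero, mul_one]
      have h1 : min (ε * c6) (1 / 4) * ((UU γ τ I p)⁻¹ ^ m * ‖ξ‖ ^ 2) ≤ ε * c6 * ((UU γ τ I p)⁻¹ ^ m * ‖ξ‖ ^ 2) :=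
        mul_le_mul_of_nonneg_right (min_le_left _ _) hxi
      have h2 : ε * c6 * ((UU γ τ I p)⁻¹ ^ m * ‖ξ‖ ^ 2) ≤ ε * inner ℝ (MM γ τ m I p ξ) ξ := by
        rw [mul_assoc]
        exact mul_le_mul_of_nonneg_left hMge hε0.le
      linarith
    · push Not at hp
      have h1 : min (ε * c6) (1 / 4) * ((UU γ τ I p)⁻¹ ^ m * ‖ξ‖ ^ 2) ≤ 1 / 4 * ‖ξ‖ ^ 2 := by
        calc min (ε * c6) (1 / 4) * ((UU γ τ I p)⁻¹ ^ m * ‖ξ‖ ^ 2) ≤ 1 / 4 * (1 * ‖ξ‖ ^ 2) := by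
              gcongr
              exact min_le_right _ _
          _ = _ := by ring
      have h2 := rr_half hh hp.le
      have h3 : 1 / 2 * ‖ξ‖ ^ 2 ≤ rr h (‖p‖ ^ 2) * ‖ξ‖ ^ 2 := by gcongr
      have h4 : -(1 / 4 * ‖ξ‖ ^ 2) ≤ inner ℝ ((ε * (cc' h (‖p‖ ^ 2) * (2 * inner ℝ p ξ))) • ff γ τ m I p) ξ := by
        have h5 := abs_real_inner_le_norm ((ε * (cc' h (‖p‖ ^ 2) * (2 * inner ℝ p ξ))) • ff γ τ m I p) ξ
        have h6 := neg_abs_le (inner ℝ ((ε * (cc' h (‖p‖ ^ 2) * (2 * inner ℝ p ξ))) • ff γ τ m I p) ξ)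
        have h7 : ‖(ε * (cc' h (‖p‖ ^ 2) * (2 * inner ℝ p ξ))) • ff γ τ m I p‖ * ‖ξ‖ ≤ 1 / 4 * ‖ξ‖ ^ 2 := by
          calc ‖(ε * (cc' h (‖p‖ ^ 2) * (2 * inner ℝ p ξ))) • ff γ τ m I p‖ * ‖ξ‖
              ≤ (2 * (ε * (D / h) * C7 * (1 + 3 * h)) * ‖ξ‖) * ‖ξ‖ := by gcongr
            _ ≤ (2 * (1 / 8) * ‖ξ‖) * ‖ξ‖ := by gcongr
            _ = _ := by ring
        linarith
      have h8 : 0 ≤ ε * cc h (‖p‖ ^ 2) * inner ℝ (MM γ τ m I p ξ) ξ :=
        mul_nonneg (mul_nonneg hε0.le (cc_nonneg _ _)) hMnn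
      linarith

end

end Pool.Agent.H86.QC
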