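import Mathlib

/-!
Covering numbers, upper box-counting dimension, Assouad spectrum, quasiconformal maps of Euclidean
space (metric definition) and the global quasiconformal Assouad spectrum dimension.
-/

namespace Pool.Agent.H86.QC

open Filter Topology

noncomputable section

/-- `N_r(F)`: the least number of sets of diameter at most `r` needed to cover `F`. -/
def coverNumber {E : Type*} [MetricSpace E] (r : ℝ) (F : Set E) : ENNReal :=
  ⨅ (S : Finset (Set E)) (_ : (∀ s ∈ S, Metric.ediam s ≤ ENNReal.ofReal r) ∧ F ⊆ ⋃ s ∈ S, s),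
    (S.card : ENNReal)

/-- Upper box-counting dimension: the upper limit of `log N_r(F) / (- log r)` as `r` tends to `0`. -/
def upperBoxDim {E : Type*} [MetricSpace E] (F : Set E) : EReal :=
  limsup (fun r : ℝ => ENNReal.log (coverNumber r F) / ((-Real.log r : ℝ) : EReal)) (𝓝[>] 0)

/-- Assouad spectrum with parameter `θ`: the infimum of all `α ≥ 0` for which there is `C > 0` with
`N_(R^(1/θ)) (B(x,R) ∩ F) ≤ C R^((1 - 1/θ) α)` for all `x ∈ F` and `0 < R < 1`. -/
def assouadSpectrum {E : Type*} [MetricSpace E] (θ : ℝ) (F : Set E) : EReal :=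
  ⨅ (α : ℝ) (_ : 0 ≤ α ∧ ∃ C : ℝ, 0 < C ∧ ∀ x ∈ F, ∀ R : ℝ, 0 < R → R < 1 →
    coverNumber (R ^ (1 / θ)) (Metric.ball x R ∩ F) ≤ ENNReal.ofReal (C * R ^ ((1 - 1 / θ) * α))),
    (α : EReal)

/-- `dim_A^θ`, with the convention that `dim_A^0` is the upper box-counting dimension. -/
def dimSpec {E : Type*} [MetricSpace E] (θ : ℝ) (F : Set E) : EReal :=
  if θ = 0 then upperBoxDim F else assouadSpectrum θ F

/-- Quasiconformal homeomorphism (metric definition): for some `H`, at every point `x` and for all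
small `r > 0` one has `|f(y) - f(x)| ≤ H |f(z) - f(x)|` whenever `|y - x| = |z - x| = r`. -/
def IsQuasiconformal {E : Type*} [MetricSpace E] (f : E ≃ₜ E) : Prop :=
  ∃ H : ℝ, ∀ x : E, ∀ᶠ r in 𝓝[>] (0 : ℝ), ∀ y z : E, dist y x = r → dist z x = r →
    dist (f y) (f x) ≤ H * dist (f z) (f x)

/-- Global quasiconformal Assouad spectrum dimension: the infimum of `dim_A^θ (f(F))` over all
quasiconformal self-maps `f` of the whole space. -/
def QCdim {E : Type*} [MetricSpace E] (θ : ℝ) (F : Set E) : EReal :=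
  ⨅ (f : E ≃ₜ E) (_ : IsQuasiconformal f), dimSpec θ (f '' F)

end

end Pool.Agent.H86.QC
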