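import Mathlib

/-!
Uniform local covering numbers and their behaviour under Lipschitz and contracting maps.
-/

namespace Pool.Agent.H86.QC

open MeasureTheory Set Filter Topology

noncomputable section

variable {E : Type*} [NormedAddCommGroup E]

/-- uniform local covering numbers grow at most like `r^(-α)` -/
def LBox (α : ℝ) (A : Set E) : Prop :=
  ∃ C : ℝ, 0 ≤ C ∧ ∀ x : E, ∀ r : ℝ, 0 < r → r ≤ 1 →
    ∃ Z : Finset E, (Z.card : ℝ) ≤ C * r ^ (-α) ∧ ∀ a ∈ A, ‖a - x‖ ≤ 1 → ∃ z ∈ Z, ‖a - z‖ ≤ r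

theorem LBox.mono {α β : ℝ} {A : Set E} (h : LBox α A) (hαβ : α ≤ β) : LBox β A := by
  obtain ⟨C, hC, h⟩ := h
  refine ⟨C, hC, fun x r hr hr1 => ?_⟩
  obtain ⟨Z, h1, h2⟩ := h x r hr hr1
  refine ⟨Z, h1.trans ?_, h2⟩
  gcongr C * ?_
  exact Real.rpow_le_rpow_of_exponent_ge hr hr1 (by linarith)

theorem LBox.subset {α : ℝ} {A B : Set E} (h : LBox α A) (hBA : B ⊆ A) : LBox α B := by
  obtain ⟨C, hC, h⟩ := h
  refine ⟨C, hC, fun x r hr hr1 => ?_⟩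
  obtain ⟨Z, h1, h2⟩ := h x r hr hr1
  exact ⟨Z, h1, fun a ha => h2 a (hBA ha)⟩

theorem LBox.union {α : ℝ} {A B : Set E} (hA : LBox α A) (hB : LBox α B) : LBox α (A ∪ B) := by
  classical
  obtain ⟨C, hC, h⟩ := hA
  obtain ⟨C', hC', h'⟩ := hB
  refine ⟨C + C', by positivity, fun x r hr hr1 => ?_⟩
  obtain ⟨Z, h1, h2⟩ := h x r hr hr1
  obtain ⟨Z', h1', h2'⟩ := h' x r hr hr1
  refine ⟨Z ∪ Z', ?_, ?_⟩
  · calc ((Z ∪ Z').card : ℝ) ≤ (Z.card : ℝ) + Z'.card := by exact_mod_cast Finset.card_union_le _ _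
      _ ≤ C * r ^ (-α) + C' * r ^ (-α) := add_le_add h1 h1'
      _ = _ := by ring
  · rintro a (ha | ha) hax
    · obtain ⟨z, hz, h3⟩ := h2 a ha hax
      exact ⟨z, Finset.mem_union_left _ hz, h3⟩
    · obtain ⟨z, hz, h3⟩ := h2' a ha hax
      exact ⟨z, Finset.mem_union_right _ hz, h3⟩

theorem LBox.empty (α : ℝ) : LBox α (∅ : Set E) :=
  ⟨0, le_rfl, fun _ _ _ _ => ⟨∅, by simp, by simp⟩⟩

/-- balls of any radius -/
theorem LBox.radius [ProperSpace E] {α : ℝ} {A : Set E} (h : LBox α A) (R : ℝ) :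
    ∃ C : ℝ, 0 ≤ C ∧ ∀ x : E, ∀ r : ℝ, 0 < r → r ≤ 1 →
      ∃ Z : Finset E, (Z.card : ℝ) ≤ C * r ^ (-α) ∧ ∀ a ∈ A, ‖a - x‖ ≤ R → ∃ z ∈ Z, ‖a - z‖ ≤ r := by
  classical
  obtain ⟨C, hC, h⟩ := h
  obtain ⟨t, _, ht, hcov⟩ := (isCompact_closedBall (0:E) R).finite_cover_balls one_pos
  refine ⟨ht.toFinset.card * C, by positivity, fun x r hr hr1 => ?_⟩
  choose Z hZ1 hZ2 using fun y : E => h (x + y) r hr hr1
  refine ⟨ht.toFinset.biUnion Z, ?_, ?_⟩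
  · calc ((ht.toFinset.biUnion Z).card : ℝ) ≤ ∑ y ∈ ht.toFinset, ((Z y).card : ℝ) := by
          exact_mod_cast Finset.card_biUnion_le
      _ ≤ ∑ y ∈ ht.toFinset, C * r ^ (-α) := Finset.sum_le_sum fun y _ => hZ1 y
      _ = _ := by rw [Finset.sum_const, nsmul_eq_mul]; ring
  · intro a ha hax
    have h1 : a - x ∈ Metric.closedBall (0:E) R := by simpa using hax
    obtain ⟨y, hy, h2⟩ := Set.mem_iUnion₂.mp (hcov h1)
    rw [Metric.mem_ball, dist_eq_norm] at h2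
    obtain ⟨z, hz, h3⟩ := hZ2 y a ha (by
      rw [show a - (x + y) = a - x - y by abel]; exact h2.le)
    exact ⟨z, Finset.mem_biUnion.mpr ⟨y, ht.mem_toFinset.mpr hy, hz⟩, h3⟩

/-- images under maps that contract near `A` -/
theorem LBox.image [ProperSpace E] {α : ℝ} {A : Set E} (h : LBox α A) (f : E → E) (D C1 : ℝ)
    (p : ℕ) (hD : ∀ x, ‖f x - x‖ ≤ D) (hC1 : 0 < C1)
    (hf : ∀ x ∈ A, ∀ y, ‖y - x‖ ≤ 1 → ‖f y - f x‖ ≤ C1 * ‖y - x‖ ^ (p + 1)) :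
    LBox (α / (p + 1 : ℕ)) (f '' A) := by
  classical
  obtain ⟨C, hC, h⟩ := h.radius (1 + D)
  -- scale
  have hp : (0:ℝ) < (p + 1 : ℕ) := by positivity
  set c : ℝ := min (1 / 2) ((C1 * 2 ^ (p + 1))⁻¹ ^ ((1:ℝ) / (p + 1 : ℕ))) with hc
  have hc0 : 0 < c := lt_min (by norm_num) (by positivity)
  have hc1 : c ≤ 1 / 2 := min_le_left _ _
  have hc2 : C1 * 2 ^ (p + 1) * c ^ (p + 1) ≤ 1 := by
    have h1 : c ^ (p + 1) ≤ ((C1 * 2 ^ (p + 1))⁻¹ ^ ((1:ℝ) / (p + 1 : ℕ))) ^ (p + 1) :=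
      pow_le_pow_left₀ hc0.le (min_le_right _ _) _
    rw [← Real.rpow_natCast ((C1 * 2 ^ (p + 1))⁻¹ ^ ((1:ℝ) / (p + 1 : ℕ))) (p + 1),
      ← Real.rpow_mul (by positivity), one_div, inv_mul_cancel₀ hp.ne', Real.rpow_one] at h1
    calc C1 * 2 ^ (p + 1) * c ^ (p + 1) ≤ C1 * 2 ^ (p + 1) * (C1 * 2 ^ (p + 1))⁻¹ := by gcongr
      _ = 1 := mul_inv_cancel₀ (by positivity)
  refine ⟨C * c ^ (-α), by positivity, fun x r hr hr1 => ?_⟩
  set r' : ℝ := c * r ^ ((1:ℝ) / (p + 1 : ℕ)) with hr'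
  have hrp : 0 < r ^ ((1:ℝ) / (p + 1 : ℕ)) := by positivity
  have hrp1 : r ^ ((1:ℝ) / (p + 1 : ℕ)) ≤ 1 := Real.rpow_le_one hr.le hr1 (by positivity)
  have hr'0 : 0 < r' := by positivity
  have hr'1 : r' ≤ 1 / 2 := by
    calc r' ≤ (1 / 2) * 1 := by rw [hr']; gcongr
      _ = 1 / 2 := by ring
  have hr'p : C1 * (2 * r') ^ (p + 1) ≤ r := by
    rw [hr', mul_pow, mul_pow, ← Real.rpow_natCast (r ^ ((1:ℝ) / (p + 1 : ℕ))) (p + 1),
      ← Real.rpow_mul hr.le, one_div, inv_mul_cancel₀ hp.ne', Real.rpow_one]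
    calc C1 * (2 ^ (p + 1) * (c ^ (p + 1) * r)) = (C1 * 2 ^ (p + 1) * c ^ (p + 1)) * r := by ring
      _ ≤ 1 * r := by gcongr
      _ = r := one_mul r
  obtain ⟨Z, hZ1, hZ2⟩ := h x r' hr'0 (by linarith)
  -- choose points of `A` near the centres
  have hch : ∀ z : E, ∃ b : E, (∃ a ∈ A, ‖a - z‖ ≤ r') → b ∈ A ∧ ‖b - z‖ ≤ r' := by
    intro z
    by_cases hz : ∃ a ∈ A, ‖a - z‖ ≤ r'
    · obtain ⟨a, ha, haz⟩ := hz
      exact ⟨a, fun _ => ⟨ha, haz⟩⟩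
    · exact ⟨0, fun h => absurd h hz⟩
  choose b hb using hch
  refine ⟨Z.image fun z => f (b z), ?_, ?_⟩
  · have h1 : ((Z.image fun z => f (b z)).card : ℝ) ≤ Z.card := by exact_mod_cast Finset.card_image_le
    refine h1.trans (hZ1.trans (le_of_eq ?_))
    rw [hr', Real.mul_rpow hc0.le hrp.le, ← Real.rpow_mul hr.le]
    have : (1:ℝ) / (p + 1 : ℕ) * -α = -(α / (p + 1 : ℕ)) := by ring
    rw [this]; ring
  · rintro _ ⟨a, ha, rfl⟩ hax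
    have h1 : ‖a - x‖ ≤ 1 + D := by
      have h2 := hD a
      calc ‖a - x‖ = ‖(f a - x) - (f a - a)‖ := by congr 1; abel
        _ ≤ ‖f a - x‖ + ‖f a - a‖ := norm_sub_le _ _
        _ ≤ 1 + D := add_le_add hax h2
    obtain ⟨z, hz, haz⟩ := hZ2 a ha h1
    obtain ⟨hbA, hbz⟩ := hb z ⟨a, ha, haz⟩
    refine ⟨f (b z), Finset.mem_image_of_mem _ hz, ?_⟩
    have h3 : ‖a - b z‖ ≤ 2 * r' := by
      calc ‖a - b z‖ = ‖(a - z) - (b z - z)‖ := by congr 1; abel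
        _ ≤ ‖a - z‖ + ‖b z - z‖ := norm_sub_le _ _
        _ ≤ 2 * r' := by linarith
    have h4 := hf (b z) hbA a (by linarith)
    calc ‖f a - f (b z)‖ ≤ C1 * ‖a - b z‖ ^ (p + 1) := h4
      _ ≤ C1 * (2 * r') ^ (p + 1) := by gcongr
      _ ≤ r := hr'p

/-- spheres avoiding a set of small dimension -/
theorem exists_sphere [ProperSpace E] {d : ℝ} {A : Set E} (h : LBox d A) (hd : d < 1) :
    ∃ w : ℝ, 0 < w ∧ w ≤ 1 / 2 ∧ ∀ y : E, ∃ t : ℝ, 3 / 2 ≤ t ∧ t ≤ 2 ∧ ∀ x ∈ A, w ≤ |‖x - y‖ - t| := by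
  obtain ⟨C, hC, h⟩ := h.radius 3
  -- choose `w`
  obtain ⟨w, hw0, hw1, hw2⟩ : ∃ w : ℝ, 0 < w ∧ w ≤ 1 / 2 ∧ C * w ^ (-d) * (4 * w) < 1 / 2 := by
    have h1 : Tendsto (fun w : ℝ => 4 * C * w ^ (1 - d)) (𝓝[>] 0) (𝓝 0) := by
      have h2 : Tendsto (fun w : ℝ => w ^ (1 - d)) (𝓝[>] 0) (𝓝 0) := by
        have h3 : Tendsto (fun w : ℝ => w ^ (1 - d)) (𝓝 0) (𝓝 ((0:ℝ) ^ (1 - d))) :=
          (Real.continuousAt_rpow_const 0 (1 - d) (Or.inr (by linarith))).tendsto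
        rw [Real.zero_rpow (by linarith)] at h3
        exact h3.mono_left nhdsWithin_le_nhds
      simpa using h2.const_mul (4 * C)
    have h2 := (h1.eventually (gt_mem_nhds (by norm_num : (0:ℝ) < 1 / 2))).and
      ((Ioo_mem_nhdsGT (by norm_num : (0:ℝ) < 1 / 2)))
    obtain ⟨w, h3, h4⟩ := h2.exists
    refine ⟨w, h4.1, h4.2.le, ?_⟩
    have h5 : w ^ (1 - d) = w ^ (-d) * w := by
      rw [sub_eq_neg_add, Real.rpow_add h4.1, Real.rpow_one]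
    rw [h5] at h3
    linarith
  refine ⟨w, hw0, hw1, fun y => ?_⟩
  obtain ⟨Z, hZ1, hZ2⟩ := h y w hw0 (by linarith)
  set S : Set ℝ := ⋃ z ∈ Z, Icc (‖z - y‖ - 2 * w) (‖z - y‖ + 2 * w) with hS
  have hvol : volume S < volume (Icc (3 / 2 : ℝ) 2) := by
    calc volume S ≤ ∑ z ∈ Z, volume (Icc (‖z - y‖ - 2 * w) (‖z - y‖ + 2 * w)) :=
          measure_biUnion_finset_le _ _
      _ = ∑ z ∈ Z, ENNReal.ofReal (4 * w) := by
          apply Finset.sum_congr rfl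
          intro z _
          rw [Real.volume_Icc]; congr 1; ring
      _ = ENNReal.ofReal ((Z.card : ℝ) * (4 * w)) := by
          rw [Finset.sum_const, nsmul_eq_mul, ENNReal.ofReal_mul (p := (Z.card : ℝ)) (by positivity),
            ENNReal.ofReal_natCast]
      _ ≤ ENNReal.ofReal (C * w ^ (-d) * (4 * w)) := by
          apply ENNReal.ofReal_le_ofReal; gcongr
      _ < ENNReal.ofReal (2 - 3 / 2) := by
          apply (ENNReal.ofReal_lt_ofReal_iff (by norm_num)).mpr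
          linarith
      _ = volume (Icc (3 / 2 : ℝ) 2) := by rw [Real.volume_Icc]
  obtain ⟨t, ht, htS⟩ : ∃ t ∈ Icc (3 / 2 : ℝ) 2, t ∉ S := by
    by_contra hcon
    push Not at hcon
    exact absurd (measure_mono (μ := volume) (fun t ht => hcon t ht)) (not_le.mpr hvol)
  refine ⟨t, ht.1, ht.2, fun x hx => ?_⟩
  by_cases hxy : ‖x - y‖ ≤ 3
  · obtain ⟨z, hz, hxz⟩ := hZ2 x hx hxy
    have h1 : t ∉ Icc (‖z - y‖ - 2 * w) (‖z - y‖ + 2 * w) := by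
      intro h2
      exact htS (Set.mem_biUnion hz h2)
    have h2 : |‖x - y‖ - ‖z - y‖| ≤ w := by
      refine (abs_norm_sub_norm_le _ _).trans ?_
      rw [show x - y - (z - y) = x - z by abel]; exact hxz
    rw [Set.mem_Icc, not_and_or, not_le, not_le] at h1
    rw [abs_le] at h2
    rcases h1 with h3 | h3
    · rw [le_abs]; left; linarith [h2.1]
    · rw [le_abs]; right; linarith [h2.2]
  · push Not at hxy
    rw [le_abs]; left; linarith [ht.2]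

end

end Pool.Agent.H86.QC
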