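import Mathlib
import Pool.Agent.H86.QC.Block

/-!
The finite-level building block: uniform Lipschitz and quasisymmetry bounds, surjectivity.
-/

namespace Pool.Agent.H86.QC

open MeasureTheory Set

noncomputable section

variable {n : ℕ}

/-- strongly monotone Lipschitz maps of a Hilbert space are surjective -/
theorem surj_of_strong_mono {E : Type*} [NormedAddCommGroup E] [InnerProductSpace ℝ E]
    [CompleteSpace E] (F : E → E) (L c : ℝ) (hL : 0 < L) (hc : 0 < c)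
    (h1 : ∀ x y, ‖F y - F x‖ ≤ L * ‖y - x‖) (h2 : ∀ x y, c * ‖y - x‖ ^ 2 ≤ inner ℝ (F y - F x) (y - x)) :
    Function.Surjective F := by
  intro p
  set L' : ℝ := max L c with hL'
  have hL'0 : 0 < L' := lt_max_of_lt_left hL
  have h1' : ∀ x y, ‖F y - F x‖ ≤ L' * ‖y - x‖ := fun x y => (h1 x y).trans (by
    gcongr; exact le_max_left _ _)
  have hcL : c ≤ L' := le_max_right _ _
  set s : ℝ := c / L' ^ 2 with hs
  have hs0 : 0 < s := by positivity
  set q : ℝ := 1 - c ^ 2 / L' ^ 2 with hq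
  have hq0 : 0 ≤ q := by
    rw [hq, sub_nonneg, div_le_one (by positivity)]
    exact pow_le_pow_left₀ hc.le hcL 2
  have hq1 : q < 1 := by
    rw [hq]; have : 0 < c ^ 2 / L' ^ 2 := by positivity
    linarith
  have hsq : Real.sqrt q < 1 := by
    rw [Real.sqrt_lt' one_pos]; simpa using hq1
  have hest : ∀ x y : E, ‖(y - s • (F y - p)) - (x - s • (F x - p))‖ ≤ Real.sqrt q * ‖y - x‖ := by
    intro x y
    have e1 : (y - s • (F y - p)) - (x - s • (F x - p)) = (y - x) - s • (F y - F x) := by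
      rw [smul_sub, smul_sub, smul_sub]; abel
    rw [e1]
    apply le_of_sq_le_sq _ (by positivity)
    rw [mul_pow, Real.sq_sqrt hq0, norm_sub_sq_real, inner_smul_right, norm_smul, mul_pow,
      real_inner_comm]
    have h3 := h2 x y
    have h4 : ‖F y - F x‖ ^ 2 ≤ L' ^ 2 * ‖y - x‖ ^ 2 := by
      rw [← mul_pow]; exact pow_le_pow_left₀ (norm_nonneg _) (h1' x y) 2
    rw [Real.norm_eq_abs, sq_abs]
    have h5 : s * (c * ‖y - x‖ ^ 2) ≤ s * inner ℝ (F y - F x) (y - x) := by gcongr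
    have h6 : s ^ 2 * ‖F y - F x‖ ^ 2 ≤ s ^ 2 * (L' ^ 2 * ‖y - x‖ ^ 2) := by gcongr
    have h7 : s ^ 2 * (L' ^ 2 * ‖y - x‖ ^ 2) = s * c * ‖y - x‖ ^ 2 := by
      rw [hs]; field_simp
    have h8 : q * ‖y - x‖ ^ 2 = ‖y - x‖ ^ 2 - s * c * ‖y - x‖ ^ 2 := by
      rw [hq, hs]; field_simp
    rw [h8]
    nlinarith
  have hcontr : ContractingWith ⟨Real.sqrt q, Real.sqrt_nonneg q⟩ (fun y : E => y - s • (F y - p)) := by
    refine ⟨by exact_mod_cast hsq, ?_⟩
    apply LipschitzWith.of_dist_le_mul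
    intro x y
    rw [dist_eq_norm, dist_eq_norm]
    exact hest y x
  obtain ⟨y, hy, _⟩ := hcontr.exists_fixedPoint (0:E) (edist_ne_top _ _)
  refine ⟨y, ?_⟩
  have h9 : y - s • (F y - p) = y := hy
  have h10 : s • (F y - p) = 0 := by
    have := sub_eq_self.mp h9
    exact this
  rcases smul_eq_zero.mp h10 with h | h
  · exact absurd h hs0.ne'
  · exact sub_eq_zero.mp h

/-- The finite-level block. -/
theorem finite_block {γ τ : ℝ} (hγ : 0 < γ) (hγ1 : γ < 1) (m : ℕ) {h Cs : ℝ} (hh : 0 < h)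
    (hCs : 1 ≤ Cs) : ∃ ε > 0, ∃ L > 0, ∃ H : ℝ → ℝ, ∀ I : Finset (ℕ × V n),
      (∀ p : V n, 1 + h ≤ ‖p‖ ^ 2 → UU γ τ I p ≤ Cs) →
      (∀ x y, ‖Phi γ τ m ε h I y - Phi γ τ m ε h I x‖ ≤ L * ‖y - x‖) ∧
      (∀ Λ, 0 ≤ Λ → ∀ x y z, ‖y - x‖ ≤ Λ * ‖z - x‖ →
        ‖Phi γ τ m ε h I y - Phi γ τ m ε h I x‖ ≤ H Λ * ‖Phi γ τ m ε h I z - Phi γ τ m ε h I x‖) ∧
      Function.Surjective (Phi γ τ m ε h I) := by
  obtain ⟨ε, hε, c, hc, C, hC, hDP⟩ := DPhi_bounds (n := n) (τ := τ) hγ hγ1 m hh hCs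
  have h1g : 0 < 1 - γ := by linarith
  refine ⟨ε, hε, C, hC, fun Λ => C * Λ * (8 * (Λ + 1) / (1 - γ)) ^ m / c, ?_⟩
  intro I hI
  have hbd := hDP I hI
  -- upper estimate with a pointwise bound of the weight on the segment
  have hup : ∀ x y : V n, ∀ B : ℝ, (∀ t ∈ Icc (0:ℝ) 1, (UU γ τ I (x + t • (y - x)))⁻¹ ^ m ≤ B) →
      ‖Phi γ τ m ε h I y - Phi γ τ m ε h I x‖ ≤ C * (B * ‖y - x‖) := by
    intro x y B hB
    rw [Phi_sub]
    have h1 : ∀ t ∈ Set.uIoc (0:ℝ) 1, ‖DPhi γ τ m ε h I (x + t • (y - x)) (y - x)‖ ≤ C * (B * ‖y - x‖) := by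
      intro t ht
      rw [uIoc_of_le zero_le_one] at ht
      have h2 := (hbd (x + t • (y - x)) (y - x)).1
      have h3 := hB t ⟨ht.1.le, ht.2⟩
      refine h2.trans ?_
      gcongr
    have h4 := intervalIntegral.norm_integral_le_of_norm_le_const h1
    simpa using h4
  have hUpos : ∀ p : V n, 0 < UU γ τ I p := fun p => by
    have := UU_ge_one γ τ I p; linarith
  -- lower estimate of the monotonicity
  have hlow : ∀ x z p : V n, ∀ Λ : ℝ, 0 ≤ Λ → ‖p - x‖ ≤ Λ * ‖z - x‖ →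
      c * ((8 * (Λ + 1) / (1 - γ) * UU γ τ I p)⁻¹ ^ m * ‖z - x‖ ^ 2) ≤
        inner ℝ (Phi γ τ m ε h I z - Phi γ τ m ε h I x) (z - x) := by
    intro x z p Λ hΛ hp
    set a : ℝ := 8 * (Λ + 1) / (1 - γ) * UU γ τ I p with ha
    have ha0 : 0 < a := by have := hUpos p; positivity
    rw [Phi_sub, real_inner_comm]
    have hci : Continuous fun t : ℝ => DPhi γ τ m ε h I (x + t • (z - x)) (z - x) :=
      DPhi_continuous γ τ m ε h I x (z - x)
    have h1 : inner ℝ (z - x) (∫ t in (0:ℝ)..1, DPhi γ τ m ε h I (x + t • (z - x)) (z - x)) =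
        ∫ t in (0:ℝ)..1, inner ℝ (z - x) (DPhi γ τ m ε h I (x + t • (z - x)) (z - x)) := by
      have hii : IntervalIntegrable (fun t : ℝ => DPhi γ τ m ε h I (x + t • (z - x)) (z - x)) volume 0 1 :=
        hci.intervalIntegrable 0 1
      exact ((innerSL ℝ (z - x)).intervalIntegral_comp_comm hii).symm
    rw [h1]
    have hcU : Continuous fun t : ℝ => UU γ τ I (x + t • (z - x)) := (UU_continuous γ τ I).comp (by fun_prop)
    have hint := int_UU (τ := τ) (I := I) hγ hγ1 x (z - x) p hΛ hp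
    rw [← ha] at hint
    have h2 : ∫ t in (0:ℝ)..1, (c * ‖z - x‖ ^ 2 * a⁻¹ ^ m * (1 + m) -
        c * ‖z - x‖ ^ 2 * a⁻¹ ^ m * (m / a) * UU γ τ I (x + t • (z - x))) ≤
        ∫ t in (0:ℝ)..1, inner ℝ (z - x) (DPhi γ τ m ε h I (x + t • (z - x)) (z - x)) := by
      apply intervalIntegral.integral_mono_on zero_le_one
      · exact (continuous_const.sub (continuous_const.mul hcU)).intervalIntegrable _ _
      · exact (continuous_const.inner hci).intervalIntegrable _ _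
      · intro t _
        have h3 := (hbd (x + t • (z - x)) (z - x)).2
        rw [real_inner_comm]
        refine le_trans ?_ h3
        have h4 := inv_pow_ge (m := m) ha0 (hUpos (x + t • (z - x)))
        have h5 : c * ‖z - x‖ ^ 2 * a⁻¹ ^ m * (1 + m) -
          c * ‖z - x‖ ^ 2 * a⁻¹ ^ m * (m / a) * UU γ τ I (x + t • (z - x)) =
          c * ‖z - x‖ ^ 2 * (a⁻¹ ^ m * (1 + m - m * (UU γ τ I (x + t • (z - x)) / a))) := by ring
        rw [h5]
        calc c * ‖z - x‖ ^ 2 * (a⁻¹ ^ m * (1 + m - m * (UU γ τ I (x + t • (z - x)) / a)))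
            ≤ c * ‖z - x‖ ^ 2 * (UU γ τ I (x + t • (z - x)))⁻¹ ^ m := by gcongr
          _ = _ := by ring
    refine le_trans ?_ h2
    have hi1 : IntervalIntegrable (fun _ : ℝ => c * ‖z - x‖ ^ 2 * a⁻¹ ^ m * (1 + (m:ℝ))) volume 0 1 :=
      continuous_const.intervalIntegrable _ _
    have hi2 : IntervalIntegrable (fun t : ℝ => c * ‖z - x‖ ^ 2 * a⁻¹ ^ m * (m / a) * UU γ τ I (x + t • (z - x)))
      volume 0 1 := (continuous_const.mul hcU).intervalIntegrable _ _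
    have e1 : ∫ _ in (0:ℝ)..1, c * ‖z - x‖ ^ 2 * a⁻¹ ^ m * (1 + (m:ℝ)) = c * ‖z - x‖ ^ 2 * a⁻¹ ^ m * (1 + (m:ℝ)) := by
      rw [intervalIntegral.integral_const]; simp
    have e2 : ∫ t in (0:ℝ)..1, c * ‖z - x‖ ^ 2 * a⁻¹ ^ m * (m / a) * UU γ τ I (x + t • (z - x)) =
        c * ‖z - x‖ ^ 2 * a⁻¹ ^ m * (m / a) * ∫ t in (0:ℝ)..1, UU γ τ I (x + t • (z - x)) :=
      intervalIntegral.integral_const_mul _ _
    rw [intervalIntegral.integral_sub hi1 hi2, e1, e2]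
    have h6 : c * ‖z - x‖ ^ 2 * a⁻¹ ^ m * (m / a) * ∫ t in (0:ℝ)..1, UU γ τ I (x + t • (z - x)) ≤
        c * ‖z - x‖ ^ 2 * a⁻¹ ^ m * (m / a) * a := by gcongr
    have h7 : c * ‖z - x‖ ^ 2 * a⁻¹ ^ m * (m / a) * a = c * ‖z - x‖ ^ 2 * a⁻¹ ^ m * m := by
      field_simp
    rw [h7] at h6
    linarith
  refine ⟨?_, ?_, ?_⟩
  · intro x y
    have h1 := hup x y 1 (fun t _ => pow_le_one₀ (inv_nonneg.mpr (hUpos _).le)
      (inv_le_one_of_one_le₀ (UU_ge_one γ τ I _)))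
    simpa using h1
  · intro Λ hΛ x y z hyz
    by_cases hzx : z - x = 0
    · have : y - x = 0 := by
        rw [hzx, norm_zero, mul_zero] at hyz
        exact norm_le_zero_iff.mp hyz
      rw [sub_eq_zero.mp this]
      simp only [sub_self, norm_zero]
      have h0 : z = x := sub_eq_zero.mp hzx
      rw [h0]; simp
    have hz0 : 0 < ‖z - x‖ := norm_pos_iff.mpr hzx
    set R : ℝ := 8 * (Λ + 1) / (1 - γ) with hR
    have hR0 : 0 < R := by positivity
    have hkey : ∀ p : V n, ‖p - x‖ ≤ Λ * ‖z - x‖ →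
        (UU γ τ I p)⁻¹ ^ m ≤ R ^ m / (c * ‖z - x‖) * ‖Phi γ τ m ε h I z - Phi γ τ m ε h I x‖ := by
      intro p hp
      have h1 := hlow x z p Λ hΛ hp
      have h2 := real_inner_le_norm (Phi γ τ m ε h I z - Phi γ τ m ε h I x) (z - x)
      rw [← hR, mul_inv, mul_pow] at h1
      have h3 : c * (R⁻¹ ^ m * (UU γ τ I p)⁻¹ ^ m) * ‖z - x‖ * ‖z - x‖ ≤
          ‖Phi γ τ m ε h I z - Phi γ τ m ε h I x‖ * ‖z - x‖ := by
        calc _ = c * (R⁻¹ ^ m * (UU γ τ I p)⁻¹ ^ m * ‖z - x‖ ^ 2) := by ring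
          _ ≤ _ := h1.trans h2
      have h4 := le_of_mul_le_mul_right h3 hz0
      rw [div_mul_eq_mul_div, le_div_iff₀ (by positivity)]
      calc (UU γ τ I p)⁻¹ ^ m * (c * ‖z - x‖) = R ^ m * (c * (R⁻¹ ^ m * (UU γ τ I p)⁻¹ ^ m) * ‖z - x‖) := by
            have : R ^ m * R⁻¹ ^ m = 1 := by rw [← mul_pow, mul_inv_cancel₀ hR0.ne', one_pow]
            calc _ = (R ^ m * R⁻¹ ^ m) * ((UU γ τ I p)⁻¹ ^ m * (c * ‖z - x‖)) := by rw [this, one_mul]
              _ = _ := by ring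
        _ ≤ R ^ m * ‖Phi γ τ m ε h I z - Phi γ τ m ε h I x‖ := by gcongr
    have h5 := hup x y (R ^ m / (c * ‖z - x‖) * ‖Phi γ τ m ε h I z - Phi γ τ m ε h I x‖) (by
      intro t ht
      apply hkey
      rw [add_sub_cancel_left, norm_smul, Real.norm_eq_abs, abs_of_nonneg ht.1]
      refine le_trans ?_ hyz
      exact mul_le_of_le_one_left (norm_nonneg _) ht.2)
    refine h5.trans ?_
    calc C * (R ^ m / (c * ‖z - x‖) * ‖Phi γ τ m ε h I z - Phi γ τ m ε h I x‖ * ‖y - x‖)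
        ≤ C * (R ^ m / (c * ‖z - x‖) * ‖Phi γ τ m ε h I z - Phi γ τ m ε h I x‖ * (Λ * ‖z - x‖)) := by
          gcongr
      _ = C * Λ * R ^ m / c * ‖Phi γ τ m ε h I z - Phi γ τ m ε h I x‖ := by
          field_simp
  · -- surjectivity
    set B : ℝ := 1 + ∑ i ∈ I, (2:ℝ) ^ (τ * i.1) with hB
    have hB0 : 0 < B := by
      have : 0 ≤ ∑ i ∈ I, (2:ℝ) ^ (τ * i.1) := Finset.sum_nonneg fun i _ => by positivity
      linarith
    have hUB : ∀ p : V n, UU γ τ I p ≤ B := by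
      intro p
      unfold UU
      rw [hB]
      gcongr with i hi
      have := ker_le_one hγ.le (2 ^ i.1 * ‖p - i.2‖)
      exact mul_le_of_le_one_right (by positivity) this
    apply surj_of_strong_mono (Phi γ τ m ε h I) C (c * (8 * (0 + 1) / (1 - γ) * B)⁻¹ ^ m) hC (by positivity)
    · intro x y
      have h1 := hup x y 1 (fun t _ => pow_le_one₀ (inv_nonneg.mpr (hUpos _).le)
        (inv_le_one_of_one_le₀ (UU_ge_one γ τ I _)))
      simpa using h1
    · intro x y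
      have h1 := hlow x y x 0 le_rfl (by simp)
      refine le_trans ?_ h1
      rw [mul_assoc]
      have h2 : (8 * (0 + 1) / (1 - γ) * B)⁻¹ ≤ (8 * (0 + 1) / (1 - γ) * UU γ τ I x)⁻¹ := by
        apply inv_anti₀
        · have := hUpos x; positivity
        · have := hUB x
          gcongr
      gcongr

end

end Pool.Agent.H86.QC
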