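import Mathlib
import Pool.Agent.H86.QC.Finite

/-!
The building block: a limit of the finite-level maps.
-/

namespace Pool.Agent.H86.QC

open MeasureTheory Set Filter Topology

noncomputable section

variable {n : ℕ}

/-- existence of a limit along an ultrafilter for a family of uniformly controlled maps -/
theorem ultra_limit {E : Type*} [NormedAddCommGroup E] [ProperSpace E] (F : ℕ → E → E)
    (L R : ℝ) (H : ℝ → ℝ) (hL : 0 ≤ L) (hR : 0 ≤ R)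
    (hlip : ∀ K x y, ‖F K y - F K x‖ ≤ L * ‖y - x‖)
    (hqs : ∀ K Λ, 0 ≤ Λ → ∀ x y z, ‖y - x‖ ≤ Λ * ‖z - x‖ → ‖F K y - F K x‖ ≤ H Λ * ‖F K z - F K x‖)
    (hid : ∀ K x, R ≤ ‖x‖ → F K x = x) (hsurj : ∀ K, Function.Surjective (F K))
    (hfar : ∀ B : ℝ, ∃ p : E, B ≤ ‖p‖) :
    ∃ Φ : E → E, Function.Bijective Φ ∧ (∀ x y, ‖Φ y - Φ x‖ ≤ L * ‖y - x‖) ∧
      (∀ Λ, 0 ≤ Λ → ∀ x y z, ‖y - x‖ ≤ Λ * ‖z - x‖ → ‖Φ y - Φ x‖ ≤ H Λ * ‖Φ z - Φ x‖) ∧
      (∀ x, R ≤ ‖x‖ → Φ x = x) ∧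
      (∀ x y C, (∀ᶠ K in atTop, ‖F K y - F K x‖ ≤ C) → ‖Φ y - Φ x‖ ≤ C) := by
  set U : Ultrafilter ℕ := hyperfilter ℕ with hU
  have hUtop : (U : Filter ℕ) ≤ atTop := Nat.hyperfilter_le_atTop
  obtain ⟨p0, hp0⟩ := hfar R
  have hex : ∀ x : E, ∃ y : E, Tendsto (fun K => F K x) U (𝓝 y) := by
    intro x
    have hmem : ∀ K, F K x ∈ Metric.closedBall p0 (L * ‖x - p0‖) := by
      intro K
      rw [mem_closedBall_iff_norm]
      have := hlip K p0 x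
      rwa [hid K p0 hp0] at this
    obtain ⟨y, _, hy⟩ := (isCompact_closedBall p0 (L * ‖x - p0‖)).ultrafilter_le_nhds
      (U.map fun K => F K x) (by
        rw [le_principal_iff]
        exact Filter.univ_mem' (f := (U : Filter ℕ)) hmem)
    exact ⟨y, hy⟩
  choose Φ hΦ using hex
  have hsub : ∀ x y, Tendsto (fun K => ‖F K y - F K x‖) U (𝓝 ‖Φ y - Φ x‖) :=
    fun x y => ((hΦ y).sub (hΦ x)).norm
  have hlipΦ : ∀ x y, ‖Φ y - Φ x‖ ≤ L * ‖y - x‖ := fun x y =>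
    le_of_tendsto (hsub x y) (Eventually.of_forall fun K => hlip K x y)
  have hqsΦ : ∀ Λ, 0 ≤ Λ → ∀ x y z, ‖y - x‖ ≤ Λ * ‖z - x‖ → ‖Φ y - Φ x‖ ≤ H Λ * ‖Φ z - Φ x‖ := by
    intro Λ hΛ x y z hyz
    exact le_of_tendsto_of_tendsto (hsub x y) ((hsub x z).const_mul (H Λ))
      (Eventually.of_forall fun K => hqs K Λ hΛ x y z hyz)
  have hidΦ : ∀ x, R ≤ ‖x‖ → Φ x = x := by
    intro x hx
    have h1 : Tendsto (fun K => F K x) U (𝓝 x) := by
      simp only [hid _ x hx]; exact tendsto_const_nhds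
    exact tendsto_nhds_unique (hΦ x) h1
  refine ⟨Φ, ⟨?_, ?_⟩, hlipΦ, hqsΦ, hidΦ, ?_⟩
  · -- injectivity
    intro x y hxy
    by_contra hne
    obtain ⟨p, hp⟩ := hfar (max R (‖Φ x‖ + 1))
    have hpR : R ≤ ‖p‖ := (le_max_left _ _).trans hp
    have hpx : ‖Φ x‖ + 1 ≤ ‖p‖ := (le_max_right _ _).trans hp
    have hyx : 0 < ‖y - x‖ := norm_pos_iff.mpr (sub_ne_zero.mpr (Ne.symm hne))
    have h1 := hqsΦ (‖p - x‖ / ‖y - x‖) (by positivity) x p y (by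
      rw [div_mul_cancel₀ _ hyx.ne'])
    rw [hxy, sub_self, norm_zero, mul_zero, hidΦ p hpR] at h1
    have h2 : p = Φ y := sub_eq_zero.mp (norm_le_zero_iff.mp h1)
    rw [h2, hxy] at hpx
    linarith
  · -- surjectivity
    intro p
    choose xs hxs using fun K => hsurj K p
    have hmem : ∀ K, xs K ∈ Metric.closedBall (0:E) (max R ‖p‖) := by
      intro K
      rw [mem_closedBall_zero_iff]
      by_cases hx : R ≤ ‖xs K‖
      · have h1 := hid K (xs K) hx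
        rw [hxs K] at h1
        rw [← h1]; exact le_max_right _ _
      · exact (not_le.mp hx).le.trans (le_max_left _ _)
    obtain ⟨x, _, hx⟩ := (isCompact_closedBall (0:E) (max R ‖p‖)).ultrafilter_le_nhds
      (U.map xs) (by
        rw [le_principal_iff]
        exact Filter.univ_mem' (f := (U : Filter ℕ)) hmem)
    have hx' : Tendsto xs U (𝓝 x) := hx
    refine ⟨x, ?_⟩
    have h1 : Tendsto (fun K => F K x) U (𝓝 p) := by
      rw [tendsto_iff_norm_sub_tendsto_zero]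
      have h2 : Tendsto (fun K => L * ‖x - xs K‖) U (𝓝 0) := by
        have h3 : Tendsto (fun K => ‖x - xs K‖) U (𝓝 ‖x - x‖) := (tendsto_const_nhds.sub hx').norm
        rw [sub_self, norm_zero] at h3
        simpa using h3.const_mul L
      refine squeeze_zero (fun _ => norm_nonneg _) (fun K => ?_) h2
      have := hlip K (xs K) x
      rwa [hxs K] at this
    exact tendsto_nhds_unique (hΦ x) h1
  · intro x y C hC
    exact le_of_tendsto (hsub x y) (hUtop hC)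

/-- the index set up to level `K` -/
def idx (Z : ℕ → Finset (V n)) (K : ℕ) : Finset (ℕ × V n) :=
  (Finset.range K).biUnion fun k => (Z k).map ⟨fun z => (k, z), fun _ _ h => (Prod.mk.inj h).2⟩

theorem mem_idx (Z : ℕ → Finset (V n)) (K : ℕ) (p : ℕ × V n) :
    p ∈ idx Z K ↔ p.1 ∈ Finset.range K ∧ p.2 ∈ Z p.1 := by
  unfold idx
  simp only [Finset.mem_biUnion, Finset.mem_range, Finset.mem_map]
  constructor
  · rintro ⟨k, hk, z, hz, rfl⟩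
    exact ⟨hk, hz⟩
  · rintro ⟨h1, h2⟩
    exact ⟨p.1, h1, p.2, h2, rfl⟩

/-- the point weight is bounded away from the unit ball -/
theorem UU_far {γ τ d C0 h' : ℝ} (hγ : 0 < γ) (hC0 : 0 ≤ C0) (hh' : 0 < h')
    (hq : d + τ - γ < 0) (Z : ℕ → Finset (V n)) (hcard : ∀ k, ((Z k).card : ℝ) ≤ C0 * 2 ^ (d * k))
    (K : ℕ) (p : V n) (hp : ∀ k, ∀ z ∈ Z k, h' ≤ ‖p - z‖) :
    UU γ τ (idx Z K) p ≤ 1 + C0 * h' ^ (-γ) * (1 - (2:ℝ) ^ (d + τ - γ))⁻¹ := by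
  unfold UU
  rw [Finset.sum_finset_product _ (Finset.range K) Z (mem_idx Z K)]
  have hq1 : (2:ℝ) ^ (d + τ - γ) < 1 := Real.rpow_lt_one_of_one_lt_of_neg (by norm_num) hq
  have hq0 : 0 ≤ (2:ℝ) ^ (d + τ - γ) := by positivity
  have hterm : ∀ k ∈ Finset.range K, ∑ z ∈ Z k, (2:ℝ) ^ (τ * (k:ℝ)) * ker γ (2 ^ k * ‖p - z‖) ≤
      C0 * h' ^ (-γ) * ((2:ℝ) ^ (d + τ - γ)) ^ k := by
    intro k _
    have h1 : ∀ z ∈ Z k, (2:ℝ) ^ (τ * (k:ℝ)) * ker γ (2 ^ k * ‖p - z‖) ≤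
        (2:ℝ) ^ (τ * (k:ℝ)) * ((2:ℝ) ^ k * h') ^ (-γ) := by
      intro z hz
      apply mul_le_mul_of_nonneg_left _ (by positivity)
      unfold ker
      apply Real.rpow_le_rpow_of_nonpos (by positivity)
      · rw [abs_of_nonneg (by positivity)]
        have := hp k z hz
        have h2 : (2:ℝ) ^ k * h' ≤ 2 ^ k * ‖p - z‖ := by gcongr
        linarith
      · linarith
    calc ∑ z ∈ Z k, (2:ℝ) ^ (τ * (k:ℝ)) * ker γ (2 ^ k * ‖p - z‖)
        ≤ ∑ z ∈ Z k, (2:ℝ) ^ (τ * (k:ℝ)) * ((2:ℝ) ^ k * h') ^ (-γ) := Finset.sum_le_sum h1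
      _ = (Z k).card * ((2:ℝ) ^ (τ * (k:ℝ)) * ((2:ℝ) ^ k * h') ^ (-γ)) := by
          rw [Finset.sum_const, nsmul_eq_mul]
      _ ≤ (C0 * 2 ^ (d * k)) * ((2:ℝ) ^ (τ * (k:ℝ)) * ((2:ℝ) ^ k * h') ^ (-γ)) := by
          gcongr
          exact hcard k
      _ = C0 * h' ^ (-γ) * ((2:ℝ) ^ (d + τ - γ)) ^ k := by
          rw [Real.mul_rpow (by positivity) hh'.le]
          have e1 : ((2:ℝ) ^ k) ^ (-γ) = (2:ℝ) ^ (-γ * k) := by
            rw [← Real.rpow_natCast, ← Real.rpow_mul (by norm_num)]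
            congr 1; ring
          have e2 : ((2:ℝ) ^ (d + τ - γ)) ^ k = (2:ℝ) ^ (d * k) * (2:ℝ) ^ (τ * k) * (2:ℝ) ^ (-γ * k) := by
            rw [← Real.rpow_natCast, ← Real.rpow_mul (by norm_num), ← Real.rpow_add (by norm_num),
              ← Real.rpow_add (by norm_num)]
            congr 1; ring
          rw [e1, e2]; ring
  have hsum := Finset.sum_le_sum hterm
  rw [← Finset.mul_sum] at hsum
  have hgeo : ∑ k ∈ Finset.range K, ((2:ℝ) ^ (d + τ - γ)) ^ k ≤ (1 - (2:ℝ) ^ (d + τ - γ))⁻¹ := by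
    rw [← tsum_geometric_of_lt_one hq0 hq1]
    exact (summable_geometric_of_lt_one hq0 hq1).sum_le_tsum _ (fun k _ => by positivity)
  have h3 : C0 * h' ^ (-γ) * ∑ k ∈ Finset.range K, ((2:ℝ) ^ (d + τ - γ)) ^ k ≤
      C0 * h' ^ (-γ) * (1 - (2:ℝ) ^ (d + τ - γ))⁻¹ := by
    apply mul_le_mul_of_nonneg_left hgeo (by positivity)
  linarith

/-- The building block. -/
theorem block (n : ℕ) {d C0 h : ℝ} (hd : d < 1) (hd0 : 0 ≤ d) (hC0 : 0 ≤ C0) (hh : 0 < h) (s : ℕ) :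
    ∃ L > 0, ∃ H : ℝ → ℝ, ∃ C1 > 0, ∀ A : Set (V n),
      (∀ k : ℕ, ∃ Z : Finset (V n), (Z.card : ℝ) ≤ C0 * 2 ^ (d * k) ∧ (∀ z ∈ Z, ‖z‖ ≤ 1) ∧
        ∀ x ∈ A, ∃ z ∈ Z, ‖x - z‖ ≤ 2 * (1 / 2) ^ k) → (∀ x ∈ A, ‖x‖ ≤ 1) →
      ∃ Φ : V n → V n, Function.Bijective Φ ∧ (∀ x y, ‖Φ y - Φ x‖ ≤ L * ‖y - x‖) ∧
        (∀ Λ, 0 ≤ Λ → ∀ x y z, ‖y - x‖ ≤ Λ * ‖z - x‖ → ‖Φ y - Φ x‖ ≤ H Λ * ‖Φ z - Φ x‖) ∧
        (∀ x, 1 + 3 * h ≤ ‖x‖ ^ 2 → Φ x = x) ∧
        (∀ x ∈ A, ∀ y, ‖y - x‖ ≤ 1 → ‖Φ y - Φ x‖ ≤ C1 * ‖y - x‖ ^ (s + 1)) := by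
  set γ : ℝ := (1 + d) / 2 with hγdef
  set τ : ℝ := (1 - d) / 4 with hτdef
  have hγ : 0 < γ := by rw [hγdef]; linarith
  have hγ1 : γ < 1 := by rw [hγdef]; linarith
  have hτ : 0 < τ := by rw [hτdef]; linarith
  have hq : d + τ - γ < 0 := by rw [hγdef, hτdef]; linarith
  have hN := NN_ge_one n
  -- exponent
  obtain ⟨m, hm⟩ : ∃ m : ℕ, (s : ℝ) ≤ τ * m := by
    obtain ⟨m, hm⟩ := exists_nat_ge ((s : ℝ) / τ)
    exact ⟨m, by rw [div_le_iff₀ hτ] at hm; linarith⟩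
  set h' : ℝ := Real.sqrt (1 + h) - 1 with hh'def
  have hh' : 0 < h' := by
    rw [hh'def, sub_pos]
    apply Real.lt_sqrt_of_sq_lt; linarith
  have hq1 : (2:ℝ) ^ (d + τ - γ) < 1 := Real.rpow_lt_one_of_one_lt_of_neg (by norm_num) hq
  set Cs : ℝ := 1 + C0 * h' ^ (-γ) * (1 - (2:ℝ) ^ (d + τ - γ))⁻¹ with hCsdef
  have hCs : 1 ≤ Cs := by
    have : 0 ≤ C0 * h' ^ (-γ) * (1 - (2:ℝ) ^ (d + τ - γ))⁻¹ := by
      have : 0 < 1 - (2:ℝ) ^ (d + τ - γ) := by linarith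
      positivity
    rw [hCsdef]; linarith
  obtain ⟨ε, hε, L, hL, H, hfin⟩ := finite_block (n := n) (τ := τ) hγ hγ1 m hh hCs
  set κ : ℝ := ker γ (3 * NN n) with hκdef
  have hκ : 0 < κ := ker_pos _ _
  set C2 : ℝ := ε * (2 ^ (n + 1) * NN n ^ 2 * (κ⁻¹ ^ m * 2 ^ s)) with hC2def
  have hC2 : 0 < C2 := by positivity
  refine ⟨L, hL, H, C2 + L * h'⁻¹ ^ s, by positivity, ?_⟩
  intro A hA hAball
  choose Z hZcard hZball hZcov using hA
  have hUfar : ∀ K, ∀ p : V n, 1 + h ≤ ‖p‖ ^ 2 → UU γ τ (idx Z K) p ≤ Cs := by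
    intro K p hp
    apply UU_far hγ hC0 hh' hq Z hZcard
    intro k z hz
    have h1 : Real.sqrt (1 + h) ≤ ‖p‖ := Real.sqrt_le_iff.mpr ⟨norm_nonneg _, hp⟩
    have h2 := hZball k z hz
    have h3 := norm_sub_norm_le p z
    rw [hh'def]; linarith
  set F : ℕ → V n → V n := fun K => Phi γ τ m ε h (idx Z K) with hF
  have hlip : ∀ K x y, ‖F K y - F K x‖ ≤ L * ‖y - x‖ := fun K => (hfin (idx Z K) (hUfar K)).1
  have hqs : ∀ K Λ, 0 ≤ Λ → ∀ x y z, ‖y - x‖ ≤ Λ * ‖z - x‖ → ‖F K y - F K x‖ ≤ H Λ * ‖F K z - F K x‖ :=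
    fun K => (hfin (idx Z K) (hUfar K)).2.1
  have hsurj : ∀ K, Function.Surjective (F K) := fun K => (hfin (idx Z K) (hUfar K)).2.2
  have hid2 : ∀ K x, 1 + 3 * h ≤ ‖x‖ ^ 2 → F K x = x := by
    intro K x hx
    simp only [hF, Phi]
    rw [cc_zero hh hx, rr_one hh hx]; simp
  have hid : ∀ K x, Real.sqrt (1 + 3 * h) ≤ ‖x‖ → F K x = x := by
    intro K x hx
    apply hid2
    have := (Real.sqrt_le_iff.mp hx).2
    exact this
  have hfar : ∀ B : ℝ, ∃ p : V n, B ≤ ‖p‖ := by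
    intro B
    refine ⟨EuclideanSpace.single 0 (|B|), ?_⟩
    rw [EuclideanSpace.norm_single, Real.norm_eq_abs, abs_abs]
    exact le_abs_self B
  obtain ⟨Φ, hbij, hΦlip, hΦqs, hΦid, hΦlim⟩ := ultra_limit F L (Real.sqrt (1 + 3 * h)) H hL.le
    (Real.sqrt_nonneg _) hlip hqs hid hsurj hfar
  refine ⟨Φ, hbij, hΦlip, hΦqs, fun x hx => hΦid x (Real.sqrt_le_iff.mpr ⟨norm_nonneg _, hx⟩), ?_⟩
  intro x hx y hyx
  have hCge1 : C2 ≤ C2 + L * h'⁻¹ ^ s := by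
    have : 0 ≤ L * h'⁻¹ ^ s := by positivity
    linarith
  have hCge2 : L * h'⁻¹ ^ s ≤ C2 + L * h'⁻¹ ^ s := by linarith
  by_cases hyball : ‖y‖ ^ 2 ≤ 1 + h
  · -- near: contraction
    rcases eq_or_ne y x with rfl | hne
    · simp
    have hpos : 0 < ‖y - x‖ := norm_pos_iff.mpr (sub_ne_zero.mpr hne)
    obtain ⟨k, hk1, hk2⟩ := exists_nat_pow_near_of_lt_one hpos hyx (by norm_num : (0:ℝ) < 1 / 2)
      (by norm_num)
    refine (hΦlim x y (C2 * ‖y - x‖ ^ (s + 1)) ?_).trans (by gcongr)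
    filter_upwards [eventually_gt_atTop k] with K hK
    have hxball := hAball x hx
    have hx2 : ‖x‖ ^ 2 ≤ 1 + h := by
      have : ‖x‖ ^ 2 ≤ 1 := pow_le_one₀ (norm_nonneg _) hxball
      linarith
    have hPx : F K x = ε • ff γ τ m (idx Z K) x := by
      simp only [hF, Phi]
      rw [cc_one hh (by linarith), rr_zero hh hx2]; simp
    have hPy : F K y = ε • ff γ τ m (idx Z K) y := by
      simp only [hF, Phi]
      rw [cc_one hh (by linarith), rr_zero hh hyball]; simp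
    rw [hPx, hPy, ← smul_sub, norm_smul, Real.norm_eq_abs, abs_of_pos hε]
    obtain ⟨z, hzZ, hz⟩ := hZcov k x hx
    have hWb : ∀ v ∈ Cube (n + 1), ∀ t ∈ Set.uIoc (lin x v) (lin y v),
        WW γ τ m (idx Z K) v t ≤ κ⁻¹ ^ m * (2 ^ s * ‖y - x‖ ^ s) := by
      intro v hv t ht
      have hmem : ((k, z) : ℕ × V n) ∈ idx Z K := (mem_idx Z K _).mpr ⟨Finset.mem_range.mpr hK, hzZ⟩
      have hdist : |lin z v - t| ≤ 3 * NN n * (1 / 2) ^ k := by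
        have h1 : |lin x v - t| ≤ |lin y v - lin x v| := by
          rcases Set.mem_uIoc.mp ht with ⟨h2, h3⟩ | ⟨h2, h3⟩
          · rw [abs_of_nonpos (by linarith), abs_of_nonneg (by linarith)]; linarith
          · rw [abs_of_nonneg (by linarith), abs_of_nonpos (by linarith)]; linarith
        have h2 := abs_lin_le (y - x) hv
        have h3 := abs_lin_le (z - x) hv
        rw [lin_sub] at h2 h3
        have h4 : |lin z v - t| ≤ |lin z v - lin x v| + |lin x v - t| := abs_sub_le _ _ _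
        rw [norm_sub_rev z x] at h3
        have h5 : NN n * ‖x - z‖ ≤ NN n * (2 * (1 / 2) ^ k) := by gcongr
        have h6 : NN n * ‖y - x‖ ≤ NN n * (1 / 2) ^ k := by gcongr
        linarith
      have hker : κ ≤ ker γ (2 ^ k * (lin z v - t)) := by
        rw [hκdef]
        apply ker_anti hγ.le
        rw [abs_mul, abs_of_pos (by positivity : (0:ℝ) < 2 ^ k), abs_of_pos (by positivity : (0:ℝ) < 3 * NN n)]
        calc (2:ℝ) ^ k * |lin z v - t| ≤ 2 ^ k * (3 * NN n * (1 / 2) ^ k) := by gcongr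
          _ = 3 * NN n * ((2:ℝ) * (1 / 2)) ^ k := by rw [mul_pow]; ring
          _ = 3 * NN n := by norm_num
      have hu : (2:ℝ) ^ (τ * k) * κ ≤ uu γ τ (idx Z K) v t := by
        unfold uu
        have h1 : (2:ℝ) ^ (τ * (k:ℝ)) * ker γ (2 ^ k * (lin z v - t)) ≤
            ∑ i ∈ idx Z K, (2:ℝ) ^ (τ * i.1) * ker γ (2 ^ i.1 * (lin i.2 v - t)) := by
          refine Finset.single_le_sum (f := fun i : ℕ × V n => (2:ℝ) ^ (τ * i.1) * ker γ (2 ^ i.1 * (lin i.2 v - t)))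
            (fun i _ => ?_) hmem
          have := ker_pos γ (2 ^ i.1 * (lin i.2 v - t))
          positivity
        have h2 : (2:ℝ) ^ (τ * (k:ℝ)) * κ ≤ (2:ℝ) ^ (τ * (k:ℝ)) * ker γ (2 ^ k * (lin z v - t)) := by gcongr
        linarith
      have hpos2 : 0 < (2:ℝ) ^ (τ * k) * κ := by positivity
      unfold WW
      have h3 : (uu γ τ (idx Z K) v t)⁻¹ ≤ ((2:ℝ) ^ (τ * k) * κ)⁻¹ := inv_anti₀ hpos2 hu
      have h4 : 0 ≤ (uu γ τ (idx Z K) v t)⁻¹ := by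
        have := uu_ge_one γ τ (idx Z K) v t
        positivity
      calc (uu γ τ (idx Z K) v t)⁻¹ ^ m ≤ ((2:ℝ) ^ (τ * k) * κ)⁻¹ ^ m := pow_le_pow_left₀ h4 h3 m
        _ = κ⁻¹ ^ m * ((2:ℝ) ^ (τ * k))⁻¹ ^ m := by rw [mul_inv, mul_pow]; ring
        _ ≤ κ⁻¹ ^ m * (2 ^ s * ‖y - x‖ ^ s) := by
          apply mul_le_mul_of_nonneg_left _ (by positivity)
          have e1 : ((2:ℝ) ^ (τ * k))⁻¹ ^ m = ((1 / 2 : ℝ) ^ k) ^ (τ * m) := by
            rw [← Real.rpow_neg (by norm_num), ← Real.rpow_natCast, ← Real.rpow_mul (by norm_num),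
              ← Real.rpow_natCast (1 / 2 : ℝ) k, ← Real.rpow_mul (by norm_num),
              one_div, Real.inv_rpow (by norm_num), ← Real.rpow_neg (by norm_num)]
            congr 1; ring
          have e2 : ((1 / 2 : ℝ) ^ k) ^ (τ * m) ≤ ((1 / 2 : ℝ) ^ k) ^ (s : ℝ) := by
            apply Real.rpow_le_rpow_of_exponent_ge (by positivity) _ hm
            exact pow_le_one₀ (by norm_num) (by norm_num)
          rw [e1]
          refine e2.trans ?_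
          rw [Real.rpow_natCast, ← mul_pow]
          apply pow_le_pow_left₀ (by positivity)
          have : (1 / 2 : ℝ) ^ (k + 1) = (1 / 2) ^ k / 2 := by rw [pow_succ]; ring
          linarith
    have hfs := ff_sub_le γ τ m (idx Z K) y x (κ⁻¹ ^ m * (2 ^ s * ‖y - x‖ ^ s)) (by positivity) hWb
    calc ε * ‖ff γ τ m (idx Z K) y - ff γ τ m (idx Z K) x‖
        ≤ ε * (2 ^ (n + 1) * NN n ^ 2 * (κ⁻¹ ^ m * (2 ^ s * ‖y - x‖ ^ s)) * ‖y - x‖) := by gcongr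
      _ = C2 * ‖y - x‖ ^ (s + 1) := by rw [hC2def]; ring
  · -- far: Lipschitz bound suffices
    push Not at hyball
    have h1 : Real.sqrt (1 + h) ≤ ‖y‖ := Real.sqrt_le_iff.mpr ⟨norm_nonneg _, hyball.le⟩
    have h2 := hAball x hx
    have h3 := norm_sub_norm_le y x
    have h4 : h' ≤ ‖y - x‖ := by rw [hh'def]; linarith
    have h5 : 1 ≤ (h'⁻¹ * ‖y - x‖) ^ s := by
      apply one_le_pow₀
      rw [← div_eq_inv_mul, le_div_iff₀ hh', one_mul]; exact h4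
    calc ‖Φ y - Φ x‖ ≤ L * ‖y - x‖ := hΦlip x y
      _ ≤ L * ‖y - x‖ * (h'⁻¹ * ‖y - x‖) ^ s := le_mul_of_one_le_right (by positivity) h5
      _ = L * h'⁻¹ ^ s * ‖y - x‖ ^ (s + 1) := by rw [mul_pow]; ring
      _ ≤ (C2 + L * h'⁻¹ ^ s) * ‖y - x‖ ^ (s + 1) := by gcongr

end

end Pool.Agent.H86.QC
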