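import Mathlib
import Pool.Agent.H86.QC.Limit
import Pool.Agent.H86.QC.LBox

/-!
Gluing building blocks over a coloured lattice.
-/

namespace Pool.Agent.H86.QC

open MeasureTheory Set Filter Topology

noncomputable section

section general

variable {E : Type*} [NormedAddCommGroup E]

/-- bijective Lipschitz maps of bounded displacement that are locally quasisymmetric -/
def Nice (F : E → E) : Prop :=
  Function.Bijective F ∧ (∃ D : ℝ, ∀ x, ‖F x - x‖ ≤ D) ∧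
  (∃ L : ℝ, 0 < L ∧ ∀ x y, ‖F y - F x‖ ≤ L * ‖y - x‖) ∧
  (∀ Λ : ℝ, 0 ≤ Λ → ∃ H : ℝ, ∀ x, ∃ r : ℝ, 0 < r ∧ ∀ y z, ‖y - x‖ < r → ‖z - x‖ < r →
    ‖y - x‖ ≤ Λ * ‖z - x‖ → ‖F y - F x‖ ≤ H * ‖F z - F x‖)

theorem Nice.id : Nice (fun x : E => x) :=
  ⟨Function.bijective_id, ⟨0, by simp⟩, ⟨1, one_pos, by simp⟩,
    fun Λ _ => ⟨Λ, fun _ => ⟨1, one_pos, fun _ _ _ _ h => h⟩⟩⟩

theorem Nice.comp {F G : E → E} (hG : Nice G) (hF : Nice F) : Nice (fun x => G (F x)) := by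
  obtain ⟨bG, ⟨DG, dG⟩, ⟨LG, lG0, lG⟩, qG⟩ := hG
  obtain ⟨bF, ⟨DF, dF⟩, ⟨LF, lF0, lF⟩, qF⟩ := hF
  refine ⟨bG.comp bF, ⟨DG + DF, fun x => ?_⟩, ⟨LG * LF, by positivity, fun x y => ?_⟩, ?_⟩
  · calc ‖G (F x) - x‖ = ‖(G (F x) - F x) + (F x - x)‖ := by congr 1; abel
      _ ≤ ‖G (F x) - F x‖ + ‖F x - x‖ := norm_add_le _ _
      _ ≤ DG + DF := add_le_add (dG _) (dF _)
  · calc ‖G (F y) - G (F x)‖ ≤ LG * ‖F y - F x‖ := lG _ _
      _ ≤ LG * (LF * ‖y - x‖) := by gcongr; exact lF _ _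
      _ = _ := by ring
  · intro Λ hΛ
    obtain ⟨HF, hHF⟩ := qF Λ hΛ
    obtain ⟨HG, hHG⟩ := qG (max HF 0) (le_max_right _ _)
    refine ⟨HG, fun x => ?_⟩
    obtain ⟨r1, hr1, h1⟩ := hHF x
    obtain ⟨r2, hr2, h2⟩ := hHG (F x)
    refine ⟨min r1 (r2 / LF), lt_min hr1 (by positivity), fun y z hy hz hyz => ?_⟩
    have hlt : ∀ y, ‖y - x‖ < min r1 (r2 / LF) → ‖F y - F x‖ < r2 := by
      intro y hy
      calc ‖F y - F x‖ ≤ LF * ‖y - x‖ := lF _ _
        _ < LF * (r2 / LF) := by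
          apply mul_lt_mul_of_pos_left _ lF0
          exact hy.trans_le (min_le_right _ _)
        _ = r2 := by field_simp
    apply h2 _ _ (hlt y hy) (hlt z hz)
    refine (h1 y z (hy.trans_le (min_le_left _ _)) (hz.trans_le (min_le_left _ _)) hyz).trans ?_
    gcongr
    exact le_max_left _ _

variable [NormedSpace ℝ E]

/-- a Lipschitz bound at distances at most one is global -/
theorem local_lip (F : E → E) (L : ℝ) (h : ∀ x y, ‖y - x‖ ≤ 1 → ‖F y - F x‖ ≤ L * ‖y - x‖) :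
    ∀ x y, ‖F y - F x‖ ≤ L * ‖y - x‖ := by
  have key : ∀ N : ℕ, ∀ x y, ‖y - x‖ ≤ N → ‖F y - F x‖ ≤ L * ‖y - x‖ := by
    intro N
    induction N with
    | zero =>
      intro x y hxy
      exact h x y (hxy.trans (by norm_num))
    | succ N ih =>
      intro x y hxy
      set t : ℝ := N / (N + 1) with ht
      have hN : (0:ℝ) < N + 1 := by positivity
      have ht0 : 0 ≤ t := by positivity
      have ht1 : 1 - t = 1 / (N + 1) := by rw [ht]; field_simp; ring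
      set m : E := x + t • (y - x) with hm
      have e1 : ‖m - x‖ = t * ‖y - x‖ := by
        rw [hm, add_sub_cancel_left, norm_smul, Real.norm_eq_abs, abs_of_nonneg ht0]
      have e2 : ‖y - m‖ = (1 - t) * ‖y - x‖ := by
        have : y - m = (1 - t) • (y - x) := by
          rw [hm, sub_smul, one_smul]; abel
        rw [this, norm_smul, Real.norm_eq_abs, abs_of_nonneg (by rw [ht1]; positivity)]
      push_cast at hxy
      have h1 : ‖m - x‖ ≤ N := by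
        rw [e1]
        calc t * ‖y - x‖ ≤ t * (N + 1) := by gcongr
          _ = N := by rw [ht]; field_simp
      have h2 : ‖y - m‖ ≤ 1 := by
        rw [e2, ht1]
        calc 1 / ((N:ℝ) + 1) * ‖y - x‖ ≤ 1 / ((N:ℝ) + 1) * (N + 1) := by gcongr
          _ = 1 := by field_simp
      calc ‖F y - F x‖ = ‖(F y - F m) + (F m - F x)‖ := by congr 1; abel
        _ ≤ ‖F y - F m‖ + ‖F m - F x‖ := norm_add_le _ _
        _ ≤ L * ‖y - m‖ + L * ‖m - x‖ := add_le_add (h m y h2) (ih x m h1)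
        _ = L * ‖y - x‖ := by rw [e1, e2]; ring
  intro x y
  obtain ⟨N, hN⟩ := exists_nat_ge ‖y - x‖
  exact key N x y hN

/-- gluing maps supported in far apart balls -/
theorem union_map {J : Type*} (y : J → E) (S : Set J)
    (hsep : ∀ i ∈ S, ∀ j ∈ S, i ≠ j → 8 ≤ ‖y i - y j‖) (Ψ : J → E → E) (L : ℝ) (H : ℝ → ℝ)
    (hbij : ∀ j, Function.Bijective (Ψ j)) (hlip : ∀ j x x', ‖Ψ j x' - Ψ j x‖ ≤ L * ‖x' - x‖)
    (hqs : ∀ j Λ, 0 ≤ Λ → ∀ x a b, ‖a - x‖ ≤ Λ * ‖b - x‖ → ‖Ψ j a - Ψ j x‖ ≤ H Λ * ‖Ψ j b - Ψ j x‖)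
    (hid : ∀ j x, 5 / 2 ≤ ‖x - y j‖ → Ψ j x = x) :
    ∃ F : E → E, Nice F ∧ (∀ j ∈ S, ∀ x, ‖x - y j‖ ≤ 3 → F x = Ψ j x) ∧
      (∀ x, (∀ j ∈ S, 3 ≤ ‖x - y j‖) → F x = x) := by
  classical
  set F : E → E := fun x => if h : ∃ j, j ∈ S ∧ ‖x - y j‖ < 3 then Ψ h.choose x else x with hF
  have huniq : ∀ i ∈ S, ∀ j ∈ S, ∀ a b : E, ‖a - y i‖ < 3 → ‖b - y j‖ < 3 → ‖a - b‖ ≤ 2 → i = j := by
    intro i hi j hj a b ha hb hab
    by_contra hne
    have h1 := hsep i hi j hj hne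
    have h2 : ‖y i - y j‖ ≤ ‖a - y i‖ + ‖a - b‖ + ‖b - y j‖ := by
      calc ‖y i - y j‖ = ‖-(a - y i) + (a - b) + (b - y j)‖ := by congr 1; abel
        _ ≤ ‖-(a - y i) + (a - b)‖ + ‖b - y j‖ := norm_add_le _ _
        _ ≤ ‖-(a - y i)‖ + ‖a - b‖ + ‖b - y j‖ := by gcongr; exact norm_add_le _ _
        _ = _ := by rw [norm_neg]
    linarith
  have P1 : ∀ j ∈ S, ∀ x, ‖x - y j‖ < 3 → F x = Ψ j x := by
    intro j hj x hx
    have hex : ∃ j, j ∈ S ∧ ‖x - y j‖ < 3 := ⟨j, hj, hx⟩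
    have h1 : F x = Ψ hex.choose x := by simp only [hF]; rw [dif_pos hex]
    rw [h1, huniq hex.choose hex.choose_spec.1 j hj x x hex.choose_spec.2 hx (by simp)]
  have P0 : ∀ x, (∀ j ∈ S, 3 ≤ ‖x - y j‖) → F x = x := by
    intro x hx
    have hex : ¬ ∃ j, j ∈ S ∧ ‖x - y j‖ < 3 := by
      rintro ⟨j, hj, h1⟩
      exact absurd (hx j hj) (not_le.mpr h1)
    simp only [hF]; rw [dif_neg hex]
  have P3 : ∀ j ∈ S, ∀ x, ‖x - y j‖ ≤ 3 → F x = Ψ j x := by
    intro j hj x hx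
    rcases hx.lt_or_eq with h1 | h1
    · exact P1 j hj x h1
    · rw [hid j x (by rw [h1]; norm_num)]
      apply P0
      intro i hi
      by_contra h2
      push Not at h2
      by_cases hij : i = j
      · rw [hij, h1] at h2; exact lt_irrefl _ h2
      · have h3 := hsep i hi j hj hij
        have h4 : ‖y i - y j‖ ≤ ‖x - y i‖ + ‖x - y j‖ := by
          calc ‖y i - y j‖ = ‖(x - y j) - (x - y i)‖ := by congr 1; abel
            _ ≤ ‖x - y j‖ + ‖x - y i‖ := norm_sub_le _ _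
            _ = _ := add_comm _ _
        linarith
  have Pstay : ∀ j x, ‖x - y j‖ < 3 → ‖Ψ j x - y j‖ < 3 := by
    intro j x hx
    by_contra h
    push Not at h
    have h1 := hid j (Ψ j x) (by linarith)
    have h2 := (hbij j).1 h1
    rw [h2] at h
    exact absurd hx (not_lt.mpr h)
  -- local agreement
  have hloc : ∀ x, ∃ G : E → E, (∀ a, ‖a - x‖ ≤ 1 → F a = G a) ∧
      (∀ a b, ‖G b - G a‖ ≤ max L 1 * ‖b - a‖) ∧
      (∀ Λ, 0 ≤ Λ → ∀ p a b, ‖a - p‖ ≤ Λ * ‖b - p‖ → ‖G a - G p‖ ≤ max (H Λ) Λ * ‖G b - G p‖) := by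
    intro x
    by_cases hcase : ∃ a j, j ∈ S ∧ ‖a - x‖ ≤ 1 ∧ ‖a - y j‖ < 3
    · obtain ⟨a0, j, hj, ha0, ha0j⟩ := hcase
      refine ⟨Ψ j, ?_, ?_, ?_⟩
      · intro a ha
        by_cases h1 : ‖a - y j‖ < 3
        · exact P1 j hj a h1
        · push Not at h1
          rw [hid j a (by linarith)]
          apply P0
          intro i hi
          by_contra h2
          push Not at h2
          have h3 : i = j := by
            apply huniq i hi j hj a a0 h2 ha0j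
            calc ‖a - a0‖ = ‖(a - x) - (a0 - x)‖ := by congr 1; abel
              _ ≤ ‖a - x‖ + ‖a0 - x‖ := norm_sub_le _ _
              _ ≤ 2 := by linarith
          rw [h3] at h2
          exact absurd h1 (not_le.mpr h2)
      · intro a b
        refine (hlip j a b).trans ?_
        gcongr
        exact le_max_left _ _
      · intro Λ hΛ p a b hab
        refine (hqs j Λ hΛ p a b hab).trans ?_
        gcongr
        exact le_max_left _ _
    · push Not at hcase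
      refine ⟨fun x => x, ?_, ?_, ?_⟩
      · intro a ha
        apply P0
        intro j hj
        exact hcase a j hj ha
      · intro a b
        have : (1:ℝ) ≤ max L 1 := le_max_right _ _
        nlinarith [norm_nonneg (b - a)]
      · intro Λ _ p a b hab
        refine hab.trans ?_
        gcongr
        exact le_max_right _ _
  refine ⟨F, ⟨⟨?_, ?_⟩, ⟨6, ?_⟩, ⟨max L 1, by positivity, ?_⟩, ?_⟩, P3, P0⟩
  · -- injective
    intro a b hab
    by_cases ha : ∃ j, j ∈ S ∧ ‖a - y j‖ < 3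
    · obtain ⟨j, hj, haj⟩ := ha
      have hFa := P1 j hj a haj
      by_cases hb : ∃ i, i ∈ S ∧ ‖b - y i‖ < 3
      · obtain ⟨i, hi, hbi⟩ := hb
        have hFb := P1 i hi b hbi
        have hij : j = i := huniq j hj i hi (F a) (F b) (by rw [hFa]; exact Pstay j a haj)
          (by rw [hFb]; exact Pstay i b hbi) (by rw [hab]; simp)
        subst hij
        rw [hFa, hFb] at hab
        exact (hbij j).1 hab
      · push Not at hb
        have hFb := P0 b hb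
        have h1 := Pstay j a haj
        rw [← hFa, hab, hFb] at h1
        exact absurd (hb j hj) (not_le.mpr h1)
    · push Not at ha
      have hFa := P0 a ha
      by_cases hb : ∃ i, i ∈ S ∧ ‖b - y i‖ < 3
      · obtain ⟨i, hi, hbi⟩ := hb
        have hFb := P1 i hi b hbi
        have h1 := Pstay i b hbi
        rw [← hFb, ← hab, hFa] at h1
        exact absurd (ha i hi) (not_le.mpr h1)
      · push Not at hb
        rw [hFa, P0 b hb] at hab
        exact hab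
  · -- surjective
    intro p
    by_cases hp : ∃ j, j ∈ S ∧ ‖p - y j‖ < 3
    · obtain ⟨j, hj, hpj⟩ := hp
      obtain ⟨x, hx⟩ := (hbij j).2 p
      have hxj : ‖x - y j‖ < 3 := by
        by_contra h
        push Not at h
        have h1 := hid j x (by linarith)
        rw [h1] at hx
        rw [hx] at h
        exact absurd hpj (not_lt.mpr h)
      exact ⟨x, by rw [P1 j hj x hxj, hx]⟩
    · push Not at hp
      exact ⟨p, P0 p hp⟩
  · -- displacement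
    intro x
    by_cases hx : ∃ j, j ∈ S ∧ ‖x - y j‖ < 3
    · obtain ⟨j, hj, hxj⟩ := hx
      rw [P1 j hj x hxj]
      have h1 := Pstay j x hxj
      calc ‖Ψ j x - x‖ = ‖(Ψ j x - y j) - (x - y j)‖ := by congr 1; abel
        _ ≤ ‖Ψ j x - y j‖ + ‖x - y j‖ := norm_sub_le _ _
        _ ≤ 6 := by linarith
    · push Not at hx
      rw [P0 x hx]; simp
  · -- Lipschitz
    apply local_lip
    intro x x' hx
    obtain ⟨G, hG1, hG2, _⟩ := hloc x
    rw [hG1 x (by simp), hG1 x' hx]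
    exact hG2 x x'
  · -- quasisymmetry
    intro Λ hΛ
    refine ⟨max (H Λ) Λ, fun x => ?_⟩
    obtain ⟨G, hG1, _, hG3⟩ := hloc x
    refine ⟨1, one_pos, fun a b ha hb hab => ?_⟩
    rw [hG1 x (by simp), hG1 a ha.le, hG1 b hb.le]
    exact hG3 Λ hΛ x a b hab

end general

/-! ### The lattice -/

variable {n : ℕ}

/-- lattice points -/
def pt (n : ℕ) (j : Fin (n + 1) → ℤ) : V n := WithLp.toLp 2 fun i => (j i : ℝ) / (n + 1 : ℕ)

/-- colours -/
def col (n : ℕ) (j : Fin (n + 1) → ℤ) : Fin (n + 1) → ZMod (8 * (n + 1)) := fun i => (j i : ZMod (8 * (n + 1)))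

theorem pt_cover (x : V n) : ∃ j, ‖x - pt n j‖ ≤ 1 := by
  refine ⟨fun i => round ((n + 1 : ℕ) * x i), ?_⟩
  have hM : (1:ℝ) ≤ (n + 1 : ℕ) := by exact_mod_cast Nat.succ_le_succ (Nat.zero_le n)
  have hM0 : (0:ℝ) < (n + 1 : ℕ) := by linarith
  have h1 : ‖x - pt n (fun i => round ((n + 1 : ℕ) * x i))‖ ^ 2 ≤ 1 ^ 2 := by
    rw [EuclideanSpace.norm_sq_eq]
    calc ∑ i, ‖(x - pt n (fun i => round ((n + 1 : ℕ) * x i))) i‖ ^ 2
        ≤ ∑ i : Fin (n + 1), (1:ℝ) / (n + 1 : ℕ) := by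
          apply Finset.sum_le_sum
          intro i _
          have h2 : (x - pt n (fun i => round ((n + 1 : ℕ) * x i))) i =
              ((n + 1 : ℕ) * x i - round ((n + 1 : ℕ) * x i)) / (n + 1 : ℕ) := by
            simp only [pt, PiLp.sub_apply]
            field_simp
          rw [h2, norm_div, div_pow, Real.norm_eq_abs, Real.norm_eq_abs, abs_of_pos hM0]
          have h3 := abs_sub_round ((n + 1 : ℕ) * x i)
          have h4 : |((n + 1 : ℕ) : ℝ) * x i - round (((n + 1 : ℕ) : ℝ) * x i)| ^ 2 ≤ 1 := by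
            apply pow_le_one₀ (abs_nonneg _)
            linarith
          rw [div_le_div_iff₀ (by positivity) hM0]
          nlinarith
      _ = 1 ^ 2 := by
          rw [Finset.sum_const, Finset.card_univ, Fintype.card_fin, nsmul_eq_mul]
          field_simp
  exact le_of_sq_le_sq h1 zero_le_one

theorem pt_sep {i j : Fin (n + 1) → ℤ} (h : col n i = col n j) (hne : i ≠ j) :
    8 ≤ ‖pt n i - pt n j‖ := by
  obtain ⟨k, hk⟩ := Function.ne_iff.mp hne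
  have h1 := congrFun h k
  unfold col at h1
  rw [← sub_eq_zero, ← Int.cast_sub, ZMod.intCast_zmod_eq_zero_iff_dvd] at h1
  have h2 : ((8 * (n + 1) : ℕ) : ℤ) ≤ |i k - j k| := by
    apply Int.le_of_dvd (abs_pos.mpr (sub_ne_zero.mpr hk))
    exact (dvd_abs _ _).mpr h1
  have hM0 : (0:ℝ) < (n + 1 : ℕ) := by positivity
  have h3 : (8 * (n + 1 : ℕ) : ℝ) ≤ |(i k : ℝ) - j k| := by exact_mod_cast h2
  have h4 : ‖(pt n i - pt n j) k‖ ≤ ‖pt n i - pt n j‖ := PiLp.norm_apply_le _ k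
  refine le_trans ?_ h4
  have h5 : (pt n i - pt n j) k = ((i k : ℝ) - j k) / (n + 1 : ℕ) := by
    simp only [pt, PiLp.sub_apply]
    ring
  rw [h5, norm_div, Real.norm_eq_abs, Real.norm_eq_abs, abs_of_pos hM0, le_div_iff₀ hM0]
  exact h3

/-- the rescaled building block attached to one lattice point -/
theorem piece {d C3 w : ℝ} (hw0 : 0 < w) (hw1 : w ≤ 1 / 2) (s : ℕ)
    {L C1 : ℝ} {H : ℝ → ℝ} (hC1 : 0 < C1)
    (hblock : ∀ A : Set (V n),
      (∀ k : ℕ, ∃ Z : Finset (V n), (Z.card : ℝ) ≤ C3 * 2 ^ (d * k) ∧ (∀ z ∈ Z, ‖z‖ ≤ 1) ∧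
        ∀ x ∈ A, ∃ z ∈ Z, ‖x - z‖ ≤ 2 * (1 / 2) ^ k) → (∀ x ∈ A, ‖x‖ ≤ 1) →
      ∃ Φ : V n → V n, Function.Bijective Φ ∧ (∀ x y, ‖Φ y - Φ x‖ ≤ L * ‖y - x‖) ∧
        (∀ Λ, 0 ≤ Λ → ∀ x y z, ‖y - x‖ ≤ Λ * ‖z - x‖ → ‖Φ y - Φ x‖ ≤ H Λ * ‖Φ z - Φ x‖) ∧
        (∀ x, 1 + 3 * (w / 2) ≤ ‖x‖ ^ 2 → Φ x = x) ∧
        (∀ x ∈ A, ∀ y, ‖y - x‖ ≤ 1 → ‖Φ y - Φ x‖ ≤ C1 * ‖y - x‖ ^ (s + 1)))
    (A : Set (V n)) (y0 : V n)
    (hcov : ∀ r : ℝ, 0 < r → r ≤ 1 →
      ∃ Z : Finset (V n), (Z.card : ℝ) ≤ C3 * r ^ (-d) ∧ ∀ a ∈ A, ‖a - y0‖ ≤ 3 → ∃ z ∈ Z, ‖a - z‖ ≤ r)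
    (ρ : ℝ) (hρ1 : 1 ≤ ρ) (hρ2 : ρ ≤ 2) :
    ∃ Ψ : V n → V n, Function.Bijective Ψ ∧ (∀ x y, ‖Ψ y - Ψ x‖ ≤ L * ‖y - x‖) ∧
        (∀ Λ, 0 ≤ Λ → ∀ x y z, ‖y - x‖ ≤ Λ * ‖z - x‖ → ‖Ψ y - Ψ x‖ ≤ H Λ * ‖Ψ z - Ψ x‖) ∧
        (∀ x, ρ + 2 * w ≤ ‖x - y0‖ → Ψ x = x) ∧
        (∀ x ∈ A, ‖x - y0‖ ≤ ρ → ∀ y, ‖y - x‖ ≤ 1 → ‖Ψ y - Ψ x‖ ≤ C1 * ‖y - x‖ ^ (s + 1)) := by
  classical
  have hρ0 : 0 < ρ := by linarith
  set B : Set (V n) := {u | ‖u‖ ≤ 1 ∧ y0 + ρ • u ∈ A} with hB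
  obtain ⟨Φ, hbij, hlip, hqs, hid, hcon⟩ := hblock B (by
    intro k
    obtain ⟨Z, hZ1, hZ2⟩ := hcov ((1 / 2) ^ k) (by positivity) (pow_le_one₀ (by norm_num) (by norm_num))
    have hch : ∀ z : V n, ∃ b : V n, ‖b‖ ≤ 1 ∧
        ((∃ u ∈ B, ‖y0 + ρ • u - z‖ ≤ (1 / 2) ^ k) → ‖y0 + ρ • b - z‖ ≤ (1 / 2) ^ k) := by
      intro z
      by_cases hz : ∃ u ∈ B, ‖y0 + ρ • u - z‖ ≤ (1 / 2) ^ k
      · obtain ⟨u, hu, huz⟩ := hz
        exact ⟨u, hu.1, fun _ => huz⟩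
      · exact ⟨0, by simp, fun h => absurd h hz⟩
    choose b hb1 hb2 using hch
    refine ⟨Z.image b, ?_, ?_, ?_⟩
    · have h1 : ((Z.image b).card : ℝ) ≤ Z.card := by exact_mod_cast Finset.card_image_le
      refine h1.trans (hZ1.trans (le_of_eq ?_))
      rw [← Real.rpow_natCast, ← Real.rpow_mul (by norm_num), one_div, Real.inv_rpow (by norm_num),
        ← Real.rpow_neg (by norm_num)]
      congr 2; ring
    · intro z hz
      obtain ⟨z', _, rfl⟩ := Finset.mem_image.mp hz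
      exact hb1 z'
    · intro u hu
      obtain ⟨z, hz, huz⟩ := hZ2 (y0 + ρ • u) hu.2 (by
        rw [add_sub_cancel_left, norm_smul, Real.norm_eq_abs, abs_of_pos hρ0]
        nlinarith [hu.1, norm_nonneg u])
      refine ⟨b z, Finset.mem_image_of_mem _ hz, ?_⟩
      have h1 := hb2 z ⟨u, hu, huz⟩
      have h2 : ρ * ‖u - b z‖ ≤ 2 * (1 / 2) ^ k := by
        calc ρ * ‖u - b z‖ = ‖(y0 + ρ • u - z) - (y0 + ρ • b z - z)‖ := by
              rw [show (y0 + ρ • u - z) - (y0 + ρ • b z - z) = ρ • (u - b z) by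
                rw [smul_sub]; abel, norm_smul, Real.norm_eq_abs, abs_of_pos hρ0]
          _ ≤ ‖y0 + ρ • u - z‖ + ‖y0 + ρ • b z - z‖ := norm_sub_le _ _
          _ ≤ 2 * (1 / 2) ^ k := by linarith
      nlinarith [norm_nonneg (u - b z)]) (fun x hx => hx.1)
  set q : V n → V n := fun x => ρ⁻¹ • (x - y0) with hq
  have hqsub : ∀ x y, ‖q y - q x‖ = ρ⁻¹ * ‖y - x‖ := by
    intro x y
    simp only [hq]
    rw [← smul_sub, norm_smul, Real.norm_eq_abs, abs_of_pos (inv_pos.mpr hρ0), sub_sub_sub_cancel_right]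
  have hqinv : ∀ x, y0 + ρ • q x = x := by
    intro x
    simp only [hq]
    rw [smul_smul, mul_inv_cancel₀ hρ0.ne', one_smul]; abel
  have hqb : Function.Bijective q := by
    constructor
    · intro x y hxy
      rw [← hqinv x, ← hqinv y, hxy]
    · intro u
      refine ⟨y0 + ρ • u, ?_⟩
      simp only [hq]
      rw [add_sub_cancel_left, smul_smul, inv_mul_cancel₀ hρ0.ne', one_smul]
  have hob : Function.Bijective (fun u : V n => y0 + ρ • u) := by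
    constructor
    · intro x y hxy
      have h1 : ρ • x = ρ • y := add_left_cancel hxy
      exact smul_right_injective _ hρ0.ne' h1
    · intro x
      exact ⟨q x, hqinv x⟩
  have hΨsub : ∀ x y, ‖(y0 + ρ • Φ (q y)) - (y0 + ρ • Φ (q x))‖ = ρ * ‖Φ (q y) - Φ (q x)‖ := by
    intro x y
    rw [add_sub_add_left_eq_sub, ← smul_sub, norm_smul, Real.norm_eq_abs, abs_of_pos hρ0]
  refine ⟨fun x => y0 + ρ • Φ (q x), hob.comp (hbij.comp hqb), ?_, ?_, ?_, ?_⟩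
  · intro x y
    rw [hΨsub]
    have := hlip (q x) (q y)
    rw [hqsub] at this
    calc ρ * ‖Φ (q y) - Φ (q x)‖ ≤ ρ * (L * (ρ⁻¹ * ‖y - x‖)) := by gcongr
      _ = L * ‖y - x‖ := by field_simp
  · intro Λ hΛ x y z hyz
    rw [hΨsub, hΨsub]
    have := hqs Λ hΛ (q x) (q y) (q z) (by
      rw [hqsub, hqsub]
      have : 0 < ρ⁻¹ := inv_pos.mpr hρ0
      nlinarith)
    calc ρ * ‖Φ (q y) - Φ (q x)‖ ≤ ρ * (H Λ * ‖Φ (q z) - Φ (q x)‖) := by gcongr
      _ = _ := by ring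
  · intro x hx
    have h1 : Φ (q x) = q x := by
      apply hid
      have h2 : 1 + w ≤ ‖q x‖ := by
        simp only [hq]
        rw [norm_smul, Real.norm_eq_abs, abs_of_pos (inv_pos.mpr hρ0), ← div_eq_inv_mul, le_div_iff₀ hρ0]
        nlinarith
      have h3 : (1 + w) ^ 2 ≤ ‖q x‖ ^ 2 := pow_le_pow_left₀ (by linarith) h2 2
      nlinarith
    simp only
    rw [h1, hqinv]
  · intro x hxA hx y hyx
    rw [hΨsub]
    have hqB : q x ∈ B := by
      refine ⟨?_, by rw [hqinv]; exact hxA⟩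
      simp only [hq]
      rw [norm_smul, Real.norm_eq_abs, abs_of_pos (inv_pos.mpr hρ0), ← div_eq_inv_mul, div_le_one hρ0]
      exact hx
    have hinv1 : ρ⁻¹ ≤ 1 := inv_le_one_of_one_le₀ hρ1
    have h1 := hcon (q x) hqB (q y) (by
      rw [hqsub]
      calc ρ⁻¹ * ‖y - x‖ ≤ 1 * 1 := by gcongr
        _ = 1 := one_mul 1)
    rw [hqsub] at h1
    calc ρ * ‖Φ (q y) - Φ (q x)‖ ≤ ρ * (C1 * (ρ⁻¹ * ‖y - x‖) ^ (s + 1)) := by gcongr
      _ = (ρ * ρ⁻¹) * ρ⁻¹ ^ s * (C1 * ‖y - x‖ ^ (s + 1)) := by rw [mul_pow, pow_succ]; ring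
      _ ≤ 1 * 1 * (C1 * ‖y - x‖ ^ (s + 1)) := by
          rw [mul_inv_cancel₀ hρ0.ne']
          gcongr
          exact pow_le_one₀ (inv_pos.mpr hρ0).le hinv1
      _ = _ := by ring

/-- The main construction. -/
theorem core (n : ℕ) {d : ℝ} (hd0 : 0 ≤ d) (hd : d < 1) (A : Set (V n)) (hA : LBox d A) {ε : ℝ}
    (hε : 0 < ε) : ∃ G : V n → V n, Nice G ∧ LBox ε (G '' A) := by
  classical
  obtain ⟨C3, hC3, hcov⟩ := hA.radius 3
  obtain ⟨w, hw0, hw1, hsph⟩ := exists_sphere hA hd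
  choose t ht1 ht2 ht3 using hsph
  obtain ⟨s, hs⟩ : ∃ s : ℕ, d / (s + 1 : ℕ) ≤ ε := by
    obtain ⟨s, hs⟩ := exists_nat_ge (d / ε)
    refine ⟨s, ?_⟩
    rw [div_le_iff₀ (by positivity)]
    rw [div_le_iff₀ hε] at hs
    push_cast
    nlinarith
  obtain ⟨L, hL, H, C1, hC1, hblock⟩ := block n hd hd0 hC3 (by positivity : 0 < w / 2) s
  have hpiece := fun j : Fin (n + 1) → ℤ => piece (n := n) hw0 hw1 s hC1 hblock A (pt n j)
    (fun r hr hr1 => hcov (pt n j) r hr hr1) (t (pt n j) - w) (by linarith [ht1 (pt n j)])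
    (by linarith [ht2 (pt n j)])
  choose Ψ hΨbij hΨlip hΨqs hΨid hΨcon using hpiece
  have : NeZero (8 * (n + 1)) := ⟨by omega⟩
  -- one colour
  have hone : ∀ κ : Fin (n + 1) → ZMod (8 * (n + 1)), ∃ F : V n → V n, Nice F ∧
      (∀ j, col n j = κ → ∀ x ∈ A, ‖x - pt n j‖ ≤ t (pt n j) - w →
        ∀ y, ‖y - x‖ ≤ 1 → ‖F y - F x‖ ≤ C1 * ‖y - x‖ ^ (s + 1)) ∧
      (∀ x ∈ A, (∀ j, col n j = κ → t (pt n j) - w < ‖x - pt n j‖) → F x = x) := by
    intro κ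
    obtain ⟨F, hF1, hF2, hF3⟩ := union_map (pt n) {j | col n j = κ}
      (fun i hi j hj hij => pt_sep (hi.trans hj.symm) hij) Ψ L H hΨbij hΨlip hΨqs
      (fun j x hx => hΨid j x (by linarith [ht2 (pt n j)]))
    refine ⟨F, hF1, ?_, ?_⟩
    · intro j hj x hxA hx y hyx
      have hx3 : ‖x - pt n j‖ ≤ 3 := by linarith [ht2 (pt n j)]
      have hy3 : ‖y - pt n j‖ ≤ 3 := by
        calc ‖y - pt n j‖ = ‖(y - x) + (x - pt n j)‖ := by congr 1; abel
          _ ≤ ‖y - x‖ + ‖x - pt n j‖ := norm_add_le _ _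
          _ ≤ 3 := by linarith [ht2 (pt n j)]
      rw [hF2 j hj x hx3, hF2 j hj y hy3]
      exact hΨcon j x hxA hx y hyx
    · intro x hxA hx
      by_cases hcase : ∃ j, col n j = κ ∧ ‖x - pt n j‖ < 3
      · obtain ⟨j, hj, hxj⟩ := hcase
        rw [hF2 j hj x hxj.le]
        apply hΨid
        have h1 := ht3 (pt n j) x hxA
        have h2 := hx j hj
        rcases le_abs.mp h1 with h3 | h3
        · linarith
        · linarith
      · push Not at hcase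
        exact hF3 x hcase
  choose F hF1 hF2 hF3 using hone
  -- induction over colours
  have hind : ∀ S : Finset (Fin (n + 1) → ZMod (8 * (n + 1))), ∃ G : V n → V n, Nice G ∧
      (∀ x ∈ A, (∀ j, col n j ∈ S → t (pt n j) - w < ‖x - pt n j‖) → G x = x) ∧
      LBox ε (G '' {x | x ∈ A ∧ ∃ j, col n j ∈ S ∧ ‖x - pt n j‖ ≤ t (pt n j) - w}) := by
    intro S
    induction S using Finset.induction_on with
    | empty =>
      refine ⟨fun x => x, Nice.id, fun _ _ _ => rfl, ?_⟩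
      have : {x : V n | x ∈ A ∧ ∃ j, col n j ∈ (∅ : Finset (Fin (n + 1) → ZMod (8 * (n + 1)))) ∧
          ‖x - pt n j‖ ≤ t (pt n j) - w} = ∅ := by
        ext x; simp
      rw [this, Set.image_empty]
      exact LBox.empty ε
    | insert κ S hκ ih =>
      obtain ⟨G, hG1, hG2, hG3⟩ := ih
      refine ⟨fun x => F κ (G x), (hF1 κ).comp hG1, ?_, ?_⟩
      · intro x hxA hx
        show F κ (G x) = x
        rw [hG2 x hxA (fun j hj => hx j (Finset.mem_insert_of_mem hj))]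
        exact hF3 κ x hxA (fun j hj => hx j (by rw [hj]; exact Finset.mem_insert_self _ _))
      · obtain ⟨-, ⟨D, hD⟩, ⟨LF, hLF0, hLF⟩, -⟩ := hF1 κ
        -- already treated part
        have h1 : LBox ε (F κ '' (G '' {x | x ∈ A ∧ ∃ j, col n j ∈ S ∧ ‖x - pt n j‖ ≤ t (pt n j) - w})) := by
          have := hG3.image (F κ) D LF 0 hD hLF0 (fun x _ y _ => by simpa using hLF x y)
          simpa using this
        -- newly treated part
        have h2 : LBox ε (F κ '' {x | x ∈ A ∧ ∃ j, col n j = κ ∧ ‖x - pt n j‖ ≤ t (pt n j) - w}) := by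
          have h3 : LBox d {x | x ∈ A ∧ ∃ j, col n j = κ ∧ ‖x - pt n j‖ ≤ t (pt n j) - w} :=
            hA.subset (fun x hx => hx.1)
          have h4 := h3.image (F κ) D C1 s hD hC1 (by
            rintro x ⟨hxA, j, hj, hxj⟩ y hyx
            exact hF2 κ j hj x hxA hxj y hyx)
          exact h4.mono hs
        refine (h1.union h2).subset ?_
        rintro _ ⟨x, ⟨hxA, j, hj, hxj⟩, rfl⟩
        by_cases hS : ∃ i, col n i ∈ S ∧ ‖x - pt n i‖ ≤ t (pt n i) - w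
        · left
          exact ⟨G x, ⟨x, ⟨hxA, hS⟩, rfl⟩, rfl⟩
        · right
          push Not at hS
          have hGx := hG2 x hxA hS
          refine ⟨x, ⟨hxA, j, ?_, hxj⟩, by simp only [hGx]⟩
          rcases Finset.mem_insert.mp hj with h5 | h5
          · exact h5
          · exact absurd hxj (not_le.mpr (hS j h5))
  obtain ⟨G, hG1, _, hG3⟩ := hind Finset.univ
  refine ⟨G, hG1, ?_⟩
  convert hG3 using 2
  ext x
  constructor
  · intro hx
    obtain ⟨j, hj⟩ := pt_cover x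
    exact ⟨hx, j, Finset.mem_univ _, by linarith [ht1 (pt n j)]⟩
  · intro hx
    exact hx.1

end

end Pool.Agent.H86.QC
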