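import Mathlib
import Pool.Agent.H86.QC.Defs
import Pool.Agent.H86.QC.Glue

/-!
From dimensions to uniform local covering numbers and back.
-/

namespace Pool.Agent.H86.QC

open MeasureTheory Set Filter Topology

noncomputable section

variable {E : Type*} [NormedAddCommGroup E]

/-- extracting a cover by balls from a bound on the covering number -/
theorem centers_of_lt {r B : ℝ} {F : Set E} (hr : 0 ≤ r) (h : coverNumber r F < ENNReal.ofReal B) :
    ∃ Z : Finset E, (Z.card : ℝ) ≤ B ∧ ∀ a ∈ F, ∃ z ∈ Z, ‖a - z‖ ≤ r := by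
  classical
  unfold coverNumber at h
  obtain ⟨S, hS⟩ := iInf_lt_iff.mp h
  obtain ⟨⟨hS1, hS2⟩, hS3⟩ := iInf_lt_iff.mp hS
  have hB : 0 < B := by
    by_contra hB
    rw [ENNReal.ofReal_of_nonpos (not_lt.mp hB)] at hS3
    exact absurd hS3 (not_lt.mpr bot_le)
  have hcard : (S.card : ℝ) ≤ B := by
    have h1 : ENNReal.ofReal (S.card : ℝ) < ENNReal.ofReal B := by rwa [ENNReal.ofReal_natCast]
    exact ((ENNReal.ofReal_lt_ofReal_iff hB).mp h1).le
  have hch : ∀ s : Set E, ∃ b : E, s.Nonempty → b ∈ s := by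
    intro s
    by_cases hs : s.Nonempty
    · obtain ⟨b, hb⟩ := hs
      exact ⟨b, fun _ => hb⟩
    · exact ⟨0, fun h => absurd h hs⟩
  choose b hb using hch
  refine ⟨S.image b, ?_, ?_⟩
  · have : ((S.image b).card : ℝ) ≤ S.card := by exact_mod_cast Finset.card_image_le
    linarith
  · intro a ha
    obtain ⟨s, hs, has⟩ := Set.mem_iUnion₂.mp (hS2 ha)
    refine ⟨b s, Finset.mem_image_of_mem _ hs, ?_⟩
    have h1 := Metric.edist_le_ediam_of_mem has (hb s ⟨a, has⟩)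
    have h2 := h1.trans (hS1 s hs)
    rw [edist_dist, ENNReal.ofReal_le_ofReal_iff hr, dist_eq_norm] at h2
    exact h2

/-- bounding the covering number by a cover by balls -/
theorem coverNumber_le {r : ℝ} {F : Set E} (Z : Finset E) (h : ∀ a ∈ F, ∃ z ∈ Z, ‖a - z‖ ≤ r / 2) :
    coverNumber r F ≤ Z.card := by
  classical
  unfold coverNumber
  refine iInf_le_of_le (Z.image fun z => Metric.closedBall z (r / 2)) ?_
  refine iInf_le_of_le ⟨?_, ?_⟩ ?_
  · intro s hs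
    obtain ⟨z, _, rfl⟩ := Finset.mem_image.mp hs
    apply Metric.ediam_le
    intro x hx y hy
    rw [edist_dist]
    apply ENNReal.ofReal_le_ofReal
    rw [Metric.mem_closedBall] at hx hy
    calc dist x y ≤ dist x z + dist y z := dist_triangle_right _ _ _
      _ ≤ r := by linarith
  · intro a ha
    obtain ⟨z, hz, h1⟩ := h a ha
    refine Set.mem_iUnion₂.mpr ⟨_, Finset.mem_image_of_mem _ hz, ?_⟩
    rw [Metric.mem_closedBall, dist_eq_norm]; exact h1
  · exact_mod_cast Finset.card_image_le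

set_option linter.unusedSectionVars false

variable [NormedSpace ℝ E] [ProperSpace E]

/-- box dimension below one gives uniform local covering bounds and boundedness -/
theorem lbox_of_box {A : Set E} (h : upperBoxDim A < 1) :
    ∃ d : ℝ, 0 ≤ d ∧ d < 1 ∧ LBox d A ∧ ∃ R, ∀ a ∈ A, ‖a‖ ≤ R := by
  unfold upperBoxDim at h
  obtain ⟨d', h1, h2⟩ := EReal.lt_iff_exists_real_btwn.mp h
  have hd'1 : d' < 1 := by exact_mod_cast h2
  have hev := Filter.eventually_lt_of_limsup_lt h1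
  set d : ℝ := max d' 0 with hd
  have hev2 : ∀ᶠ r : ℝ in 𝓝[>] 0, 0 < r ∧ r < 1 ∧ ∃ Z : Finset E, (Z.card : ℝ) ≤ r ^ (-d) ∧
      ∀ a ∈ A, ∃ z ∈ Z, ‖a - z‖ ≤ r := by
    filter_upwards [hev, Ioo_mem_nhdsGT (zero_lt_one' ℝ)] with r hr hr01
    refine ⟨hr01.1, hr01.2, ?_⟩
    have hlog : 0 < -Real.log r := by
      have := Real.log_neg hr01.1 hr01.2; linarith
    have h3 : ENNReal.log (coverNumber r A) < ((d' : ℝ) : EReal) * ((-Real.log r : ℝ) : EReal) := by
      rwa [EReal.div_lt_iff (by exact_mod_cast hlog) (EReal.coe_ne_top _)] at hr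
    have h4 : ((d' : ℝ) : EReal) * ((-Real.log r : ℝ) : EReal) = ENNReal.log (ENNReal.ofReal (r ^ (-d'))) := by
      rw [ENNReal.log_ofReal_of_pos (by have := hr01.1; positivity), Real.log_rpow hr01.1, ← EReal.coe_mul]
      congr 1; ring
    rw [h4, ENNReal.log_lt_log_iff] at h3
    obtain ⟨Z, hZ1, hZ2⟩ := centers_of_lt hr01.1.le h3
    refine ⟨Z, hZ1.trans ?_, hZ2⟩
    apply Real.rpow_le_rpow_of_exponent_ge hr01.1 hr01.2.le
    have := le_max_left d' 0
    linarith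
  refine ⟨d, le_max_right _ _, max_lt hd'1 one_pos, ?_, ?_⟩
  · -- uniform covering
    obtain ⟨r0, hr0, hr0'⟩ : ∃ r0 > 0, ∀ r ∈ Ioo (0:ℝ) r0, 0 < r ∧ r < 1 ∧ ∃ Z : Finset E,
        (Z.card : ℝ) ≤ r ^ (-d) ∧ ∀ a ∈ A, ∃ z ∈ Z, ‖a - z‖ ≤ r := by
      obtain ⟨r0, hr0, h5⟩ := mem_nhdsGT_iff_exists_Ioo_subset.mp hev2
      exact ⟨r0, hr0, fun r hr => h5 hr⟩
    have hr1 : r0 / 2 ∈ Ioo (0:ℝ) r0 := ⟨by positivity, by linarith⟩
    obtain ⟨h6, h7, Z0, hZ01, hZ02⟩ := hr0' _ hr1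
    have hC1 : 1 ≤ (r0 / 2) ^ (-d) := Real.one_le_rpow_of_pos_of_le_one_of_nonpos h6 h7.le (by
      have := le_max_right d' 0; linarith)
    refine ⟨(r0 / 2) ^ (-d), by positivity, fun x r hr hr1 => ?_⟩
    have hrd : 1 ≤ r ^ (-d) := Real.one_le_rpow_of_pos_of_le_one_of_nonpos hr hr1 (by
      have := le_max_right d' 0; linarith)
    by_cases hcase : r < r0
    · obtain ⟨_, _, Z, hZ1, hZ2⟩ := hr0' r ⟨hr, hcase⟩
      refine ⟨Z, hZ1.trans (le_mul_of_one_le_left (by positivity) hC1), fun a ha _ => hZ2 a ha⟩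
    · push Not at hcase
      refine ⟨Z0, hZ01.trans (le_mul_of_one_le_right (by positivity) hrd), fun a ha _ => ?_⟩
      obtain ⟨z, hz, h8⟩ := hZ02 a ha
      exact ⟨z, hz, by linarith⟩
  · obtain ⟨r, hr0, hr1, Z, _, hZ⟩ := hev2.exists
    refine ⟨∑ z ∈ Z, ‖z‖ + 1, fun a ha => ?_⟩
    obtain ⟨z, hz, h5⟩ := hZ a ha
    have h6 : ‖z‖ ≤ ∑ z ∈ Z, ‖z‖ := Finset.single_le_sum (f := fun z : E => ‖z‖) (fun z _ => norm_nonneg z) hz
    calc ‖a‖ = ‖(a - z) + z‖ := by congr 1; abel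
      _ ≤ ‖a - z‖ + ‖z‖ := norm_add_le _ _
      _ ≤ _ := by linarith

/-- Assouad spectrum below one gives uniform local covering bounds -/
theorem lbox_of_assouad {A : Set E} {θ : ℝ} (hθ0 : 0 < θ) (hθ1 : θ < 1)
    (h : assouadSpectrum θ A < 1) : ∃ d : ℝ, 0 ≤ d ∧ d < 1 ∧ LBox d A := by
  classical
  unfold assouadSpectrum at h
  obtain ⟨α, h1⟩ := iInf_lt_iff.mp h
  obtain ⟨⟨hα0, C, hC, hcov⟩, h2⟩ := iInf_lt_iff.mp h1
  have hα1 : α < 1 := by exact_mod_cast h2
  set α' : ℝ := (1 + α) / 2 with hα'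
  have hαα' : α < α' := by rw [hα']; linarith
  have hα'1 : α' < 1 := by rw [hα']; linarith
  have hα'0 : 0 ≤ α' := by rw [hα']; linarith
  have h1θ : 0 < 1 - θ := by linarith
  refine ⟨α', hα'0, hα'1, ?_⟩
  -- covers at scale `r` of balls of radius `r ^ θ` centred in `A`
  have hloc : ∀ r : ℝ, 0 < r → r < 1 → ∀ b ∈ A, ∃ Z : Finset E, (Z.card : ℝ) ≤ 2 * C * r ^ (-((1 - θ) * α)) ∧
      ∀ a ∈ A, ‖a - b‖ < r ^ θ → ∃ z ∈ Z, ‖a - z‖ ≤ r := by
    intro r hr hr1 b hb
    have h3 := hcov b hb (r ^ θ) (by positivity) (Real.rpow_lt_one hr.le hr1 hθ0)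
    have e1 : (r ^ θ) ^ (1 / θ) = r := by
      rw [← Real.rpow_mul hr.le, mul_one_div_cancel hθ0.ne', Real.rpow_one]
    have e2 : (r ^ θ) ^ ((1 - 1 / θ) * α) = r ^ (-((1 - θ) * α)) := by
      rw [← Real.rpow_mul hr.le]; congr 1; field_simp; ring
    rw [e1, e2] at h3
    have hpos : 0 < r ^ (-((1 - θ) * α)) := by positivity
    obtain ⟨Z, hZ1, hZ2⟩ := centers_of_lt (B := 2 * C * r ^ (-((1 - θ) * α))) hr.le (h3.trans_lt (by
      apply (ENNReal.ofReal_lt_ofReal_iff (by positivity)).mpr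
      have : 0 < C * r ^ (-((1 - θ) * α)) := by positivity
      linarith))
    refine ⟨Z, hZ1, fun a ha hab => hZ2 a ⟨?_, ha⟩⟩
    rw [Metric.mem_ball, dist_eq_norm]; exact hab
  -- threshold scale
  obtain ⟨rs, hrs0, hrs1, hrs2, hrs3⟩ : ∃ rs : ℝ, 0 < rs ∧ rs < 1 ∧
      (∀ r, 0 < r → r ≤ rs → 2 * C * 4 ^ α' * r ^ ((1 - θ) * (α' - α)) ≤ 1) ∧
      (∀ r, 0 < r → r ≤ rs → r ^ (1 - θ) ≤ 1 / 8) := by
    have t1 : ∀ e : ℝ, 0 < e → Tendsto (fun r : ℝ => r ^ e) (𝓝[>] 0) (𝓝 0) := by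
      intro e he
      have h3 : Tendsto (fun w : ℝ => w ^ e) (𝓝 0) (𝓝 ((0:ℝ) ^ e)) :=
        (Real.continuousAt_rpow_const 0 e (Or.inr he.le)).tendsto
      rw [Real.zero_rpow he.ne'] at h3
      exact h3.mono_left nhdsWithin_le_nhds
    have he : 0 < (1 - θ) * (α' - α) := mul_pos h1θ (by linarith)
    have t2 := (t1 _ he).const_mul (2 * C * 4 ^ α')
    rw [mul_zero] at t2
    have h3 := (t2.eventually (gt_mem_nhds (one_pos))).and
      (((t1 _ h1θ).eventually (gt_mem_nhds (by norm_num : (0:ℝ) < 1 / 8))).and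
        (Ioo_mem_nhdsGT (zero_lt_one' ℝ)))
    obtain ⟨rs, h4, h5, h6⟩ := h3.exists
    refine ⟨rs, h6.1, h6.2, ?_, ?_⟩
    · intro r hr hrr
      refine le_trans ?_ h4.le
      gcongr
    · intro r hr hrr
      refine le_trans ?_ h5.le
      gcongr
  -- a crude cover at the threshold scale
  obtain ⟨tt, _, htt, hcovt⟩ := (isCompact_closedBall (0:E) 1).finite_cover_balls hrs0
  set K : ℝ := (htt.toFinset.card : ℝ) with hK
  have hK0 : 0 ≤ K := Nat.cast_nonneg _
  have hind : ∀ N : ℕ, ∀ r : ℝ, rs * (1 / 2) ^ N ≤ r → r ≤ 1 → ∀ x : E,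
      ∃ Z : Finset E, (Z.card : ℝ) ≤ K * r ^ (-α') ∧ ∀ a ∈ A, ‖a - x‖ ≤ 1 → ∃ z ∈ Z, ‖a - z‖ ≤ r := by
    have hbase : ∀ r : ℝ, rs ≤ r → r ≤ 1 → ∀ x : E,
        ∃ Z : Finset E, (Z.card : ℝ) ≤ K * r ^ (-α') ∧ ∀ a ∈ A, ‖a - x‖ ≤ 1 → ∃ z ∈ Z, ‖a - z‖ ≤ r := by
      intro r hr hr1 x
      refine ⟨htt.toFinset.image fun y => x + y, ?_, ?_⟩
      · have h3 : ((htt.toFinset.image fun y => x + y).card : ℝ) ≤ K := by
          rw [hK]
          exact_mod_cast Finset.card_image_le (s := htt.toFinset) (f := fun y => x + y)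
        refine h3.trans (le_mul_of_one_le_right hK0 ?_)
        exact Real.one_le_rpow_of_pos_of_le_one_of_nonpos (by linarith) hr1 (by linarith)
      · intro a _ hax
        have h3 : a - x ∈ Metric.closedBall (0:E) 1 := by simpa using hax
        obtain ⟨y, hy, h4⟩ := Set.mem_iUnion₂.mp (hcovt h3)
        rw [Metric.mem_ball, dist_eq_norm] at h4
        refine ⟨x + y, Finset.mem_image_of_mem _ (htt.mem_toFinset.mpr hy), ?_⟩
        rw [show a - (x + y) = a - x - y by abel]; linarith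
    intro N
    induction N with
    | zero =>
      intro r hr hr1 x
      exact hbase r (by simpa using hr) hr1 x
    | succ N ih =>
      intro r hr hr1 x
      by_cases hcase : rs ≤ r
      · exact hbase r hcase hr1 x
      · push Not at hcase
        have hr0 : 0 < r := lt_of_lt_of_le (by positivity) hr
        set ρ : ℝ := r ^ θ / 4 with hρ
        have hrθ0 : 0 < r ^ θ := by positivity
        have hρ0 : 0 < ρ := by positivity
        have hrθ1 : r ^ θ ≤ 1 := Real.rpow_le_one hr0.le hr1 hθ0.le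
        have hρ2 : 2 * r ≤ ρ := by
          have h3 := hrs3 r hr0 hcase.le
          have h4 : r = r ^ θ * r ^ (1 - θ) := by
            rw [← Real.rpow_add hr0]; simp
          have h5 : r ≤ r ^ θ * (1 / 8) := by
            calc r = r ^ θ * r ^ (1 - θ) := h4
              _ ≤ r ^ θ * (1 / 8) := by gcongr
          rw [hρ]; linarith
        obtain ⟨Z, hZ1, hZ2⟩ := ih ρ (by
          have h3 : rs * (1 / 2) ^ (N + 1) = rs * (1 / 2) ^ N / 2 := by rw [pow_succ]; ring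
          rw [h3] at hr
          linarith) (by rw [hρ]; linarith) x
        have hch : ∀ z : E, ∃ W : Finset E, (W.card : ℝ) ≤ 2 * C * r ^ (-((1 - θ) * α)) ∧
            ∀ a ∈ A, ‖a - z‖ ≤ ρ → ∃ z' ∈ W, ‖a - z'‖ ≤ r := by
          intro z
          by_cases hz : ∃ b ∈ A, ‖b - z‖ ≤ ρ
          · obtain ⟨b, hb, hbz⟩ := hz
            obtain ⟨W, hW1, hW2⟩ := hloc r hr0 (by linarith) b hb
            refine ⟨W, hW1, fun a ha haz => hW2 a ha ?_⟩
            calc ‖a - b‖ = ‖(a - z) - (b - z)‖ := by congr 1; abel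
              _ ≤ ‖a - z‖ + ‖b - z‖ := norm_sub_le _ _
              _ ≤ ρ + ρ := add_le_add haz hbz
              _ < r ^ θ := by rw [hρ]; linarith
          · push Not at hz
            exact ⟨∅, by simp; positivity, fun a ha haz => absurd haz (not_le.mpr (hz a ha))⟩
        choose W hW1 hW2 using hch
        refine ⟨Z.biUnion W, ?_, ?_⟩
        · calc ((Z.biUnion W).card : ℝ) ≤ ∑ z ∈ Z, ((W z).card : ℝ) := by
                exact_mod_cast Finset.card_biUnion_le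
            _ ≤ ∑ z ∈ Z, 2 * C * r ^ (-((1 - θ) * α)) := Finset.sum_le_sum fun z _ => hW1 z
            _ = (Z.card : ℝ) * (2 * C * r ^ (-((1 - θ) * α))) := by rw [Finset.sum_const, nsmul_eq_mul]
            _ ≤ (K * ρ ^ (-α')) * (2 * C * r ^ (-((1 - θ) * α))) := by gcongr
            _ = K * r ^ (-α') * (2 * C * 4 ^ α' * r ^ ((1 - θ) * (α' - α))) := by
                have e1 : ρ ^ (-α') = r ^ (-(θ * α')) * 4 ^ α' := by
                  rw [hρ, Real.div_rpow hrθ0.le (by norm_num), ← Real.rpow_mul hr0.le,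
                    Real.rpow_neg (by norm_num : (0:ℝ) ≤ 4)]
                  field_simp
                have e2 : r ^ (-(θ * α')) * r ^ (-((1 - θ) * α)) = r ^ (-α') * r ^ ((1 - θ) * (α' - α)) := by
                  rw [← Real.rpow_add hr0, ← Real.rpow_add hr0]; congr 1; ring
                rw [e1]
                calc K * (r ^ (-(θ * α')) * 4 ^ α') * (2 * C * r ^ (-((1 - θ) * α)))
                    = K * 2 * C * 4 ^ α' * (r ^ (-(θ * α')) * r ^ (-((1 - θ) * α))) := by ring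
                  _ = _ := by rw [e2]; ring
            _ ≤ K * r ^ (-α') * 1 := by
                have := hrs2 r hr0 hcase.le
                gcongr
            _ = K * r ^ (-α') := mul_one _
        · intro a ha hax
          obtain ⟨z, hz, h3⟩ := hZ2 a ha hax
          obtain ⟨z', hz', h4⟩ := hW2 z a ha h3
          exact ⟨z', Finset.mem_biUnion.mpr ⟨z, hz, hz'⟩, h4⟩
  refine ⟨K, hK0, fun x r hr hr1 => ?_⟩
  obtain ⟨N, hN⟩ := exists_pow_lt_of_lt_one (div_pos hr hrs0) (by norm_num : (1:ℝ) / 2 < 1)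
  refine hind N r ?_ hr1 x
  rw [lt_div_iff₀ hrs0] at hN
  linarith

/-- uniform local covering bounds give a bound for the Assouad spectrum -/
theorem assouad_of_lbox {A : Set E} {θ ε : ℝ} (hθ0 : 0 < θ) (hθ1 : θ < 1) (hε : 0 ≤ ε)
    (h : LBox (ε * (1 - θ)) A) : assouadSpectrum θ A ≤ (ε : EReal) := by
  obtain ⟨C, hC, hcov⟩ := h
  unfold assouadSpectrum
  refine iInf_le_of_le ε ?_
  refine iInf_le_of_le ⟨hε, (C + 1) * 2 ^ (ε * (1 - θ)), by positivity, ?_⟩ le_rfl
  intro x _ R hR hR1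
  set r : ℝ := R ^ (1 / θ) with hr
  have hr0 : 0 < r := by positivity
  have hr1 : r ≤ 1 := Real.rpow_le_one hR.le hR1.le (by positivity)
  obtain ⟨Z, hZ1, hZ2⟩ := hcov x (r / 2) (by positivity) (by linarith)
  refine (coverNumber_le Z ?_).trans ?_
  · rintro a ⟨ha1, ha2⟩
    rw [Metric.mem_ball, dist_eq_norm] at ha1
    exact hZ2 a ha2 (by linarith)
  · rw [← ENNReal.ofReal_natCast]
    apply ENNReal.ofReal_le_ofReal
    refine hZ1.trans ?_
    have e1 : (r / 2) ^ (-(ε * (1 - θ))) = 2 ^ (ε * (1 - θ)) * R ^ ((1 - 1 / θ) * ε) := by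
      rw [Real.div_rpow hr0.le (by norm_num), Real.rpow_neg (by norm_num : (0:ℝ) ≤ 2), hr,
        ← Real.rpow_mul hR.le]
      have : 1 / θ * -(ε * (1 - θ)) = (1 - 1 / θ) * ε := by field_simp; ring
      rw [this, div_inv_eq_mul]; ring
    rw [e1]
    calc C * (2 ^ (ε * (1 - θ)) * R ^ ((1 - 1 / θ) * ε)) ≤ (C + 1) * (2 ^ (ε * (1 - θ)) * R ^ ((1 - 1 / θ) * ε)) := by
          gcongr; linarith
      _ = _ := by ring

/-- uniform local covering bounds give a bound for the box dimension of bounded sets -/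
theorem box_of_lbox {A : Set E} {ε : ℝ} (hε : 0 < ε) (h : LBox (ε / 2) A) {R : ℝ}
    (hR : ∀ a ∈ A, ‖a‖ ≤ R) : upperBoxDim A ≤ (ε : EReal) := by
  obtain ⟨C, hC, hcov⟩ := h.radius R
  unfold upperBoxDim
  apply Filter.limsup_le_of_le (by isBoundedDefault)
  have t1 : Tendsto (fun r : ℝ => C * 2 ^ (ε / 2) * r ^ (ε / 2)) (𝓝[>] 0) (𝓝 0) := by
    have h3 : Tendsto (fun w : ℝ => w ^ (ε / 2)) (𝓝 0) (𝓝 ((0:ℝ) ^ (ε / 2))) :=
      (Real.continuousAt_rpow_const 0 (ε / 2) (Or.inr (by positivity))).tendsto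
    rw [Real.zero_rpow (by positivity)] at h3
    simpa using (h3.mono_left nhdsWithin_le_nhds).const_mul (C * 2 ^ (ε / 2))
  filter_upwards [t1.eventually (gt_mem_nhds one_pos), Ioo_mem_nhdsGT (zero_lt_one' ℝ)] with r hr hr01
  have hr0 := hr01.1
  have hlog : 0 < -Real.log r := by
    have := Real.log_neg hr01.1 hr01.2; linarith
  obtain ⟨Z, hZ1, hZ2⟩ := hcov 0 (r / 2) (by positivity) (by linarith [hr01.2])
  have h1 : coverNumber r A ≤ ENNReal.ofReal (r ^ (-ε)) := by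
    refine (coverNumber_le Z ?_).trans ?_
    · intro a ha
      exact hZ2 a ha (by simpa using hR a ha)
    · rw [← ENNReal.ofReal_natCast]
      apply ENNReal.ofReal_le_ofReal
      refine hZ1.trans ?_
      have e1 : (r / 2) ^ (-(ε / 2)) = 2 ^ (ε / 2) * r ^ (-(ε / 2)) := by
        rw [Real.div_rpow hr0.le (by norm_num), Real.rpow_neg (by norm_num : (0:ℝ) ≤ 2), div_inv_eq_mul]
        ring
      have e2 : r ^ (-(ε / 2)) = r ^ (ε / 2) * r ^ (-ε) := by
        rw [← Real.rpow_add hr0]; congr 1; ring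
      rw [e1, e2]
      calc C * (2 ^ (ε / 2) * (r ^ (ε / 2) * r ^ (-ε))) = (C * 2 ^ (ε / 2) * r ^ (ε / 2)) * r ^ (-ε) := by ring
        _ ≤ 1 * r ^ (-ε) := by gcongr
        _ = _ := one_mul _
  rw [EReal.div_le_iff_le_mul (by exact_mod_cast hlog) (EReal.coe_ne_top _)]
  calc ENNReal.log (coverNumber r A) ≤ ENNReal.log (ENNReal.ofReal (r ^ (-ε))) := ENNReal.log_le_log h1
    _ = ((-Real.log r : ℝ) : EReal) * (ε : EReal) := by
        rw [ENNReal.log_ofReal_of_pos (by positivity), Real.log_rpow hr0, ← EReal.coe_mul]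
        congr 1; ring

/-- nice maps are homeomorphisms and quasiconformal -/
theorem Nice.homeo {G : E → E} (hG : Nice G) : ∃ f : E ≃ₜ E, (∀ x, f x = G x) ∧ IsQuasiconformal f := by
  obtain ⟨hbij, ⟨D, hD⟩, ⟨L, hL0, hL⟩, hqs⟩ := hG
  have hcont : Continuous G := by
    apply LipschitzWith.continuous (K := ⟨L, hL0.le⟩)
    apply LipschitzWith.of_dist_le_mul
    intro x y
    rw [dist_eq_norm, dist_eq_norm]
    exact hL y x
  have hprop : IsProperMap G := by
    rw [isProperMap_iff_tendsto_cocompact]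
    refine ⟨hcont, ?_⟩
    rw [← Metric.cobounded_eq_cocompact, ← tendsto_norm_atTop_iff_cobounded]
    have h1 : Tendsto (fun x : E => ‖x‖ + -D) (Bornology.cobounded E) atTop :=
      tendsto_atTop_add_const_right _ _ tendsto_norm_cobounded_atTop
    refine tendsto_atTop_mono (fun x => ?_) h1
    have h2 := hD x
    have h3 : ‖x‖ ≤ ‖G x‖ + ‖G x - x‖ := by
      calc ‖x‖ = ‖G x - (G x - x)‖ := by congr 1; abel
        _ ≤ _ := norm_sub_le _ _
    linarith
  refine ⟨(Equiv.ofBijective G hbij).toHomeomorphOfContinuousClosed hcont hprop.isClosedMap,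
    fun x => rfl, ?_⟩
  obtain ⟨H, hH⟩ := hqs 1 zero_le_one
  refine ⟨H, fun x => ?_⟩
  obtain ⟨r0, hr0, h1⟩ := hH x
  filter_upwards [Ioo_mem_nhdsGT hr0] with r hr y z hy hz
  rw [dist_eq_norm] at hy hz
  have h2 := h1 y z (by rw [hy]; exact hr.2) (by rw [hz]; exact hr.2) (by rw [hy, hz, one_mul])
  rw [dist_eq_norm, dist_eq_norm]
  exact h2

end

end Pool.Agent.H86.QC
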